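import Pool.Agent.Lib.MP_177a0e_gt.Surf

/-!
Turning closed braids into each other by bands, and the band distance to the slice knots.
-/

namespace Pool.Agent.Lib.MP_177a0e_gt

open Equiv

/-- `k` bands turn the link `K` into the link `L`: adding `k` bands to a closed braid isotopic to
`K` gives a closed braid isotopic to `L`. -/
def Bands (k : ℕ) (K L : Rep) : Prop :=
  ∃ (n : ℕ) (α : Braid) (cs : List Braid), α ∈ B n ∧ (∀ c ∈ cs, IsBand n c) ∧ cs.length = k ∧
    Isotopic (n, α) K ∧ Isotopic (n, α * cs.prod) L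

/-- Half the least number of bands that turn `K` into a slice knot: the least `g` such that `2 g`
bands turn `K` into a slice knot. -/
noncomputable def bandGenus (K : Rep) : ℕ :=
  sInf {g | ∃ J : Knot, sliceGenus J.1 = 0 ∧ Bands (2 * g) K J.1}

/-! ### Spanning trees first -/

lemma comps_pos {n : ℕ} (hn : n ≠ 0) (π : Perm ℕ) : 1 ≤ comps n π := by
  unfold comps
  have : Nonempty (Quotient ((cyc π).comap (fun i : Fin n => (i : ℕ)))) :=
    ⟨Quotient.mk _ ⟨0, by omega⟩⟩
  exact Nat.card_pos

lemma comps_zero (π : Perm ℕ) : comps 0 π = 0 := by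
  unfold comps
  rw [Nat.card_eq_zero]
  left
  constructor
  intro x
  induction x using Quotient.inductionOn with
  | h x => exact x.elim0

/-- a product of permutations that preserve the classes preserves the classes -/
lemma step_prod (T : Setoid ℕ) {l : List Braid} (h : ∀ b ∈ l, ∀ x, T x (perm b x)) (x : ℕ) :
    T x (perm l.prod x) := joined_le T h (joined_prod l x)

/-- Bands `l` added to a closed braid `β` can be rearranged such that first come the bands `ts` of
a spanning tree (forest) of the components of `β`. -/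
theorem tree_first {n : ℕ} {β : Braid} (hβ : β ∈ B n) (l : List Braid) (hl : ∀ b ∈ l, IsBand n b) :
    ∃ ts cs : List Braid, (∀ b ∈ ts, IsBand n b) ∧ (∀ c ∈ cs, IsBand n c) ∧
      l.prod = ts.prod * cs.prod ∧ ts.length + cs.length = l.length ∧
      comps n (perm (β * ts.prod)) + ts.length = comps n (perm β) ∧
      (∀ x y, cyc (perm β) x y → cyc (perm (β * ts.prod)) x y) ∧
      (∀ b ∈ l, ∀ x, cyc (perm (β * ts.prod)) x (perm b x)) ∧
      (∀ c ∈ cs, ∀ x, cyc (perm (β * ts.prod)) x (perm c x)) := by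
  induction l using List.reverseRecOn with
  | nil =>
    refine ⟨[], [], by simp, by simp, by simp, by simp, by simp, ?_, by simp, by simp⟩
    intro x y h
    rw [List.prod_nil, mul_one]
    exact h
  | append_singleton l b ih =>
    obtain ⟨ts, cs, h1, h2, h3, h4, h5, h6, h7, h8⟩ := ih (fun c hc => hl c (by simp [hc]))
    have hb : IsBand n b := hl b (by simp)
    obtain ⟨x, y, hx, hy, hxy, hbp⟩ := hb.perm
    have hπ : Below n (perm (β * ts.prod)) := perm_below ((B n).mul_mem hβ (prod_mem h1))
    set π := perm (β * ts.prod) with hπdef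
    -- the step of a swap
    have hswap : ∀ (T : Setoid ℕ) (a c : ℕ), T a c → ∀ z, T z (Equiv.swap a c z) := by
      intro T a c hac z
      by_cases hza : z = a
      · rw [hza, Equiv.swap_apply_left]; exact hac
      · by_cases hzc : z = c
        · rw [hzc, Equiv.swap_apply_right]; exact T.symm hac
        · rw [Equiv.swap_apply_of_ne_of_ne hza hzc]
    by_cases hcyc : cyc π x y
    · refine ⟨ts, cs ++ [b], h1, ?_, ?_, ?_, h5, h6, ?_, ?_⟩
      · intro c hc
        rw [List.mem_append, List.mem_singleton] at hc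
        rcases hc with hc | rfl
        · exact h2 c hc
        · exact hb
      · rw [List.prod_append, List.prod_append, h3, List.prod_singleton, mul_assoc]
      · simp only [List.length_append, List.length_singleton]; omega
      · intro c hc
        rw [List.mem_append, List.mem_singleton] at hc
        rcases hc with hc | rfl
        · exact h7 c hc
        · rw [hbp]; exact hswap _ x y hcyc
      · intro c hc
        rw [List.mem_append, List.mem_singleton] at hc
        rcases hc with hc | rfl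
        · exact h8 c hc
        · rw [hbp]; exact hswap _ x y hcyc
    · -- the band `b` joins two components
      have hρm : cs.prod ∈ B n := prod_mem h2
      set ρ := perm cs.prod with hρ
      have hρB : Below n ρ := perm_below hρm
      have hstep : ∀ z, cyc π z (ρ z) := step_prod (cyc π) h8
      have hnot : ¬ cyc π (ρ x) (ρ y) := fun h =>
        hcyc ((cyc π).trans ((cyc π).trans (hstep x) h) ((cyc π).symm (hstep y)))
      have hb' : IsBand n (cs.prod * b * (cs.prod)⁻¹) := hb.conj hρm
      have hb'p : perm (cs.prod * b * (cs.prod)⁻¹) = Equiv.swap (ρ x) (ρ y) := by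
        rw [map_mul, map_mul, map_inv, hbp]
        exact (Equiv.swap_apply_apply ρ x y).symm
      have hprod : β * (ts ++ [cs.prod * b * (cs.prod)⁻¹]).prod =
          β * ts.prod * (cs.prod * b * (cs.prod)⁻¹) := by
        rw [List.prod_append, List.prod_singleton]; group
      have hπ' : perm (β * (ts ++ [cs.prod * b * (cs.prod)⁻¹]).prod) =
          π * Equiv.swap (ρ x) (ρ y) := by
        rw [hprod, map_mul, hb'p]
      have hmerge := comps_merge hπ (hρB.lt hx) (hρB.lt hy) hnot
      have hle : ∀ {u v : ℕ}, cyc π u v → cyc (π * Equiv.swap (ρ x) (ρ y)) u v :=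
        fun h => merge_le hπ hnot h
      have hρxy : cyc (π * Equiv.swap (ρ x) (ρ y)) (ρ x) (ρ y) := iterate_merge hπ hnot
      have hxy' : cyc (π * Equiv.swap (ρ x) (ρ y)) x y :=
        (cyc _).trans ((cyc _).trans (hle (hstep x)) hρxy) ((cyc _).symm (hle (hstep y)))
      refine ⟨ts ++ [cs.prod * b * (cs.prod)⁻¹], cs, ?_, h2, ?_, ?_, ?_, ?_, ?_, ?_⟩
      · intro c hc
        rw [List.mem_append, List.mem_singleton] at hc
        rcases hc with hc | rfl
        · exact h1 c hc
        · exact hb'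
      · rw [List.prod_append, List.prod_append, h3, List.prod_singleton, List.prod_singleton]
        group
      · simp only [List.length_append, List.length_singleton]; omega
      · rw [hπ', List.length_append, List.length_singleton]; omega
      · intro u v huv
        rw [hπ']; exact hle (h6 u v huv)
      · intro c hc z
        rw [hπ']
        rw [List.mem_append, List.mem_singleton] at hc
        rcases hc with hc | rfl
        · exact hle (h7 c hc z)
        · rw [hbp]; exact hswap _ x y hxy' z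
      · intro c hc z
        rw [hπ']
        exact hle (h8 c hc z)

/-- If bands turn a closed braid `β` into a knot then the bands of a spanning tree of the
components of `β` turn it into a knot. -/
theorem tree_knot {n : ℕ} {β : Braid} (hβ : β ∈ B n) {l : List Braid} (hl : ∀ b ∈ l, IsBand n b)
    (hk : comps n (perm (β * l.prod)) = 1) :
    ∃ ts cs : List Braid, (∀ b ∈ ts, IsBand n b) ∧ (∀ c ∈ cs, IsBand n c) ∧
      l.prod = ts.prod * cs.prod ∧ ts.length + cs.length = l.length ∧
      comps n (perm (β * ts.prod)) = 1 ∧ ts.length + 1 = comps n (perm β) := by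
  obtain ⟨ts, cs, h1, h2, h3, h4, h5, h6, h7, h8⟩ := tree_first hβ l hl
  have hn : n ≠ 0 := by
    rintro rfl
    rw [comps_zero] at hk
    omega
  have hstep : ∀ z, cyc (perm (β * ts.prod)) z (perm (β * l.prod) z) := by
    intro z
    have e : perm (β * l.prod) z = perm β (perm l.prod z) := by rw [map_mul, Perm.mul_apply]
    rw [e]
    exact (cyc _).trans (step_prod (cyc _) h7 z) (h6 _ _ (cyc_step (perm β) _))
  have hle : comps n (perm (β * ts.prod)) ≤ 1 := comps_le_one (fun x y hx hy =>
    sameCycle_le (cyc (perm (β * ts.prod))) hstep (sameCycle_of_comps hk hx hy))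
  have hge := comps_pos hn (perm (β * ts.prod))
  exact ⟨ts, cs, h1, h2, h3, h4, by omega, by omega⟩

/-! ### Elementary properties of band moves -/

lemma inv_bands {n : ℕ} {cs : List Braid} (h : ∀ c ∈ cs, IsBand n c) :
    ∃ es : List Braid, (∀ c ∈ es, IsBand n c) ∧ es.length = cs.length ∧
      es.prod = (cs.prod)⁻¹ := by
  refine ⟨(cs.map (fun b => b⁻¹)).reverse, ?_, by simp, ?_⟩
  · intro b hb
    rw [List.mem_reverse, List.mem_map] at hb
    obtain ⟨c, hc, rfl⟩ := hb
    exact (h c hc).inv
  · rw [List.prod_inv_reverse]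

lemma Bands.symm {k : ℕ} {K L : Rep} (h : Bands k K L) : Bands k L K := by
  obtain ⟨n, α, cs, hα, hcs, hk, h1, h2⟩ := h
  obtain ⟨es, he1, he2, he3⟩ := inv_bands hcs
  refine ⟨n, α * cs.prod, es, (B n).mul_mem hα (prod_mem hcs), he1, he2.trans hk, h2, ?_⟩
  rw [he3, mul_inv_cancel_right]
  exact h1

lemma Bands.refl {K : Rep} (hK : K.2 ∈ B K.1) : Bands 0 K K :=
  ⟨K.1, K.2, [], hK, by simp, rfl, Isotopic.refl _, by simpa using Isotopic.refl _⟩

lemma Bands.iso {k : ℕ} {K L M N : Rep} (h : Bands k K L) (h1 : Isotopic K M)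
    (h2 : Isotopic L N) : Bands k M N := by
  obtain ⟨n, α, cs, hα, hcs, hk, h3, h4⟩ := h
  exact ⟨n, α, cs, hα, hcs, hk, h3.trans h1, h4.trans h2⟩

lemma mem_of_up {K L : Rep} (h : Up K L) : L.2 ∈ B L.1 := by
  cases h with
  | @conj n β γ hβ hγ =>
    exact (B n).mul_mem ((B n).mul_mem hγ hβ) ((B n).inv_mem hγ)
  | @stab n β γ δ ε hβ hγ hδ =>
    have h1 : γ * β * γ⁻¹ ∈ B (n+1) := (B _).mul_mem ((B _).mul_mem hγ hβ) ((B _).inv_mem hγ)
    have h2 : γ * β * γ⁻¹ ∈ B (n+2) := B_mono (by omega) h1
    have h3 : sgn ε (σ n) ∈ B (n+2) := sgn_mem (σ_mem (by omega))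
    exact (B (n+2)).mul_mem ((B (n+2)).mul_mem hδ ((B (n+2)).mul_mem h2 h3))
      ((B (n+2)).inv_mem hδ)

lemma mem_of_ups {K L : Rep} (h : Relation.ReflTransGen Up K L) (hK : K.2 ∈ B K.1) :
    L.2 ∈ B L.1 := by
  cases h with
  | refl => exact hK
  | tail _ h => exact mem_of_up h

/-- Two lists of bands added to isotopic closed braids can be added to one and the same closed
braid. -/
theorem common_base {n p : ℕ} {α γ : Braid} {cs ds : List Braid} (hα : α ∈ B n)
    (hcs : ∀ c ∈ cs, IsBand n c) (hds : ∀ c ∈ ds, IsBand p c) (h : Isotopic (n, α) (p, γ)) :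
    ∃ (d : ℕ) (δ : Braid) (cs' ds' : List Braid), δ ∈ B d ∧ (∀ c ∈ cs', IsBand d c) ∧
      (∀ c ∈ ds', IsBand d c) ∧ cs'.length = cs.length ∧ ds'.length = ds.length ∧
      Isotopic (n, α) (d, δ) ∧ Isotopic (n, α * cs.prod) (d, δ * cs'.prod) ∧
      Isotopic (p, γ * ds.prod) (d, δ * ds'.prod) := by
  obtain ⟨⟨d, δ⟩, h5, h6⟩ := common_stab h
  obtain ⟨cs1, c1, c2, c3⟩ := transport_add (K := (n, α)) (L := (d, δ)) h5 hcs
  obtain ⟨ds1, d1, d2, d3⟩ := transport_add (K := (p, γ)) (L := (d, δ)) h6 hds
  have h7 : δ ∈ B d := mem_of_ups (K := (n, α)) (L := (d, δ)) h5 hα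
  exact ⟨d, δ, cs1, ds1, h7, c1, d1, c2, d2, iso_of_ups h5, iso_of_ups c3, iso_of_ups d3⟩

/-- Band moves can be done one after the other. -/
theorem Bands.trans {k l : ℕ} {K L M : Rep} (h : Bands k K L) (h' : Bands l L M) :
    Bands (k + l) K M := by
  obtain ⟨n, α, cs, hα, hcs, hk, h1, h2⟩ := h
  obtain ⟨p, γ, ds, hγ, hds, hl, h3, h4⟩ := h'
  obtain ⟨es, he1, he2, he3⟩ := inv_bands hcs
  obtain ⟨d, δ, es', ds', g1, g2, g3, g4, g5, g6, g7, g8⟩ :=
    common_base ((B n).mul_mem hα (prod_mem hcs)) he1 hds (h2.trans h3.symm)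
  rw [he3, mul_inv_cancel_right] at g7
  obtain ⟨fs, hf1, hf2, hf3⟩ := inv_bands g2
  refine ⟨d, δ * es'.prod, fs ++ ds', (B d).mul_mem g1 (prod_mem g2), ?_, ?_, g7.symm.trans h1,
    ?_⟩
  · intro b hb
    rw [List.mem_append] at hb
    rcases hb with hb | hb
    · exact hf1 b hb
    · exact g3 b hb
  · rw [List.length_append, hf2, g4, he2, g5, hk, hl]
  · rw [List.prod_append, hf3, ← mul_assoc, mul_inv_cancel_right]
    exact g8.symm.trans h4

lemma Bands.unlinked {k : ℕ} {K L : Rep} (h : Bands k K L) (m : ℕ) :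
    Bands k (unlinked K m) (unlinked L m) := by
  obtain ⟨n, α, cs, hα, hcs, hk, h1, h2⟩ := h
  exact ⟨n + m, α, cs, B_mono (by omega) hα, bands_mono (by omega) hcs, hk,
    iso_unlinked (K := (n, α)) h1 m, iso_unlinked (K := (n, α * cs.prod)) h2 m⟩

lemma ribbonConcordance_iff {K' K : Rep} :
    RibbonConcordance K' K ↔ ∃ m, Bands m K' (unlinked K m) := by
  constructor
  · rintro ⟨m, n, α, cs, h1, h2, h3, h4, h5⟩
    exact ⟨m, n, α, cs, h1, h2, h3, h4, h5⟩
  · rintro ⟨m, n, α, cs, h1, h2, h3, h4, h5⟩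
    exact ⟨m, n, α, cs, h1, h2, h3, h4, h5⟩

end Pool.Agent.Lib.MP_177a0e_gt
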