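import Pool.Agent.Lib.MP_177a0e_gt.Defs

namespace Pool.Agent.Lib.MP_177a0e_gt

open Equiv

/-! ### Braid groups -/

lemma σ_comm {i j : ℕ} (h : i + 2 ≤ j) : σ i * σ j = σ j * σ i := by
  have h1 : PresentedGroup.mk artinRels (FreeGroup.of i * FreeGroup.of j * (FreeGroup.of i)⁻¹ *
      (FreeGroup.of j)⁻¹) = 1 := PresentedGroup.one_of_mem (Or.inl ⟨i, j, h, rfl⟩)
  simp only [map_mul, map_inv] at h1
  have h2 : σ i * σ j * (σ i)⁻¹ * (σ j)⁻¹ = 1 := h1
  rw [mul_inv_eq_one, mul_inv_eq_iff_eq_mul] at h2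
  exact h2

lemma σ_braid (i : ℕ) : σ i * σ (i+1) * σ i = σ (i+1) * σ i * σ (i+1) := by
  have h1 : PresentedGroup.mk artinRels (FreeGroup.of i * FreeGroup.of (i+1) * FreeGroup.of i *
      (FreeGroup.of (i+1) * FreeGroup.of i * FreeGroup.of (i+1))⁻¹) = 1 :=
    PresentedGroup.one_of_mem (Or.inr ⟨i, rfl⟩)
  simp only [map_mul, map_inv] at h1
  have h2 : σ i * σ (i+1) * σ i * (σ (i+1) * σ i * σ (i+1))⁻¹ = 1 := by
    rw [mul_inv_rev, mul_inv_rev]
    simp only [mul_inv_rev] at h1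
    exact h1
  rwa [mul_inv_eq_one] at h2

lemma σ_mem {i n : ℕ} (h : i + 1 < n) : σ i ∈ B n := Subgroup.subset_closure ⟨i, h, rfl⟩

lemma B_mono {n m : ℕ} (h : n ≤ m) : B n ≤ B m := by
  apply Subgroup.closure_mono
  rintro g ⟨i, hi, rfl⟩
  exact ⟨i, by omega, rfl⟩

/-- `σ j` commutes with the braids on the strings `0, …, n-1` if `n ≤ j`. -/
lemma σ_comm_B {n j : ℕ} (h : n ≤ j) {β : Braid} (hβ : β ∈ B n) : Commute (σ j) β := by
  induction hβ using Subgroup.closure_induction with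
  | mem x hx =>
    obtain ⟨i, hi, rfl⟩ := hx
    exact (σ_comm (by omega : i + 2 ≤ j)).symm
  | one => exact Commute.one_right _
  | mul x y _ _ hx hy => exact hx.mul_right hy
  | inv x _ hx => exact hx.inv_right

lemma perm_σ (i : ℕ) : perm (σ i) = Equiv.swap i (i+1) := PresentedGroup.toGroup.of _

lemma perm_below {n : ℕ} {β : Braid} (hβ : β ∈ B n) : Below n (perm β) := by
  induction hβ using Subgroup.closure_induction with
  | mem x hx =>
    obtain ⟨i, hi, rfl⟩ := hx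
    rw [perm_σ]
    exact Below.swap (by omega) (by omega)
  | one => rw [map_one]; exact Below.one n
  | mul x y _ _ hx hy => rw [map_mul]; exact hx.mul hy
  | inv x _ hx => rw [map_inv]; exact hx.inv

/-! ### Bands -/

lemma IsBand.mem {n : ℕ} {b : Braid} (h : IsBand n b) : b ∈ B n := by
  obtain ⟨γ, hγ, i, hi, rfl | rfl⟩ := h
  · exact (B n).mul_mem ((B n).mul_mem hγ (σ_mem hi)) ((B n).inv_mem hγ)
  · exact (B n).mul_mem ((B n).mul_mem hγ ((B n).inv_mem (σ_mem hi))) ((B n).inv_mem hγ)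

lemma IsBand.conj {n : ℕ} {b δ : Braid} (h : IsBand n b) (hδ : δ ∈ B n) :
    IsBand n (δ * b * δ⁻¹) := by
  obtain ⟨γ, hγ, i, hi, rfl | rfl⟩ := h
  · exact ⟨δ * γ, (B n).mul_mem hδ hγ, i, hi, Or.inl (by group)⟩
  · exact ⟨δ * γ, (B n).mul_mem hδ hγ, i, hi, Or.inr (by group)⟩

lemma IsBand.inv {n : ℕ} {b : Braid} (h : IsBand n b) : IsBand n b⁻¹ := by
  obtain ⟨γ, hγ, i, hi, rfl | rfl⟩ := h
  · exact ⟨γ, hγ, i, hi, Or.inr (by group)⟩
  · exact ⟨γ, hγ, i, hi, Or.inl (by group)⟩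

lemma IsBand.mono {n m : ℕ} {b : Braid} (h : IsBand n b) (hnm : n ≤ m) : IsBand m b := by
  obtain ⟨γ, hγ, i, hi, h⟩ := h
  exact ⟨γ, B_mono hnm hγ, i, by omega, h⟩

lemma isBand_σ {n i : ℕ} (h : i + 1 < n) : IsBand n (σ i) :=
  ⟨1, (B n).one_mem, i, h, Or.inl (by group)⟩

lemma isBand_σ_inv {n i : ℕ} (h : i + 1 < n) : IsBand n (σ i)⁻¹ := (isBand_σ h).inv

lemma IsBand.perm {n : ℕ} {b : Braid} (h : IsBand n b) :
    ∃ x y : ℕ, x < n ∧ y < n ∧ x ≠ y ∧ perm b = Equiv.swap x y := by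
  obtain ⟨γ, hγ, i, hi, h⟩ := h
  have hb : Pool.Agent.Lib.MP_177a0e_gt.perm b =
      Pool.Agent.Lib.MP_177a0e_gt.perm γ * Equiv.swap i (i+1) *
        (Pool.Agent.Lib.MP_177a0e_gt.perm γ)⁻¹ := by
    rcases h with rfl | rfl
    · rw [map_mul, map_mul, map_inv, perm_σ]
    · rw [map_mul, map_mul, map_inv, map_inv, perm_σ, Equiv.swap_inv]
  have hB := perm_below hγ
  refine ⟨Pool.Agent.Lib.MP_177a0e_gt.perm γ i, Pool.Agent.Lib.MP_177a0e_gt.perm γ (i+1),
    hB.lt (by omega), hB.lt (by omega), ?_, ?_⟩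
  · intro heq
    have := (Pool.Agent.Lib.MP_177a0e_gt.perm γ).injective heq
    omega
  · rw [hb]
    exact (Equiv.swap_apply_apply (Pool.Agent.Lib.MP_177a0e_gt.perm γ) i (i+1)).symm

lemma prod_mem {n : ℕ} {bs : List Braid} (h : ∀ b ∈ bs, IsBand n b) : bs.prod ∈ B n :=
  (B n).list_prod_mem (fun b hb => (h b hb).mem)

/-! ### The number of components is an invariant -/

lemma not_sameCycle_of_below {n x : ℕ} {π : Perm ℕ} (h : Below n π) (hx : x < n) :
    ¬ π.SameCycle x n := by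
  rintro ⟨k, hk⟩
  have := (h.zpow k).lt hx
  omega

lemma comps_markov {K L : Rep} (h : Markov K L) : comps K.1 (perm K.2) = comps L.1 (perm L.2) := by
  cases h with
  | @conj n β γ hβ hγ =>
    show comps n (perm β) = comps n (perm (γ * β * γ⁻¹))
    rw [map_mul, map_mul, map_inv]
    exact (comps_conj (perm_below hγ)).symm
  | @stab_pos n β hβ =>
    show comps (n+1) (perm β) = comps (n+2) (perm (β * σ n))
    rw [map_mul, perm_σ]
    have h1 := perm_below hβ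
    have h2 := comps_succ h1
    have h3 := comps_merge (h1.mono (by omega : n + 1 ≤ n + 2)) (by omega) (by omega)
      (not_sameCycle_of_below h1 (by omega : n < n + 1))
    have e : n + 1 + 1 = n + 2 := by ring
    rw [e] at h2
    omega
  | @stab_neg n β hβ =>
    show comps (n+1) (perm β) = comps (n+2) (perm (β * (σ n)⁻¹))
    rw [map_mul, map_inv, perm_σ, Equiv.swap_inv]
    have h1 := perm_below hβ
    have h2 := comps_succ h1
    have h3 := comps_merge (h1.mono (by omega : n + 1 ≤ n + 2)) (by omega) (by omega)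
      (not_sameCycle_of_below h1 (by omega : n < n + 1))
    have e : n + 1 + 1 = n + 2 := by ring
    rw [e] at h2
    omega

lemma comps_isotopic {K L : Rep} (h : Isotopic K L) :
    comps K.1 (perm K.2) = comps L.1 (perm L.2) := by
  induction h with
  | rel _ _ h => exact comps_markov h
  | refl _ => rfl
  | symm _ _ _ ih => exact ih.symm
  | trans _ _ _ _ _ ih1 ih2 => exact ih1.trans ih2

lemma mem_markov {K L : Rep} (h : Markov K L) : K.2 ∈ B K.1 ∧ L.2 ∈ B L.1 := by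
  cases h with
  | @conj n β γ hβ hγ =>
    exact ⟨hβ, (B n).mul_mem ((B n).mul_mem hγ hβ) ((B n).inv_mem hγ)⟩
  | @stab_pos n β hβ =>
    exact ⟨hβ, (B (n+2)).mul_mem (B_mono (by omega) hβ) (σ_mem (by omega))⟩
  | @stab_neg n β hβ =>
    exact ⟨hβ, (B (n+2)).mul_mem (B_mono (by omega) hβ) ((B (n+2)).inv_mem (σ_mem (by omega)))⟩

/-! ### Basic isotopies -/

lemma Isotopic.refl (K : Rep) : Isotopic K K := Relation.EqvGen.refl _
lemma Isotopic.symm {K L : Rep} (h : Isotopic K L) : Isotopic L K := Relation.EqvGen.symm _ _ h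
lemma Isotopic.trans {K L M : Rep} (h : Isotopic K L) (h' : Isotopic L M) : Isotopic K M :=
  Relation.EqvGen.trans _ _ _ h h'

lemma iso_conj {n : ℕ} {β γ : Braid} (hβ : β ∈ B n) (hγ : γ ∈ B n) :
    Isotopic (n, β) (n, γ * β * γ⁻¹) := Relation.EqvGen.rel _ _ (Markov.conj hβ hγ)

/-- `true` stands for a positive and `false` for a negative generator. -/
def sgn (ε : Bool) (b : Braid) : Braid := if ε then b else b⁻¹

lemma sgn_mem {ε : Bool} {n : ℕ} {b : Braid} (h : b ∈ B n) : sgn ε b ∈ B n := by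
  unfold sgn; split_ifs
  · exact h
  · exact (B n).inv_mem h

lemma sgn_band {ε : Bool} {n i : ℕ} (h : i + 1 < n) : IsBand n (sgn ε (σ i)) := by
  unfold sgn; split_ifs
  · exact isBand_σ h
  · exact isBand_σ_inv h

lemma sgn_conj (ε : Bool) (a b : Braid) : a * sgn ε b * a⁻¹ = sgn ε (a * b * a⁻¹) := by
  unfold sgn; split_ifs
  · rfl
  · group

lemma markov_stab {n : ℕ} {β : Braid} (hβ : β ∈ B (n+1)) (ε : Bool) :
    Markov (n+1, β) (n+2, β * sgn ε (σ n)) := by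
  cases ε
  · exact Markov.stab_neg hβ
  · exact Markov.stab_pos hβ

/-! ### Common stabilisations -/

/-- A conjugation, or a conjugation followed by a stabilisation followed by a conjugation. -/
inductive Up : Rep → Rep → Prop
  | conj {n : ℕ} {β γ : Braid} (hβ : β ∈ B n) (hγ : γ ∈ B n) : Up (n, β) (n, γ * β * γ⁻¹)
  | stab {n : ℕ} {β γ δ : Braid} (ε : Bool) (hβ : β ∈ B (n+1)) (hγ : γ ∈ B (n+1))
      (hδ : δ ∈ B (n+2)) : Up (n+1, β) (n+2, δ * (γ * β * γ⁻¹ * sgn ε (σ n)) * δ⁻¹)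

lemma up_of_markov {K L : Rep} (h : Markov K L) : Up K L := by
  cases h with
  | @conj n β γ hβ hγ => exact Up.conj hβ hγ
  | @stab_pos n β hβ =>
    have := Up.stab (δ := 1) (γ := 1) true hβ (B _).one_mem (B _).one_mem
    simpa [sgn] using this
  | @stab_neg n β hβ =>
    have := Up.stab (δ := 1) (γ := 1) false hβ (B _).one_mem (B _).one_mem
    simpa [sgn] using this

lemma iso_of_up {K L : Rep} (h : Up K L) : Isotopic K L := by
  cases h with
  | @conj n β γ hβ hγ => exact iso_conj hβ hγ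
  | @stab n β γ δ ε hβ hγ hδ =>
    have h1 : γ * β * γ⁻¹ ∈ B (n+1) := (B _).mul_mem ((B _).mul_mem hγ hβ) ((B _).inv_mem hγ)
    refine (iso_conj hβ hγ).trans ((Relation.EqvGen.rel _ _ (markov_stab h1 ε)).trans _ _ _ ?_)
    exact iso_conj ((B _).mul_mem (B_mono (by omega) h1) (sgn_mem (σ_mem (by omega)))) hδ

/-- A convenient form of `Up.stab`. -/
lemma Up.stab' {n : ℕ} {β η ζ : Braid} {X : Braid} (ε : Bool) (hβ : β ∈ B (n+1))
    (hη : η ∈ B (n+1)) (hζ : ζ ∈ B (n+2)) (hX : X = ζ * (β * (η⁻¹ * sgn ε (σ n) * η)) * ζ⁻¹) :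
    Up (n+1, β) (n+2, X) := by
  have := Up.stab (δ := ζ * η⁻¹) ε hβ hη ((B _).mul_mem hζ ((B _).inv_mem (B_mono (by omega) hη)))
  rw [hX]
  convert this using 2
  group

lemma conj_rel1 (n : ℕ) (ε : Bool) :
    σ (n+1) * sgn ε (σ n) * (σ (n+1))⁻¹ = (σ n)⁻¹ * sgn ε (σ (n+1)) * σ n := by
  have h1 : σ (n+1) * σ n * (σ (n+1))⁻¹ = (σ n)⁻¹ * σ (n+1) * σ n := by
    rw [mul_inv_eq_iff_eq_mul, mul_assoc, mul_assoc, eq_inv_mul_iff_mul_eq, ← mul_assoc, ← mul_assoc]
    exact σ_braid n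
  have h2 : (σ n)⁻¹ * sgn ε (σ (n+1)) * σ n = sgn ε ((σ n)⁻¹ * σ (n+1) * σ n) := by
    have := sgn_conj ε (σ n)⁻¹ (σ (n+1))
    simpa using this
  rw [sgn_conj, h1, h2]

lemma conj_rel2 (n : ℕ) (ε : Bool) :
    (σ (n+1))⁻¹ * sgn ε (σ n) * σ (n+1) = σ n * sgn ε (σ (n+1)) * (σ n)⁻¹ := by
  have h1 : (σ (n+1))⁻¹ * σ n * σ (n+1) = σ n * σ (n+1) * (σ n)⁻¹ := by
    rw [eq_mul_inv_iff_mul_eq, mul_assoc, mul_assoc, inv_mul_eq_iff_eq_mul, ← mul_assoc, ← mul_assoc]
    exact σ_braid n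
  have h2 : (σ (n+1))⁻¹ * sgn ε (σ n) * σ (n+1) = sgn ε ((σ (n+1))⁻¹ * σ n * σ (n+1)) := by
    have := sgn_conj ε (σ (n+1))⁻¹ (σ n)
    simpa using this
  rw [h2, sgn_conj, h1]

/-- `Up` has the diamond property. -/
theorem diamond (A X Y : Rep) (h1 : Up A X) (h2 : Up A Y) :
    ∃ Z, Relation.ReflGen Up X Z ∧ Relation.ReflTransGen Up Y Z := by
  cases h1 with
  | @conj n β γ hβ hγ =>
    -- `X` is conjugate to `A`, so `Y` is above `X`
    refine ⟨Y, Relation.ReflGen.single ?_, Relation.ReflTransGen.refl⟩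
    cases h2 with
    | @conj _ _ γ' _ hγ' =>
      have h3 : γ * β * γ⁻¹ ∈ B n := (B _).mul_mem ((B _).mul_mem hγ hβ) ((B _).inv_mem hγ)
      have := Up.conj h3 ((B _).mul_mem hγ' ((B _).inv_mem hγ))
      convert this using 2
      group
    | @stab m _ γ' δ' ε _ hγ' hδ' =>
      have h3 : γ * β * γ⁻¹ ∈ B (m+1) := (B _).mul_mem ((B _).mul_mem hγ hβ) ((B _).inv_mem hγ)
      have := Up.stab ε h3 ((B _).mul_mem hγ' ((B _).inv_mem hγ)) hδ'
      convert this using 2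
      group
  | @stab n β γ δ ε hβ hγ hδ =>
    cases h2 with
    | @conj _ _ γ' _ hγ' =>
      -- `Y` is conjugate to `A`
      have h3 : γ' * β * γ'⁻¹ ∈ B (n+1) := (B _).mul_mem ((B _).mul_mem hγ' hβ) ((B _).inv_mem hγ')
      refine ⟨_, Relation.ReflGen.refl, Relation.ReflTransGen.single ?_⟩
      have := Up.stab ε h3 ((B _).mul_mem hγ ((B _).inv_mem hγ')) hδ
      convert this using 2
      group
    | @stab _ _ γ' δ' ε' _ hγ' hδ' =>
      -- the main case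
      have eβ : Commute (σ (n+1)) β := σ_comm_B (by omega) hβ
      have eγ : Commute (σ (n+1)) γ := σ_comm_B (by omega) hγ
      have eγ' : Commute (σ (n+1)) γ' := σ_comm_B (by omega) hγ'
      set t := σ (n+1) with ht
      set s := sgn ε (σ n) with hs
      set s' := sgn ε' (σ n) with hs'
      have hn2 : ∀ {x : Braid}, x ∈ B (n+1) → x ∈ B (n+2) := fun h => B_mono (by omega) h
      have hn3 : ∀ {x : Braid}, x ∈ B (n+2) → x ∈ B (n+3) := fun h => B_mono (by omega) h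
      have hσ : σ n ∈ B (n+2) := σ_mem (by omega)
      have hsm : s ∈ B (n+2) := sgn_mem hσ
      have hsm' : s' ∈ B (n+2) := sgn_mem hσ
      have htm : t ∈ B (n+3) := σ_mem (by omega)
      have hXm : δ * (γ * β * γ⁻¹ * s) * δ⁻¹ ∈ B (n+2) :=
        (B _).mul_mem ((B _).mul_mem hδ ((B _).mul_mem ((B _).mul_mem ((B _).mul_mem (hn2 hγ)
          (hn2 hβ)) ((B _).inv_mem (hn2 hγ))) hsm)) ((B _).inv_mem hδ)
      have hYm : δ' * (γ' * β * γ'⁻¹ * s') * δ'⁻¹ ∈ B (n+2) :=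
        (B _).mul_mem ((B _).mul_mem hδ' ((B _).mul_mem ((B _).mul_mem ((B _).mul_mem (hn2 hγ')
          (hn2 hβ)) ((B _).inv_mem (hn2 hγ'))) hsm')) ((B _).inv_mem hδ')
      -- the common stabilisation
      let D : Braid := β * (γ⁻¹ * s * γ) * (γ'⁻¹ * (t * s' * t⁻¹) * γ')
      have hD1 : D = β * (γ⁻¹ * s * γ) * ((σ n * γ')⁻¹ * sgn ε' t * (σ n * γ')) := by
        simp only [D]
        rw [ht, hs', conj_rel1]
        group
      have hD2 : t⁻¹ * D * t = β * (γ⁻¹ * (σ n * sgn ε t * (σ n)⁻¹) * γ) * (γ'⁻¹ * s' * γ') := by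
        have e1 : t⁻¹ * D * t = (t⁻¹ * β * t) * ((t⁻¹ * γ * t)⁻¹ * (t⁻¹ * s * t) * (t⁻¹ * γ * t)) *
            ((t⁻¹ * γ' * t)⁻¹ * s' * (t⁻¹ * γ' * t)) := by
          simp only [D]; group
        have c : ∀ {x : Braid}, Commute t x → t⁻¹ * x * t = x := by
          intro x hx
          rw [mul_assoc, ← hx.eq, inv_mul_cancel_left]
        rw [e1, c eβ, c eγ, c eγ', ht, hs, conj_rel2]
      refine ⟨(n+3, D), Relation.ReflGen.single ?_, Relation.ReflTransGen.single ?_⟩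
      · refine Up.stab' (n := n+1) (η := σ n * γ' * γ⁻¹ * δ⁻¹) (ζ := γ⁻¹ * δ⁻¹) ε' hXm ?_ ?_ ?_
        · exact (B _).mul_mem ((B _).mul_mem ((B _).mul_mem hσ (hn2 hγ')) ((B _).inv_mem (hn2 hγ)))
            ((B _).inv_mem hδ)
        · exact (B _).mul_mem ((B _).inv_mem (hn3 (hn2 hγ))) ((B _).inv_mem (hn3 hδ))
        · rw [← ht, hD1]; group
      · have hD3 : D = t * (β * (γ⁻¹ * (σ n * sgn ε t * (σ n)⁻¹) * γ) * (γ'⁻¹ * s' * γ')) * t⁻¹ := by
          rw [← hD2]; group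
        refine Up.stab' (n := n+1) (η := (σ n)⁻¹ * γ * (γ'⁻¹ * s' * γ') * γ'⁻¹ * δ'⁻¹)
          (ζ := t * γ'⁻¹ * δ'⁻¹) ε hYm ?_ ?_ ?_
        · exact (B _).mul_mem ((B _).mul_mem ((B _).mul_mem ((B _).mul_mem ((B _).inv_mem hσ)
            (hn2 hγ)) ((B _).mul_mem ((B _).mul_mem ((B _).inv_mem (hn2 hγ')) hsm') (hn2 hγ')))
            ((B _).inv_mem (hn2 hγ'))) ((B _).inv_mem hδ')
        · exact (B _).mul_mem ((B _).mul_mem htm ((B _).inv_mem (hn3 (hn2 hγ'))))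
            ((B _).inv_mem (hn3 hδ'))
        · rw [← ht, hD3]; group

/-- Isotopic closed braids have a common stabilisation. -/
theorem common_stab {K L : Rep} (h : Isotopic K L) :
    ∃ D, Relation.ReflTransGen Up K D ∧ Relation.ReflTransGen Up L D := by
  have heq := Relation.equivalence_join_reflTransGen diamond
  have : Relation.Join (Relation.ReflTransGen Up) K L := by
    induction h with
    | rel _ _ h => exact ⟨_, Relation.ReflTransGen.single (up_of_markov h), Relation.ReflTransGen.refl⟩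
    | refl _ => exact heq.refl _
    | symm _ _ _ ih => exact heq.symm ih
    | trans _ _ _ _ _ ih1 ih2 => exact heq.trans ih1 ih2
  exact this

end Pool.Agent.Lib.MP_177a0e_gt
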