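import Pool.Agent.Lib.MP_177a0e_gt.Track

/-!
# Isotopies of coloured closed braids

A coloured closed braid is a closed braid with a map from the strings which is constant on the components.
-/

namespace Pool.Agent.Lib.MP_177a0e_gt

open Equiv

/-- a closed braid with a map from the strings -/
abbrev Col : Type := Rep × (ℕ → ℕ)

/-- constant on the components -/
def Ok (X : Col) : Prop := ∀ x, X.2 (perm X.1.2 x) = X.2 x

/-- a move of coloured closed braids -/
def CUp (X Y : Col) : Prop := Ok X ∧ Ok Y ∧ ∃ τ, TUp X.1 Y.1 τ ∧ ∀ x < X.1.1, Y.2 (τ x) = X.2 x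

lemma cdiamond (A X Y : Col) (h1 : CUp A X) (h2 : CUp A Y) :
    ∃ Z, Relation.ReflGen CUp X Z ∧ Relation.ReflTransGen CUp Y Z := by
  obtain ⟨hA, hX, τ, t1, c1⟩ := h1
  obtain ⟨-, hY, τ', t2, c2⟩ := h2
  obtain ⟨Z, υ, υ', u1, u2, hu⟩ := tdiamond t1 t2
  obtain ⟨h, h3, h4⟩ := tup_push u1 hX
  refine ⟨(Z, h), Relation.ReflGen.single ⟨hX, h3, υ, u1, h4⟩,
    Relation.ReflTransGen.single ⟨hY, h3, υ', u2, fun y hy => ?_⟩⟩
  obtain ⟨x, hx, hxy⟩ := tup_cover t2 hy
  have e1 : Y.2 (τ' x) = Y.2 y := inv_cyc hY hxy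
  have e2 : h (υ' (τ' x)) = h (υ' y) := inv_cyc h3 (tup_cyc u2 hxy)
  rw [← e1, c2 x hx, ← c1 x hx]
  dsimp only
  rw [← e2, ← hu x hx, h4 _ (tup_lt t1 hx)]

/-- isotopic as coloured closed braids -/
def CIso : Col → Col → Prop := Relation.Join (Relation.ReflTransGen CUp)

lemma ciso_equiv : Equivalence CIso := Relation.equivalence_join_reflTransGen cdiamond

lemma CIso.refl (X : Col) : CIso X X := ciso_equiv.refl X
lemma CIso.symm {X Y : Col} (h : CIso X Y) : CIso Y X := ciso_equiv.symm h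
lemma CIso.trans {X Y Z : Col} (h : CIso X Y) (h' : CIso Y Z) : CIso X Z := ciso_equiv.trans h h'
lemma CUp.iso {X Y : Col} (h : CUp X Y) : CIso X Y := ⟨Y, Relation.ReflTransGen.single h, Relation.ReflTransGen.refl⟩

/-- isotopies carry colourings in both directions -/
lemma ciso_of_iso {K L : Rep} (h : Isotopic K L) :
    (∀ f : ℕ → ℕ, Ok (K, f) → ∃ g : ℕ → ℕ, Ok (L, g) ∧ CIso (K, f) (L, g)) ∧
    (∀ g : ℕ → ℕ, Ok (L, g) → ∃ f : ℕ → ℕ, Ok (K, f) ∧ CIso (K, f) (L, g)) := by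
  induction h with
  | rel K L h =>
    obtain ⟨τ, hτ⟩ := tup_of_up (up_of_markov h)
    constructor
    · intro f hf
      obtain ⟨g, h1, h2⟩ := tup_push hτ hf
      exact ⟨g, h1, CUp.iso ⟨hf, h1, τ, hτ, h2⟩⟩
    · intro g hg
      have h1 : Ok (K, fun x => g (τ x)) := tup_pull hτ hg
      exact ⟨_, h1, CUp.iso ⟨h1, hg, τ, hτ, fun x _ => rfl⟩⟩
  | refl K => exact ⟨fun f hf => ⟨f, hf, CIso.refl _⟩, fun f hf => ⟨f, hf, CIso.refl _⟩⟩
  | symm K L _ ih =>
    constructor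
    · intro f hf
      obtain ⟨g, h1, h2⟩ := ih.2 f hf
      exact ⟨g, h1, h2.symm⟩
    · intro f hf
      obtain ⟨g, h1, h2⟩ := ih.1 f hf
      exact ⟨g, h1, h2.symm⟩
  | trans K L M _ _ ih1 ih2 =>
    constructor
    · intro f hf
      obtain ⟨g, h1, h2⟩ := ih1.1 f hf
      obtain ⟨h, h3, h4⟩ := ih2.1 g h1
      exact ⟨h, h3, h2.trans h4⟩
    · intro f hf
      obtain ⟨g, h1, h2⟩ := ih2.2 f hf
      obtain ⟨h, h3, h4⟩ := ih1.2 g h1
      exact ⟨h, h3, h4.trans h2⟩

/-! ### One more circle -/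

/-- one more circle, of the colour `a` -/
def csucc (X : Col) (a : ℕ) : Col := ((X.1.1 + 1, X.1.2), Function.update X.2 X.1.1 a)

lemma ok_succ {X : Col} (hX : Ok X) (hm : X.1.2 ∈ B X.1.1) (a : ℕ) : Ok (csucc X a) := by
  intro x
  have h1 := perm_below hm
  unfold csucc
  dsimp only
  by_cases hx : x < X.1.1
  · have h2 := h1.lt hx
    rw [Function.update_of_ne (by omega), Function.update_of_ne (by omega)]
    exact hX x
  · rw [h1 x (by omega)]

lemma tup_succ {K L : Rep} {τ : Perm ℕ} (h : TUp K L τ) :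
    ∃ υ, TUp (K.1 + 1, K.2) (L.1 + 1, L.2) υ ∧ (∀ x < K.1, υ x = τ x) ∧ υ K.1 = L.1 := by
  cases h with
  | @conj n β γ hβ hγ =>
    exact ⟨perm γ, TUp.conj (B_mono (by omega) hβ) (B_mono (by omega) hγ), fun _ _ => rfl,
      perm_below hγ n (le_refl _)⟩
  | @stab n β γ δ ε hβ hγ hδ =>
    have hσ : σ n ∈ B (n+2) := σ_mem (by omega)
    have ht : σ (n+1) ∈ B (n+3) := σ_mem (by omega)
    have h1 := TUp.stab (n := n+1) (β := β) (γ := (σ n)⁻¹ * γ) (δ := δ * (σ (n+1) * σ n)) ε (B_mono (by omega) hβ)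
      ((B _).mul_mem ((B _).inv_mem hσ) (B_mono (by omega) hγ))
      ((B _).mul_mem (B_mono (by omega) hδ) ((B _).mul_mem ht (B_mono (by omega) hσ)))
    have hb : γ * β * γ⁻¹ ∈ B (n+1) := (B _).mul_mem ((B _).mul_mem hγ hβ) ((B _).inv_mem hγ)
    have eβ : Commute (σ (n+1)) (γ * β * γ⁻¹) := σ_comm_B (by omega) hb
    have e1 : δ * (σ (n+1) * σ n) * ((σ n)⁻¹ * γ * β * ((σ n)⁻¹ * γ)⁻¹ * sgn ε (σ (n+1))) *
        (δ * (σ (n+1) * σ n))⁻¹ = δ * (γ * β * γ⁻¹ * sgn ε (σ n)) * δ⁻¹ := by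
      have h2 : σ n * sgn ε (σ (n+1)) * (σ n)⁻¹ = (σ (n+1))⁻¹ * sgn ε (σ n) * σ (n+1) := (conj_rel2 n ε).symm
      have h3 : σ (n+1) * (γ * β * γ⁻¹) * (σ (n+1))⁻¹ = γ * β * γ⁻¹ := by rw [eβ.eq, mul_inv_cancel_right]
      calc _ = δ * (σ (n+1) * (γ * β * γ⁻¹) * (σ n * sgn ε (σ (n+1)) * (σ n)⁻¹) * (σ (n+1))⁻¹) * δ⁻¹ := by
            generalize sgn ε (σ (n+1)) = z
            group
        _ = δ * (σ (n+1) * (γ * β * γ⁻¹) * (σ (n+1))⁻¹ * sgn ε (σ n)) * δ⁻¹ := by
            rw [h2]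
            generalize sgn ε (σ n) = z
            group
        _ = _ := by rw [h3]
    refine ⟨perm (δ * (σ (n+1) * σ n) * ((σ n)⁻¹ * γ)), ?_, ?_, ?_⟩
    · dsimp only
      rw [← e1]
      exact h1
    · intro x hx
      dsimp only at hx
      have h2 : perm γ x < n + 1 := (perm_below hγ).lt hx
      have e2 : δ * (σ (n+1) * σ n) * ((σ n)⁻¹ * γ) = δ * σ (n+1) * γ := by group
      rw [e2, map_mul, map_mul, map_mul, perm_σ]
      simp only [Perm.mul_apply]
      rw [Equiv.swap_apply_of_ne_of_ne (by omega) (by omega)]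
    · have h2 : perm γ (n+1) = n + 1 := perm_below hγ (n+1) (le_refl _)
      have e2 : δ * (σ (n+1) * σ n) * ((σ n)⁻¹ * γ) = δ * σ (n+1) * γ := by group
      dsimp only
      rw [e2, map_mul, map_mul, perm_σ]
      simp only [Perm.mul_apply]
      rw [h2, Equiv.swap_apply_left]
      exact perm_below hδ (n+2) (le_refl _)

lemma cup_succ {X Y : Col} (h : CUp X Y) (a : ℕ) : CUp (csucc X a) (csucc Y a) := by
  obtain ⟨h1, h2, τ, h3, h4⟩ := h
  have h5 := tup_mem h3
  obtain ⟨υ, h6, h7, h8⟩ := tup_succ h3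
  refine ⟨ok_succ h1 h5.1 a, ok_succ h2 h5.2 a, υ, h6, fun x hx => ?_⟩
  unfold csucc at hx ⊢
  dsimp only at hx ⊢
  by_cases h9 : x < X.1.1
  · have h10 := tup_lt h3 h9
    rw [h7 x h9, Function.update_of_ne (by omega), Function.update_of_ne (by omega)]
    exact h4 x h9
  · have h10 : x = X.1.1 := by omega
    rw [h10, h8, Function.update_self, Function.update_self]

lemma ciso_succ {X Y : Col} (h : CIso X Y) (a : ℕ) : CIso (csucc X a) (csucc Y a) := by
  obtain ⟨Z, h1, h2⟩ := h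
  exact ⟨csucc Z a, h1.lift (fun X => csucc X a) (fun _ _ h => cup_succ h a),
    h2.lift (fun X => csucc X a) (fun _ _ h => cup_succ h a)⟩

/-- more circles, with a list of colours -/
def ext (X : Col) : List ℕ → Col
  | [] => X
  | a :: l => csucc (ext X l) a

lemma ext_fst (X : Col) (l : List ℕ) : (ext X l).1 = unlinked X.1 l.length := by
  induction l with
  | nil => rfl
  | cons a l ih =>
    show ((ext X l).1.1 + 1, (ext X l).1.2) = _
    rw [ih]
    rfl

lemma ext_append (X : Col) (l l' : List ℕ) : ext X (l ++ l') = ext (ext X l') l := by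
  induction l with
  | nil => rfl
  | cons a l ih =>
    show csucc (ext X (l ++ l')) a = csucc (ext (ext X l') l) a
    rw [ih]

lemma ext_ok {X : Col} (hX : Ok X) (hm : X.1.2 ∈ B X.1.1) (l : List ℕ) :
    Ok (ext X l) ∧ (ext X l).1.2 ∈ B (ext X l).1.1 := by
  induction l with
  | nil => exact ⟨hX, hm⟩
  | cons a l ih => exact ⟨ok_succ ih.1 ih.2 a, B_mono (by simp [ext, csucc]) ih.2⟩

lemma ciso_ext {X Y : Col} (h : CIso X Y) (l : List ℕ) : CIso (ext X l) (ext Y l) := by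
  induction l with
  | nil => exact h
  | cons a l ih => exact ciso_succ ih a

/-- the order of the circles does not matter -/
lemma ext_perm {X : Col} (hX : Ok X) (hm : X.1.2 ∈ B X.1.1) {l l' : List ℕ} (h : l.Perm l') :
    CIso (ext X l) (ext X l') := by
  induction h with
  | nil => exact CIso.refl _
  | cons a _ ih => exact ciso_succ ih a
  | swap a b l =>
    obtain ⟨h1, h2⟩ := ext_ok hX hm l
    show CIso (csucc (csucc (ext X l) a) b) (csucc (csucc (ext X l) b) a)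
    generalize ext X l = Y at h1 h2
    obtain ⟨⟨n, β⟩, f⟩ := Y
    dsimp only at h2
    have hb : β ∈ B (n + 2) := B_mono (by omega) h2
    have h3 : σ n * β * (σ n)⁻¹ = β := by
      rw [(σ_comm_B (le_refl n) h2).eq, mul_inv_cancel_right]
    have h4 : ∀ c, (csucc ((n, β), f) c).1.2 ∈ B (csucc ((n, β), f) c).1.1 :=
      fun c => B_mono (Nat.le_succ n) h2
    refine CUp.iso ⟨ok_succ (ok_succ h1 h2 a) (h4 a) b, ok_succ (ok_succ h1 h2 b) (h4 b) a, perm (σ n), ?_, ?_⟩
    · have h5 := TUp.conj hb (σ_mem (by omega : n + 1 < n + 2))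
      rw [h3] at h5
      exact h5
    · intro x hx
      unfold csucc at hx ⊢
      dsimp only at hx ⊢
      rw [perm_σ]
      by_cases h6 : x = n
      · rw [h6, Equiv.swap_apply_left, Function.update_self, Function.update_of_ne (by omega),
          Function.update_self]
      · by_cases h7 : x = n + 1
        · rw [h7, Equiv.swap_apply_right, Function.update_self, Function.update_of_ne (by omega),
            Function.update_self]
        · rw [Equiv.swap_apply_of_ne_of_ne h6 h7, Function.update_of_ne h7, Function.update_of_ne h6,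
            Function.update_of_ne h7, Function.update_of_ne h6]
  | trans _ _ ih1 ih2 => exact ih1.trans ih2

/-! ### Colours are kept -/

lemma cup_colour {X Y : Col} (h : CUp X Y) (a : ℕ) :
    (∃ x < X.1.1, X.2 x = a) ↔ (∃ y < Y.1.1, Y.2 y = a) := by
  obtain ⟨h1, h2, τ, h3, h4⟩ := h
  constructor
  · rintro ⟨x, hx, rfl⟩
    exact ⟨τ x, tup_lt h3 hx, h4 x hx⟩
  · rintro ⟨y, hy, rfl⟩
    obtain ⟨x, hx, hxy⟩ := tup_cover h3 hy
    exact ⟨x, hx, by rw [← h4 x hx]; exact inv_cyc h2 hxy⟩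

lemma cups_colour {X Y : Col} (h : Relation.ReflTransGen CUp X Y) (a : ℕ) :
    (∃ x < X.1.1, X.2 x = a) ↔ (∃ y < Y.1.1, Y.2 y = a) := by
  induction h with
  | refl => exact Iff.rfl
  | tail _ h ih => exact ih.trans (cup_colour h a)

lemma ciso_colour {X Y : Col} (h : CIso X Y) (a : ℕ) :
    (∃ x < X.1.1, X.2 x = a) ↔ (∃ y < Y.1.1, Y.2 y = a) := by
  obtain ⟨Z, h1, h2⟩ := h
  exact (cups_colour h1 a).trans (cups_colour h2 a).symm

/-! ### Bands are carried along -/

/-- the strings with colours in `S` are joined by the bands -/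
def Conn (X : Col) (cs : List Braid) (S : Set ℕ) : Prop :=
  ∀ x y, x < X.1.1 → y < X.1.1 → X.2 x ∈ S → X.2 y ∈ S → Joined (X.1.2 :: cs) x y

lemma joined_cyc {β : Braid} {cs : List Braid} {x y : ℕ} (h : cyc (perm β) x y) : Joined (β :: cs) x y :=
  sameCycle_le _ (fun z => joined_step List.mem_cons_self z) h

lemma tup_transport {K L : Rep} {τ : Perm ℕ} (h : TUp K L τ) :
    ∃ η ∈ B L.1, (∀ x < K.1, cyc (perm L.2) (τ x) (perm η x)) ∧ ∀ cs : List Braid, (∀ c ∈ cs, IsBand K.1 c) →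
      (∀ c ∈ cs.map (fun b => η * b * η⁻¹), IsBand L.1 c) ∧
      Up (K.1, K.2 * cs.prod) (L.1, L.2 * (cs.map (fun b => η * b * η⁻¹)).prod) := by
  cases h with
  | @conj n β γ hβ hγ =>
    refine ⟨γ, hγ, fun x _ => (cyc _).refl _, fun cs hcs => ⟨bands_map_conj hγ hcs, ?_⟩⟩
    have := Up.conj ((B n).mul_mem hβ (prod_mem hcs)) hγ
    convert this using 2
    show γ * β * γ⁻¹ * (cs.map (fun b => γ * b * γ⁻¹)).prod = _
    rw [prod_map_conj]; group
  | @stab n β γ δ ε hβ hγ hδ =>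
    have hs : sgn ε (σ n) ∈ B (n+2) := sgn_mem (σ_mem (by omega))
    have hη : δ * (sgn ε (σ n))⁻¹ * γ ∈ B (n+2) :=
      (B _).mul_mem ((B _).mul_mem hδ ((B _).inv_mem hs)) (B_mono (by omega) hγ)
    refine ⟨δ * (sgn ε (σ n))⁻¹ * γ, hη, fun x hx => ?_,
      fun cs hcs => ⟨bands_map_conj hη (bands_mono (by simp) hcs), ?_⟩⟩
    · dsimp only at hx ⊢
      have h3 : perm γ x < n + 1 := (perm_below hγ).lt hx
      have e1 : perm (δ * γ) x = perm δ (perm γ x) := by rw [map_mul, Perm.mul_apply]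
      have e2 : perm (δ * (sgn ε (σ n))⁻¹ * γ) x = perm δ (Equiv.swap n (n+1) (perm γ x)) := by
        rw [map_mul, map_mul, map_inv, perm_sgn, Equiv.swap_inv]
        rfl
      rw [e1, e2]
      by_cases h4 : perm γ x = n
      · have h2 := stab_perm (δ := δ) ε hβ hγ n
        rw [if_pos rfl] at h2
        rw [h4, Equiv.swap_apply_left, ← h2]
        exact cyc_step _ _
      · rw [Equiv.swap_apply_of_ne_of_ne h4 (by omega)]
    · have := Up.stab ε ((B _).mul_mem hβ (prod_mem hcs)) hγ hδ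
      convert this using 2
      show δ * (γ * β * γ⁻¹ * sgn ε (σ n)) * δ⁻¹ *
        (cs.map (fun b => (δ * (sgn ε (σ n))⁻¹ * γ) * b * (δ * (sgn ε (σ n))⁻¹ * γ)⁻¹)).prod = _
      rw [prod_map_conj]; group

lemma cup_transport {X Y : Col} (h : CUp X Y) {cs : List Braid} (hcs : ∀ c ∈ cs, IsBand X.1.1 c) {S : Set ℕ}
    (hS : Conn X cs S) :
    ∃ cs' : List Braid, (∀ c ∈ cs', IsBand Y.1.1 c) ∧ cs'.length = cs.length ∧
      Up (X.1.1, X.1.2 * cs.prod) (Y.1.1, Y.1.2 * cs'.prod) ∧ Conn Y cs' S := by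
  obtain ⟨h1, h2, τ, h3, h4⟩ := h
  obtain ⟨η, h5, h6, h7⟩ := tup_transport h3
  refine ⟨cs.map (fun b => η * b * η⁻¹), (h7 cs hcs).1, by simp, (h7 cs hcs).2, ?_⟩
  have key : ∀ x y, Joined (X.1.2 :: cs) x y →
      Joined (Y.1.2 :: cs.map (fun b => η * b * η⁻¹)) (τ x) (τ y) := by
    intro x y hxy
    refine joined_le ((Joined (Y.1.2 :: cs.map (fun b => η * b * η⁻¹))).comap τ) ?_ hxy
    intro b hb z
    rw [List.mem_cons] at hb
    rcases hb with rfl | hb
    · exact joined_cyc (tup_step h3 z)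
    · show Joined (Y.1.2 :: cs.map (fun b => η * b * η⁻¹)) (τ z) (τ (perm b z))
      have h8 := perm_below (hcs b hb).mem
      by_cases hz : z < X.1.1
      · have h9 := h8.lt hz
        have h10 : Joined (Y.1.2 :: cs.map (fun b => η * b * η⁻¹)) (perm η z) (perm η (perm b z)) := by
          have e : perm η (perm b z) = perm (η * b * η⁻¹) (perm η z) := by
            rw [map_mul, map_mul, map_inv]
            simp only [Perm.mul_apply, inv_self]
          rw [e]
          exact joined_step (List.mem_cons_of_mem _ (List.mem_map.2 ⟨b, hb, rfl⟩)) _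
        exact (Joined _).trans ((Joined _).trans (joined_cyc (h6 z hz)) h10) ((Joined _).symm (joined_cyc (h6 _ h9)))
      · rw [h8 z (by omega)]
  intro z w hz hw hz' hw'
  obtain ⟨x, hx, hxz⟩ := tup_cover h3 hz
  obtain ⟨y, hy, hyw⟩ := tup_cover h3 hw
  have e1 : X.2 x = Y.2 z := by rw [← h4 x hx]; exact inv_cyc h2 hxz
  have e2 : X.2 y = Y.2 w := by rw [← h4 y hy]; exact inv_cyc h2 hyw
  have h8 := hS x y hx hy (by rw [e1]; exact hz') (by rw [e2]; exact hw')
  exact (Joined _).trans ((Joined _).symm (joined_cyc hxz)) ((Joined _).trans (key x y h8) (joined_cyc hyw))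

lemma cups_transport {X Y : Col} (h : Relation.ReflTransGen CUp X Y) {cs : List Braid}
    (hcs : ∀ c ∈ cs, IsBand X.1.1 c) {S : Set ℕ} (hS : Conn X cs S) :
    ∃ cs' : List Braid, (∀ c ∈ cs', IsBand Y.1.1 c) ∧ cs'.length = cs.length ∧
      Relation.ReflTransGen Up (X.1.1, X.1.2 * cs.prod) (Y.1.1, Y.1.2 * cs'.prod) ∧ Conn Y cs' S := by
  induction h with
  | refl => exact ⟨cs, hcs, rfl, Relation.ReflTransGen.refl, hS⟩
  | tail _ h2 ih =>
    obtain ⟨cs1, h11, h12, h13, h14⟩ := ih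
    obtain ⟨cs2, h21, h22, h23, h24⟩ := cup_transport h2 h11 h14
    exact ⟨cs2, h21, h22.trans h12, h13.tail h23, h24⟩

lemma cups_iso {X Y : Col} (h : Relation.ReflTransGen CUp X Y) : Isotopic X.1 Y.1 := by
  induction h with
  | refl => exact Isotopic.refl _
  | tail _ h ih =>
    obtain ⟨-, -, τ, h3, -⟩ := h
    have h4 : ∀ {K L : Rep} {τ : Perm ℕ}, TUp K L τ → Isotopic K L := by
      intro K L τ h
      cases h with
      | conj hβ hγ => exact iso_of_up (Up.conj hβ hγ)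
      | stab ε hβ hγ hδ => exact iso_of_up (Up.stab ε hβ hγ hδ)
    exact ih.trans (h4 h3)

end Pool.Agent.Lib.MP_177a0e_gt
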