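import Mathlib

/-!
Counting the cycles of permutations of `{0, …, n-1}` and the effect of transpositions.
-/

namespace Pool.Agent.Lib.MP_177a0e_gt

open Equiv

/-! ### A counting lemma for setoids -/

/-- If `S'` is obtained from `S` by identifying two different classes, it has one class less. -/
theorem card_quotient_merge {X : Type*} [Finite X] (S S' : Setoid X) (a b : X)
    (h1 : ∀ x y, S x y → S' x y) (h2 : S' a b) (h3 : ¬ S a b)
    (h4 : ∀ x y, S' x y → S x y ∨ (S x a ∧ S y b) ∨ (S x b ∧ S y a)) :
    Nat.card (Quotient S) = Nat.card (Quotient S') + 1 := by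
  classical
  haveI : Fintype X := Fintype.ofFinite X
  haveI : Fintype (Quotient S) := Fintype.ofFinite _
  haveI : Fintype (Quotient S') := Fintype.ofFinite _
  let f : {q : Quotient S // q ≠ Quotient.mk S b} → Quotient S' :=
    fun q => Quotient.map' (s₁ := S) (s₂ := S') id (fun x y h => h1 x y h) q.1
  have hbij : Function.Bijective f := by
    constructor
    · rintro ⟨q, hq⟩ ⟨r, hr⟩ h
      induction q using Quotient.inductionOn with
      | h x =>
      induction r using Quotient.inductionOn with
      | h y =>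
      have hxy : S' x y := Quotient.exact (s := S') h
      apply Subtype.ext
      rcases h4 x y hxy with h | ⟨h5, h6⟩ | ⟨h5, h6⟩
      · exact Quotient.sound (s := S) h
      · exact absurd (Quotient.sound (s := S) h6) hr
      · exact absurd (Quotient.sound (s := S) h5) hq
    · intro q
      induction q using Quotient.inductionOn with
      | h x =>
      by_cases hx : Quotient.mk S x = Quotient.mk S b
      · have hxb : S x b := Quotient.exact (s := S) hx
        refine ⟨⟨Quotient.mk S a, fun h => h3 (Quotient.exact (s := S) h)⟩, ?_⟩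
        exact Quotient.sound (s := S') (S'.trans h2 (S'.symm (h1 _ _ hxb)))
      · exact ⟨⟨Quotient.mk S x, hx⟩, rfl⟩
  have hc := Nat.card_congr (Equiv.ofBijective f hbij)
  rw [← hc, Nat.card_eq_fintype_card, Nat.card_eq_fintype_card]
  have := Set.card_ne_eq (Quotient.mk S b)
  have hpos : 0 < Fintype.card (Quotient S) := Fintype.card_pos_iff.mpr ⟨Quotient.mk S b⟩
  have e : Fintype.card {q : Quotient S // q ≠ Quotient.mk S b} = Fintype.card (Quotient S) - 1 := by
    rw [← this]
    exact Fintype.card_congr (Equiv.refl _)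
  omega

/-! ### Cycles -/

/-- `π` moves only points smaller than `n`. -/
def Below (n : ℕ) (π : Perm ℕ) : Prop := ∀ i, n ≤ i → π i = i

lemma Below.one (n : ℕ) : Below n 1 := fun _ _ => rfl

lemma Below.mul {n : ℕ} {π ρ : Perm ℕ} (h1 : Below n π) (h2 : Below n ρ) : Below n (π * ρ) := by
  intro i hi
  rw [Perm.mul_apply, h2 i hi, h1 i hi]

lemma Below.inv {n : ℕ} {π : Perm ℕ} (h : Below n π) : Below n π⁻¹ := by
  intro i hi
  rw [Perm.inv_eq_iff_eq]
  exact (h i hi).symm

lemma Below.mono {n m : ℕ} {π : Perm ℕ} (h : Below n π) (hnm : n ≤ m) : Below m π :=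
  fun i hi => h i (hnm.trans hi)

lemma Below.lt {n : ℕ} {π : Perm ℕ} (h : Below n π) {i : ℕ} (hi : i < n) : π i < n := by
  by_contra hlt
  push Not at hlt
  have h1 := h _ hlt
  have := π.injective h1
  omega

lemma Below.swap {n a b : ℕ} (ha : a < n) (hb : b < n) : Below n (Equiv.swap a b) := by
  intro i hi
  exact Equiv.swap_apply_of_ne_of_ne (by omega) (by omega)

lemma Below.pow {n : ℕ} {π : Perm ℕ} (h : Below n π) (k : ℕ) : Below n (π ^ k) := by
  induction k with
  | zero => exact Below.one n
  | succ k ih => rw [pow_succ]; exact ih.mul h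

lemma Below.zpow {n : ℕ} {π : Perm ℕ} (h : Below n π) (k : ℤ) : Below n (π ^ k) := by
  cases k with
  | ofNat k => exact h.pow k
  | negSucc k => exact (h.pow (k+1)).inv

/-- every point is periodic -/
lemma Below.periodic {n : ℕ} {π : Perm ℕ} (h : Below n π) (b : ℕ) :
    ∃ r : ℕ, 0 < r ∧ (π ^ r) b = b := by
  by_cases hb : n ≤ b
  · exact ⟨1, one_pos, by rw [pow_one]; exact h b hb⟩
  · push Not at hb
    obtain ⟨k, l, hkl, heq⟩ := Finite.exists_ne_map_eq_of_infinite
      (fun k : ℕ => (⟨(π ^ k) b, (h.pow k).lt hb⟩ : Fin n))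
    have heq' : (π ^ k) b = (π ^ l) b := congrArg Fin.val heq
    rcases lt_or_gt_of_ne hkl with hlt | hlt
    · refine ⟨l - k, by omega, ?_⟩
      have : π ^ l = π ^ k * π ^ (l - k) := by rw [← pow_add]; congr 1; omega
      rw [this, Perm.mul_apply] at heq'
      exact ((π ^ k).injective heq').symm
    · refine ⟨k - l, by omega, ?_⟩
      have : π ^ k = π ^ l * π ^ (k - l) := by rw [← pow_add]; congr 1; omega
      rw [this, Perm.mul_apply] at heq'
      exact (π ^ l).injective heq'

/-- To bound the relation `SameCycle` it is enough to look at one step. -/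
lemma sameCycle_le {f : Perm ℕ} (T : Setoid ℕ) (h : ∀ x, T x (f x)) {x y : ℕ}
    (hxy : f.SameCycle x y) : T x y := by
  obtain ⟨k, rfl⟩ := hxy
  induction k using Int.induction_on with
  | zero => exact T.refl _
  | succ k ih =>
    have : (f ^ ((k : ℤ) + 1)) x = f ((f ^ (k : ℤ)) x) := by
      rw [add_comm, zpow_add, zpow_one, Perm.mul_apply]
    rw [this]
    exact T.trans ih (h _)
  | pred k ih =>
    have : (f ^ (-(k : ℤ))) x = f ((f ^ (-(k : ℤ) - 1)) x) := by
      rw [← Perm.mul_apply]
      congr 1
      rw [← zpow_one_add]; congr 1; ring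
    rw [this] at ih
    exact T.trans ih (T.symm (h _))

/-- The cycle relation as a setoid. -/
abbrev cyc (f : Perm ℕ) : Setoid ℕ := Perm.SameCycle.setoid f

lemma cyc_iff {f : Perm ℕ} {x y : ℕ} : cyc f x y ↔ f.SameCycle x y := Iff.rfl

lemma cyc_step (f : Perm ℕ) (x : ℕ) : cyc f x (f x) := by
  rw [cyc_iff]; exact (Perm.sameCycle_apply_right).mpr (Perm.SameCycle.refl f x)

section merge

variable {n a b : ℕ} {π : Perm ℕ}

lemma iterate_merge (hπ : Below n π) (hab : ¬ π.SameCycle a b) :
    (π * Equiv.swap a b).SameCycle a b := by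
  classical
  have hper := hπ.periodic b
  obtain ⟨hr0, hr⟩ := Nat.find_spec hper
  set r := Nat.find hper with hrdef
  have hmin : ∀ i, 0 < i → i < r → (π ^ i) b ≠ b := by
    intro i h0 hi heq
    exact Nat.find_min hper hi ⟨h0, heq⟩
  have hne : ∀ i : ℕ, (π ^ i) b ≠ a := by
    intro i heq
    apply hab
    exact Perm.SameCycle.symm ⟨i, by rw [zpow_natCast]; exact heq⟩
  have key : ∀ i, 1 ≤ i → i ≤ r → ((π * Equiv.swap a b) ^ i) a = (π ^ i) b := by
    intro i hi
    induction i, hi using Nat.le_induction with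
    | base => intro _; simp
    | succ i hi ih =>
      intro hir
      rw [pow_succ', Perm.mul_apply, ih (by omega), Perm.mul_apply,
        Equiv.swap_apply_of_ne_of_ne (hne i) (hmin i (by omega) (by omega)), pow_succ',
        Perm.mul_apply]
  exact ⟨r, by rw [zpow_natCast, key r (by omega) le_rfl, hr]⟩

lemma merge_step (hπ : Below n π) (hab : ¬ π.SameCycle a b) (x : ℕ) :
    cyc (π * Equiv.swap a b) x (π x) := by
  have hS := iterate_merge hπ hab
  have hS' : cyc (π * Equiv.swap a b) a b := hS
  have e : ∀ y, (π * Equiv.swap a b) y = π (Equiv.swap a b y) := fun y => rfl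
  by_cases hxa : x = a
  · subst hxa
    have := cyc_step (π * Equiv.swap x b) b
    rw [e, Equiv.swap_apply_right] at this
    exact (cyc _).trans hS' this
  · by_cases hxb : x = b
    · subst hxb
      have := cyc_step (π * Equiv.swap a x) a
      rw [e, Equiv.swap_apply_left] at this
      exact (cyc _).trans ((cyc _).symm hS') this
    · have := cyc_step (π * Equiv.swap a b) x
      rwa [e, Equiv.swap_apply_of_ne_of_ne hxa hxb] at this

lemma merge_le (hπ : Below n π) (hab : ¬ π.SameCycle a b) {x y : ℕ} (h : cyc π x y) :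
    cyc (π * Equiv.swap a b) x y :=
  sameCycle_le _ (merge_step hπ hab) h

/-- Multiplying by a transposition changes the cycle relation at most by joining. -/
lemma le_join (π : Perm ℕ) (a b : ℕ) {x y : ℕ} (h : cyc (π * Equiv.swap a b) x y) :
    cyc π x y ∨ ((cyc π x a ∨ cyc π x b) ∧ (cyc π y a ∨ cyc π y b)) := by
  let T : Setoid ℕ :=
    { r := fun x y => cyc π x y ∨ ((cyc π x a ∨ cyc π x b) ∧ (cyc π y a ∨ cyc π y b))
      iseqv := by
        refine ⟨fun x => Or.inl ((cyc π).refl x), ?_, ?_⟩
        · rintro x y (h | ⟨h1, h2⟩)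
          · exact Or.inl ((cyc π).symm h)
          · exact Or.inr ⟨h2, h1⟩
        · rintro x y z (h | ⟨h1, h2⟩) (h' | ⟨h1', h2'⟩)
          · exact Or.inl ((cyc π).trans h h')
          · refine Or.inr ⟨?_, h2'⟩
            rcases h1' with h1' | h1'
            · exact Or.inl ((cyc π).trans h h1')
            · exact Or.inr ((cyc π).trans h h1')
          · refine Or.inr ⟨h1, ?_⟩
            rcases h2 with h2 | h2
            · exact Or.inl ((cyc π).trans ((cyc π).symm h') h2)
            · exact Or.inr ((cyc π).trans ((cyc π).symm h') h2)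
          · exact Or.inr ⟨h1, h2'⟩ }
  have e : ∀ y, (π * Equiv.swap a b) y = π (Equiv.swap a b y) := fun y => rfl
  refine sameCycle_le T (fun x => ?_) h
  show cyc π x ((π * Equiv.swap a b) x) ∨ ((cyc π x a ∨ cyc π x b) ∧
    (cyc π ((π * Equiv.swap a b) x) a ∨ cyc π ((π * Equiv.swap a b) x) b))
  rw [e]
  by_cases hxa : x = a
  · subst hxa
    rw [Equiv.swap_apply_left]
    exact Or.inr ⟨Or.inl ((cyc π).refl _), Or.inr ((cyc π).symm (cyc_step π b))⟩
  · by_cases hxb : x = b
    · subst hxb
      rw [Equiv.swap_apply_right]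
      exact Or.inr ⟨Or.inr ((cyc π).refl _), Or.inl ((cyc π).symm (cyc_step π a))⟩
    · rw [Equiv.swap_apply_of_ne_of_ne hxa hxb]
      exact Or.inl (cyc_step π x)

/-- In the other case the cycle is split. -/
lemma split (hπ : Below n π) (hab : π.SameCycle a b) (hne : a ≠ b) :
    ¬ (π * Equiv.swap a b).SameCycle a b := by
  classical
  have hper := hπ.periodic b
  obtain ⟨hr0, hr⟩ := Nat.find_spec hper
  set r := Nat.find hper with hrdef
  have hmin : ∀ i, 0 < i → i < r → (π ^ i) b ≠ b := by
    intro i h0 hi heq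
    exact Nat.find_min hper hi ⟨h0, heq⟩
  -- an exponent taking `b` to `a`
  have hex : ∃ i : ℕ, i < r ∧ (π ^ i) b = a := by
    obtain ⟨k, hk⟩ := hab.symm
    have hrz : (r : ℤ) ≠ 0 := by omega
    refine ⟨(k % r).toNat, ?_, ?_⟩
    · have := Int.emod_lt_of_pos k (by omega : (0 : ℤ) < r)
      have := Int.emod_nonneg k hrz
      omega
    · have h1 : ((k % r).toNat : ℤ) = k % r := Int.toNat_of_nonneg (Int.emod_nonneg k hrz)
      have h2 : (π ^ ((k % r).toNat)) b = (π ^ (k % r)) b := by rw [← zpow_natCast, h1]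
      rw [h2]
      have h3 : (π ^ k) b = (π ^ (k % r)) ((π ^ (r * (k / r))) b) := by
        rw [← Perm.mul_apply, ← zpow_add, Int.emod_add_mul_ediv]
      have h4 : (π ^ ((r : ℤ) * (k / r))) b = b := by
        rw [zpow_mul]
        have : (π ^ (r : ℤ)) b = b := by rw [zpow_natCast]; exact hr
        exact Perm.zpow_apply_eq_self_of_apply_eq_self this _
      rw [h4] at h3
      rw [← h3, hk]
  obtain ⟨hi1, hi2⟩ := Nat.find_spec hex
  set i := Nat.find hex with hidef
  have hi0 : 0 < i := by
    rcases Nat.eq_zero_or_pos i with h | h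
    · rw [h, pow_zero] at hi2
      exact absurd hi2.symm hne
    · exact h
  have hmini : ∀ j, j < i → (π ^ j) b ≠ a := by
    intro j hj heq
    exact Nat.find_min hex hj ⟨by omega, heq⟩
  have key : ∀ j, 1 ≤ j → j ≤ i → ((π * Equiv.swap a b) ^ j) a = (π ^ j) b := by
    intro j hj
    induction j, hj using Nat.le_induction with
    | base => intro _; simp
    | succ j hj ih =>
      intro hji
      rw [pow_succ', Perm.mul_apply, ih (by omega), Perm.mul_apply,
        Equiv.swap_apply_of_ne_of_ne (hmini j (by omega)) (hmin j (by omega) (by omega)), pow_succ',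
        Perm.mul_apply]
  have hfix : ((π * Equiv.swap a b) ^ i) a = a := by rw [key i (by omega) le_rfl, hi2]
  rintro ⟨k, hk⟩
  have hiz : (i : ℤ) ≠ 0 := by omega
  have h1 : ((k % i).toNat : ℤ) = k % i := Int.toNat_of_nonneg (Int.emod_nonneg k hiz)
  have h2 : ((π * Equiv.swap a b) ^ ((k % i).toNat)) a = b := by
    rw [← zpow_natCast, h1]
    have h3 : ((π * Equiv.swap a b) ^ k) a =
        ((π * Equiv.swap a b) ^ (k % i)) (((π * Equiv.swap a b) ^ (i * (k / i))) a) := by
      rw [← Perm.mul_apply, ← zpow_add, Int.emod_add_mul_ediv]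
    have h4 : ((π * Equiv.swap a b) ^ ((i : ℤ) * (k / i))) a = a := by
      rw [zpow_mul]
      have : ((π * Equiv.swap a b) ^ (i : ℤ)) a = a := by rw [zpow_natCast]; exact hfix
      exact Perm.zpow_apply_eq_self_of_apply_eq_self this _
    rw [h4] at h3
    rw [← h3, hk]
  have h5 : (k % i).toNat < i := by
    have := Int.emod_lt_of_pos k (by omega : (0 : ℤ) < i)
    have := Int.emod_nonneg k hiz
    omega
  rcases Nat.eq_zero_or_pos (k % i).toNat with h6 | h6
  · rw [h6, pow_zero] at h2
    exact hne h2
  · rw [key _ h6 h5.le] at h2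
    exact hmin _ h6 (by omega) h2

end merge

/-- The number of cycles of `π` on `{0, …, n-1}` (fixed points included). -/
noncomputable def comps (n : ℕ) (π : Perm ℕ) : ℕ :=
  Nat.card (Quotient ((cyc π).comap (fun i : Fin n => (i : ℕ))))

theorem comps_merge {n a b : ℕ} {π : Perm ℕ} (hπ : Below n π) (ha : a < n) (hb : b < n)
    (hab : ¬ π.SameCycle a b) : comps n π = comps n (π * Equiv.swap a b) + 1 := by
  unfold comps
  apply card_quotient_merge _ _ (⟨a, ha⟩ : Fin n) ⟨b, hb⟩
  · intro x y h
    exact merge_le hπ hab h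
  · exact iterate_merge hπ hab
  · exact hab
  · intro x y h
    rcases le_join π a b h with h1 | ⟨h1 | h1, h2 | h2⟩
    · exact Or.inl h1
    · exact Or.inl ((cyc π).trans h1 ((cyc π).symm h2))
    · exact Or.inr (Or.inl ⟨h1, h2⟩)
    · exact Or.inr (Or.inr ⟨h1, h2⟩)
    · exact Or.inl ((cyc π).trans h1 ((cyc π).symm h2))

theorem comps_split {n a b : ℕ} {π : Perm ℕ} (hπ : Below n π) (ha : a < n) (hb : b < n)
    (hne : a ≠ b) (hab : π.SameCycle a b) : comps n (π * Equiv.swap a b) = comps n π + 1 := by
  have h1 := comps_merge (hπ.mul (Below.swap ha hb)) ha hb (split hπ hab hne)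
  rwa [mul_assoc, Equiv.swap_mul_self, mul_one] at h1

lemma comps_one (n : ℕ) : comps n 1 = n := by
  unfold comps
  have : Function.Bijective (Quotient.mk ((cyc 1).comap (fun i : Fin n => (i : ℕ)))) := by
    refine ⟨fun x y h => ?_, Quotient.mk_surjective⟩
    have := Quotient.exact h
    have h2 : (1 : Perm ℕ).SameCycle (x : ℕ) y := this
    rw [Perm.sameCycle_one] at h2
    exact Fin.ext h2
  rw [← Nat.card_congr (Equiv.ofBijective _ this)]
  simp

/-- conjugation does not change the number of cycles -/
lemma comps_conj {n : ℕ} {π ρ : Perm ℕ} (hρ : Below n ρ) :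
    comps n (ρ * π * ρ⁻¹) = comps n π := by
  unfold comps
  symm
  let e : Fin n ≃ Fin n :=
    { toFun := fun i => ⟨ρ i, hρ.lt i.2⟩
      invFun := fun i => ⟨ρ⁻¹ i, hρ.inv.lt i.2⟩
      left_inv := fun i => Fin.ext (by simp)
      right_inv := fun i => Fin.ext (by simp) }
  apply Nat.card_congr
  refine Quotient.congr e ?_
  intro x y
  show π.SameCycle (x : ℕ) y ↔ (ρ * π * ρ⁻¹).SameCycle (ρ x) (ρ y)
  rw [Perm.sameCycle_conj]
  simp

/-- adding a fixed point -/
lemma comps_succ {n : ℕ} {π : Perm ℕ} (hπ : Below n π) : comps (n+1) π = comps n π + 1 := by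
  unfold comps
  have hfix : ∀ x : ℕ, x < n → ¬ π.SameCycle x n := by
    rintro x hx ⟨k, hk⟩
    have := (hπ.zpow k).lt hx
    omega
  rw [← Finite.card_option]
  symm
  apply Nat.card_congr
  let f : Option (Quotient ((cyc π).comap (fun i : Fin n => (i : ℕ)))) →
      Quotient ((cyc π).comap (fun i : Fin (n+1) => (i : ℕ))) :=
    fun o => match o with
      | none => Quotient.mk _ (Fin.last n)
      | some q => Quotient.map' (s₁ := (cyc π).comap (fun i : Fin n => (i : ℕ)))
          (s₂ := (cyc π).comap (fun i : Fin (n+1) => (i : ℕ))) Fin.castSucc (fun x y h => h) q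
  apply Equiv.ofBijective f
  constructor
  · rintro (_ | q) (_ | r) h
    · rfl
    · induction r using Quotient.inductionOn with
      | h y =>
      have := Quotient.exact h
      exact absurd ((cyc π).symm this) (hfix y y.2)
    · induction q using Quotient.inductionOn with
      | h x =>
      have := Quotient.exact h
      exact absurd this (hfix x x.2)
    · induction q using Quotient.inductionOn with
      | h x =>
      induction r using Quotient.inductionOn with
      | h y =>
      have := Quotient.exact h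
      congr 1
      exact Quotient.sound this
  · intro q
    induction q using Quotient.inductionOn with
    | h x =>
    rcases Fin.eq_castSucc_or_eq_last x with ⟨y, rfl⟩ | rfl
    · exact ⟨some (Quotient.mk _ y), rfl⟩
    · exact ⟨none, rfl⟩

lemma comps_add {n : ℕ} {π : Perm ℕ} (hπ : Below n π) (m : ℕ) :
    comps (n+m) π = comps n π + m := by
  induction m with
  | zero => rfl
  | succ m ih => rw [← add_assoc, comps_succ (hπ.mono (by omega)), ih, add_assoc]

/-- exactly one cycle: all points are in the same cycle -/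
lemma sameCycle_of_comps {n : ℕ} {π : Perm ℕ} (h : comps n π = 1) {x y : ℕ} (hx : x < n)
    (hy : y < n) : π.SameCycle x y := by
  unfold comps at h
  rw [Nat.card_eq_one_iff_unique] at h
  obtain ⟨⟨h⟩, _⟩ := h
  have := h (Quotient.mk _ (⟨x, hx⟩ : Fin n)) (Quotient.mk _ ⟨y, hy⟩)
  exact Quotient.exact this

lemma comps_le_one {n : ℕ} {π : Perm ℕ} (h : ∀ x y, x < n → y < n → π.SameCycle x y) :
    comps n π ≤ 1 := by
  unfold comps
  rw [Finite.card_le_one_iff_subsingleton]
  constructor
  intro q r
  induction q using Quotient.inductionOn with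
  | h x =>
  induction r using Quotient.inductionOn with
  | h y => exact Quotient.sound (h x y x.2 y.2)

end Pool.Agent.Lib.MP_177a0e_gt
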