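import Pool.Agent.Lib.MP_177a0e_gt.Cycles

/-!
Knots as closed braids, surfaces in the 4-ball as braided (band) surfaces.

* Links in the 3-sphere are represented by closed braids (Alexander), and two closed braids
  represent the same link if and only if they are related by conjugation and (de)stabilisation
  (Markov).
* A ribbon surface is represented by `n` disks and `k` half-twisted bands, i.e. by a list of `k`
  conjugates of standard generators and their inverses in the braid group on `n` strings; its
  boundary is the closure of the product (Rudolph: every ribbon surface is isotopic to one of this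
  form), and its Euler characteristic is `n - k`.
* A surface with `m` local maxima bounded by `K` is, in normal form, a ribbon surface bounded by
  the split union of `K` with an unlink of `m` components, together with `m` disks capping off the
  unlink.
-/

namespace Pool.Agent.Lib.MP_177a0e_gt

open Equiv

/-- Artin's relations between the generators `σ 0, σ 1, …`. -/
def artinRels : Set (FreeGroup ℕ) :=
  {r | ∃ i j : ℕ, i + 2 ≤ j ∧
    r = FreeGroup.of i * FreeGroup.of j * (FreeGroup.of i)⁻¹ * (FreeGroup.of j)⁻¹} ∪
  {r | ∃ i : ℕ, r = FreeGroup.of i * FreeGroup.of (i+1) * FreeGroup.of i *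
    (FreeGroup.of (i+1) * FreeGroup.of i * FreeGroup.of (i+1))⁻¹}

/-- The braid group on infinitely many strings (the union of the braid groups `B n`). -/
abbrev Braid : Type := PresentedGroup artinRels

/-- The standard generator exchanging the strings `i` and `i + 1` (strings are numbered from `0`). -/
def σ (i : ℕ) : Braid := PresentedGroup.of i

/-- The braid group on the `n` strings `0, …, n-1`: generated by the `σ i` with `i + 1 < n`. -/
def B (n : ℕ) : Subgroup Braid := Subgroup.closure {g | ∃ i : ℕ, i + 1 < n ∧ g = σ i}

lemma swap_rels : ∀ r ∈ artinRels, FreeGroup.lift (fun i : ℕ => Equiv.swap i (i+1)) r = 1 := by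
  rintro r (⟨i, j, hij, rfl⟩ | ⟨i, rfl⟩)
  · simp only [map_mul, map_inv, FreeGroup.lift_apply_of]
    have : Equiv.swap i (i+1) * Equiv.swap j (j+1) = Equiv.swap j (j+1) * Equiv.swap i (i+1) := by
      apply Perm.Disjoint.commute
      intro x
      by_cases hx : x = i ∨ x = i+1
      · right; exact Equiv.swap_apply_of_ne_of_ne (by omega) (by omega)
      · push Not at hx
        left; exact Equiv.swap_apply_of_ne_of_ne hx.1 hx.2
    rw [this]; group
  · simp only [map_mul, map_inv, FreeGroup.lift_apply_of]
    rw [mul_inv_eq_one]
    ext x
    simp only [Perm.mul_apply, Equiv.swap_apply_def]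
    split_ifs <;> omega

/-- The permutation of the strings given by a braid. -/
def perm : Braid →* Perm ℕ := PresentedGroup.toGroup (f := fun i : ℕ => Equiv.swap i (i+1)) swap_rels

/-- A closed braid: the number of strings and the braid. -/
abbrev Rep : Type := ℕ × Braid

/-- Conjugation and (positive and negative) stabilisation of closed braids. -/
inductive Markov : Rep → Rep → Prop
  | conj {n : ℕ} {β γ : Braid} (hβ : β ∈ B n) (hγ : γ ∈ B n) : Markov (n, β) (n, γ * β * γ⁻¹)
  | stab_pos {n : ℕ} {β : Braid} (hβ : β ∈ B (n+1)) : Markov (n+1, β) (n+2, β * σ n)
  | stab_neg {n : ℕ} {β : Braid} (hβ : β ∈ B (n+1)) : Markov (n+1, β) (n+2, β * (σ n)⁻¹)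

/-- Two closed braids represent the same link: they are related by Markov moves. -/
def Isotopic : Rep → Rep → Prop := Relation.EqvGen Markov

/-- The closed braid `K` is a knot: its closure has exactly one component. -/
def IsKnot (K : Rep) : Prop := K.2 ∈ B K.1 ∧ comps K.1 (perm K.2) = 1

/-- Knots. -/
abbrev Knot : Type := {K : Rep // IsKnot K}

/-- The split union of a link with an unlink of `m` components: `m` further trivial strings. -/
def unlinked (K : Rep) (m : ℕ) : Rep := (K.1 + m, K.2)

/-- A band between two of `n` disks: a conjugate of a standard generator or of its inverse. -/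
def IsBand (n : ℕ) (b : Braid) : Prop :=
  ∃ γ ∈ B n, ∃ i : ℕ, i + 1 < n ∧ (b = γ * σ i * γ⁻¹ ∨ b = γ * (σ i)⁻¹ * γ⁻¹)

/-- The surface made of `n` disks and the given bands is connected: any two disks can be joined by
a chain of disks in which consecutive ones are exchanged by (the transposition of) a band. -/
def ConnectedSurface (n : ℕ) (bs : List Braid) : Prop :=
  ∀ x y : ℕ, x < n → y < n → Relation.EqvGen (fun u v => ∃ b ∈ bs, perm b u = v) x y

/-- `K` bounds a connected surface of genus `g` in the 4-ball with (at most) `m` local maxima of
the radial function: the split union of `K` with the unlink of `m` components bounds a connected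
ribbon surface consisting of `n` disks and `k` bands, and the surface obtained by capping off the
unlink has Euler characteristic `n - k + m = 1 - 2 g`. -/
def BoundsSurface (K : Rep) (g m : ℕ) : Prop :=
  ∃ (n : ℕ) (bs : List Braid), (∀ b ∈ bs, IsBand n b) ∧ ConnectedSurface n bs ∧
    Isotopic (n, bs.prod) (unlinked K m) ∧ bs.length + 1 = n + m + 2 * g

/-- The slice genus: the least genus of a connected surface bounded by `K` in the 4-ball. -/
noncomputable def sliceGenus (K : Rep) : ℕ := sInf {g | ∃ m, BoundsSurface K g m}

/-- The ribbon genus: the least genus of a connected surface bounded by `K` in the 4-ball without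
local maxima. -/
noncomputable def ribbonGenus (K : Rep) : ℕ := sInf {g | BoundsSurface K g 0}

/-- There is a ribbon concordance from `K'` to `K`: adding `m` bands to (a braid representing)
`K'` gives the split union of `K` with an unlink of `m` components (whose components are then
capped off by disks), for some `m`. -/
def RibbonConcordance (K' K : Rep) : Prop :=
  ∃ (m n : ℕ) (α : Braid) (cs : List Braid), α ∈ B n ∧ (∀ c ∈ cs, IsBand n c) ∧ cs.length = m ∧
    Isotopic (n, α) K' ∧ Isotopic (n, α * cs.prod) (unlinked K m)

/-- Concordance of knots: the equivalence relation generated by ribbon concordance. -/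
def Concordant : Knot → Knot → Prop :=
  Relation.EqvGen (fun K' K : Knot => RibbonConcordance K'.1 K.1)

end Pool.Agent.Lib.MP_177a0e_gt
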