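import Pool.Agent.Lib.MP_177a0e_gt.TangleRev

/-!
Surfaces with exactly one local minimum, the unknotting number, and concordance.
-/

namespace Pool.Agent.Lib.MP_177a0e_gt.Tangle

open Gen

/-- The knot `A` is turned into the trivial knot by isotopies and `k` crossing changes. -/
inductive Unknots : ℕ → Word → Prop
  | trivial : Unknots 0 []
  | iso {k : ℕ} {w w' : Word}
      (h : Local Rel [true] [true] w w' ∨ Local Rel [true] [true] w' w) (h' : Unknots k w') :
      Unknots k w
  | change {k : ℕ} {w w' : Word} (h : Local ChangeRel [true] [true] w w') (h' : Unknots k w') :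
      Unknots (k + 1) w

/-- The unknotting number of a knot: the least number of crossing changes which, together with
isotopies, turn it into the trivial knot. -/
noncomputable def unknotting (A : Word) : ℕ := sInf {k | Unknots k A}

/-- The least genus of a connected surface in the 4-ball with boundary `A` on which the radial
function has exactly one local minimum (and any number of local maxima). -/
noncomputable def oneMinGenus (A : Word) : ℕ := sInf {g | ∃ m, BoundsSurfaceExt A g 1 m}

lemma Unknots.cob {k : ℕ} {w : Word} (h : Unknots k w) : Cob [true] [true] 0 (2 * k) 0 w [] := by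
  induction h with
  | trivial => exact Cob.refl valid_nil
  | iso h _ ih =>
    have hv : Valid [true] _ [true] := h.elim (fun h => h.valid_left) (fun h => h.valid_right)
    exact (((Cob.refl hv).iso h).trans ih).cast rfl (by omega) rfl
  | change h _ ih => exact ((change_cob h).trans ih).cast rfl (by omega) rfl

lemma change_symm {a b : Word} (h : ChangeRel a b) : ChangeRel b a := by
  cases h with
  | mk s x y p q =>
    have := ChangeRel.mk (!s) x y p q
    simpa only [Bool.not_not] using this

lemma Local.change_symm {c e : List Bool} {w w' : Word} (h : Local ChangeRel c e w w') :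
    Local ChangeRel c e w' w := by
  cases h with
  | mk u a b v h h₁ h₂ => exact Local.mk u b a v (Tangle.change_symm h) h₂ h₁

/-- Every knot can be unknotted by crossing changes. -/
lemma exists_unknots {A : Word} (hA : IsKnot A) : ∃ k, Unknots k A := by
  have key : ∀ w w' : Word, Homotopic w w' →
      ((∃ k, Unknots k w) ↔ ∃ k, Unknots k w') := by
    intro w w' h
    induction h with
    | rel a b h =>
      rcases h with h | h
      · exact ⟨fun ⟨k, hk⟩ => ⟨k, Unknots.iso (Or.inr h) hk⟩,
          fun ⟨k, hk⟩ => ⟨k, Unknots.iso (Or.inl h) hk⟩⟩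
      · exact ⟨fun ⟨k, hk⟩ => ⟨k + 1, Unknots.change h.change_symm hk⟩,
          fun ⟨k, hk⟩ => ⟨k + 1, Unknots.change h hk⟩⟩
    | refl _ => exact Iff.rfl
    | symm _ _ _ ih => exact ih.symm
    | trans _ _ _ _ _ ih1 ih2 => exact ih1.trans ih2
  exact (key A [] hA).mpr ⟨0, Unknots.trivial⟩

lemma unknots_unknotting (A : Knot) : Unknots (unknotting A.1) A.1 :=
  Nat.sInf_mem (exists_unknots A.2)

/-- If `2 g` saddles turn `A` into the trivial knot then `A` bounds a surface of genus `g` with one
minimum and without maxima. -/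
lemma ext_of_saddles (A : Knot) {g : ℕ} (h : Cob [true] [true] 0 (2 * g) 0 A.1 []) :
    BoundsSurfaceExt A.1 g 1 0 :=
  ⟨A.1, A.2, Cob.refl A.2.valid, 0, rfl, h.cast rfl (by omega) rfl⟩

lemma oneMinGenus_le_unknotting (A : Knot) : oneMinGenus A.1 ≤ unknotting A.1 :=
  Nat.sInf_le ⟨0, ext_of_saddles A (unknots_unknotting A).cob⟩

lemma exists_oneMinGenus (A : Knot) : ∃ m, BoundsSurfaceExt A.1 (oneMinGenus A.1) 1 m :=
  Nat.sInf_mem (s := {g | ∃ m, BoundsSurfaceExt A.1 g 1 m})
    ⟨_, 0, ext_of_saddles A (unknots_unknotting A).cob⟩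

lemma sliceGenus_le_oneMinGenus (A : Knot) : sliceGenus A.1 ≤ oneMinGenus A.1 := by
  obtain ⟨m, hm⟩ := exists_oneMinGenus A
  exact Nat.sInf_le ⟨m, boundsSurface_iff_ext.mpr ⟨1, hm⟩⟩

/-- The deaths of a movie can be replaced by saddles. -/
lemma Cob.trade' {b s d : ℕ} {w w' : Word} (h : Cob [true] [true] b s d w w') :
    Cob [true] [true] b (s + d) 0 w w' := h.symm.trade.symm

/-- Minima can be traded for genus. -/
lemma oneMinGenus_le {A : Word} {g n m : ℕ} (h : BoundsSurfaceExt A g n m) :
    oneMinGenus A ≤ g + (n - 1) := by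
  obtain ⟨A', hA', h1, d, rfl, h2⟩ := h
  refine Nat.sInf_le ⟨m, A', hA', h1, 0, rfl, ?_⟩
  exact h2.trade'.cast rfl (by omega) rfl

/-- The ribbon genus of `K` is at most that of `K # -A` plus the one-minimum genus of `A`. -/
lemma ribbonGenus_le_oneMin (K A : Knot) :
    ribbonGenus K.1 ≤ ribbonGenus (csum K.1 (adj A.1)) + oneMinGenus A.1 := by
  obtain ⟨m, A', _, h1, d, hd, h2⟩ := exists_oneMinGenus A
  have h3 : BoundsRibbon (K.1 ++ adj A.1) (ribbonGenus (csum K.1 (adj A.1))) :=
    boundsRibbon_ribbonGenus (K.csum A.mirror)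
  have h4 := reversal K.2 h1 h2 h3
  exact (Nat.sInf_le h4).trans (by omega)

/-! ### Concordance -/

/-- If there is a ribbon concordance from `K'` to `K` then `K'` and `K` have the same slice genus. -/
lemma sliceGenus_eq_of_ribbonConcordance {K' K : Knot} (h : RibbonConcordance K'.1 K.1) :
    sliceGenus K'.1 = sliceGenus K.1 := by
  obtain ⟨m, h⟩ := h
  apply le_antisymm
  · apply sliceGenus_le_of_mirror
    have e1 := h.symm.ctx (u := []) (v := adj K.1) valid_nil K.2.adj.valid
    simp only [List.nil_append] at e1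
    have e2 : BoundsRibbon (csum K'.1 (adj K.1)) 0 :=
      ⟨m + caps K.1, (e1.trans (cob_adj' K.2.valid)).cast rfl (by omega) rfl⟩
    have e3 : ribbonGenus (csum K'.1 (adj K.1)) ≤ 0 := Nat.sInf_le e2
    omega
  · obtain ⟨m', K'', hK'', h1, h2⟩ := exists_sliceGenus K'
    exact Nat.sInf_le ⟨m + m', K'', hK'', (h.trans h1).cast rfl rfl rfl, h2⟩

/-- The slice genus is a concordance invariant. -/
lemma Concordant.sliceGenus_eq {K A : Knot} (h : Concordant K A) :
    sliceGenus K.1 = sliceGenus A.1 := by
  induction h with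
  | rel _ _ h => exact sliceGenus_eq_of_ribbonConcordance h
  | refl _ => rfl
  | symm _ _ _ ih => exact ih.symm
  | trans _ _ _ _ _ ih1 ih2 => exact ih1.trans ih2

lemma Concordant.csum_right {K A : Knot} (h : Concordant K A) (J : Knot) :
    Concordant (K.csum J) (A.csum J) := by
  induction h with
  | rel K A h =>
    refine Relation.EqvGen.rel _ _ ?_
    obtain ⟨m, h⟩ := h
    have e1 := h.ctx (u := []) (v := J.1) valid_nil J.2.valid
    simp only [List.nil_append] at e1
    exact ⟨m, e1⟩
  | refl _ => exact Relation.EqvGen.refl _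
  | symm _ _ _ ih => exact Relation.EqvGen.symm _ _ ih
  | trans _ _ _ _ _ ih1 ih2 => exact Relation.EqvGen.trans _ _ _ ih1 ih2

/-- If `K` and `A` are concordant then `K # -A` is a slice knot. -/
lemma Concordant.sliceGenus_csum {K A : Knot} (h : Concordant K A) :
    sliceGenus (csum K.1 (adj A.1)) = 0 := by
  have h1 := (h.csum_right A.mirror).sliceGenus_eq
  have h2 : sliceGenus (csum A.1 (adj A.1)) ≤ ribbonGenus (csum A.1 (adj A.1)) :=
    sliceGenus_le_ribbonGenus (A.csum A.mirror)
  rw [ribbonGenus_mirror] at h2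
  have h3 : sliceGenus (csum K.1 (adj A.1)) = sliceGenus (csum A.1 (adj A.1)) := h1
  omega

/-- If `K # -A` is a ribbon knot then `K` and `A` are concordant. -/
lemma concordant_of_mirror {K A : Knot} (h : ribbonGenus (csum K.1 (adj A.1)) = 0) :
    Concordant K A := by
  have h1 := csum_concordance K (A.mirror.csum A) (by
    have e : BoundsRibbon (A.mirror.csum A).1 0 := ⟨caps A.1, cob_adj'' A.2.valid⟩
    have : ribbonGenus (A.mirror.csum A).1 ≤ 0 := Nat.sInf_le e
    omega)
  have h2 : RibbonConcordance ((K.csum A.mirror).csum A).1 A.1 := by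
    obtain ⟨d, h3⟩ := boundsRibbon_ribbonGenus (K.csum A.mirror)
    have h4 : ribbonGenus (K.csum A.mirror).1 = 0 := h
    rw [h4] at h3
    have e1 := h3.symm.ctx (u := []) (v := A.1) valid_nil A.2.valid
    simp only [List.nil_append] at e1
    exact ⟨d, e1.cast rfl (by omega) rfl⟩
  have e2 : ((K.csum A.mirror).csum A).1 = csum K.1 (A.mirror.csum A).1 := by
    simp [Knot.csum, csum, List.append_assoc]
  rw [← e2] at h1
  exact Relation.EqvGen.trans _ _ _
    (Relation.EqvGen.symm _ _ (Relation.EqvGen.rel ((K.csum A.mirror).csum A) K h1))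
    (Relation.EqvGen.rel ((K.csum A.mirror).csum A) A h2)

/-- Saddles first: if `K` is concordant to `A` then `2 g` saddles turn `K` into a slice knot, where
`g` is the one-minimum genus of `A`. -/
lemma saddles_first {K A : Knot} (h : Concordant K A) :
    ∃ J : Knot, sliceGenus J.1 = 0 ∧
      Cob [true] [true] 0 (2 * oneMinGenus A.1) 0 K.1 J.1 := by
  obtain ⟨m, A', hA', h1, d, hd, h2⟩ := exists_oneMinGenus A
  obtain rfl : d = 0 := by omega
  have hc : Concordant K ⟨A', hA'⟩ :=
    Relation.EqvGen.trans _ _ _ h (Relation.EqvGen.symm _ _ (Relation.EqvGen.rel _ _ ⟨m, h1⟩))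
  refine ⟨K.csum (Knot.mirror ⟨A', hA'⟩), hc.sliceGenus_csum, ?_⟩
  have e1 := h2.symm.adj.ctx K.2.valid valid_nil
  simp only [adj_nil, List.append_nil] at e1
  exact e1.cast rfl (by omega) rfl

end Pool.Agent.Lib.MP_177a0e_gt.Tangle
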