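import Pool.Agent.Lib.MP_177a0e_gt.Lower

/-!
# Exchanging the bands of a ribbon concordance one by one

Closed braids and bands as in `Pool.Agent.Lib.MP_177a0e_gt.Defs`. Let `m + 1` bands turn `K'` into the split union of
`K` with `m + 1` circles. Then there is a knot `X`, from which `m` bands lead to the split union of `K` with `m`
circles, such that two bands turn `K'` into `X` (`exchange`): one of the bands is replaced by a trivial band which joins
a circle to its neighbour. So the knots of a chain from `K'` to `K` have ribbon genera which change by at most one.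
-/

namespace Pool.Agent.Lib.MP_177a0e_gt

open Equiv

/-- a trivial band joins the last circle to its neighbour -/
theorem trivial_band (K : Knot) (m : ℕ) : Bands 1 (unlinked K.1 (m + 1)) (unlinked K.1 m) := by
  obtain ⟨⟨p, β⟩, hβ, hk⟩ := K
  dsimp only [unlinked] at hβ hk ⊢
  have hp : p ≠ 0 := by
    rintro rfl
    rw [comps_zero] at hk
    omega
  obtain ⟨q, rfl⟩ : ∃ q, p = q + 1 := ⟨p - 1, by omega⟩
  have e1 : q + 1 + (m + 1) = q + m + 2 := by omega
  have e2 : q + 1 + m = q + m + 1 := by omega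
  rw [e1, e2]
  refine ⟨q + m + 2, β, [σ (q + m)], B_mono (by omega) hβ, ?_, rfl, Isotopic.refl _, ?_⟩
  · intro c hc
    rw [List.mem_singleton] at hc
    subst hc
    exact ⟨1, (B _).one_mem, q + m, by omega, Or.inl (by simp)⟩
  · rw [List.prod_singleton]
    exact (Relation.EqvGen.rel _ _ (Markov.stab_pos (n := q + m) (B_mono (by omega) hβ)) : Isotopic _ _).symm

/-- one band is exchanged for a trivial band -/
theorem exchange {K K' : Knot} {m : ℕ} (h : Bands (m + 1) K'.1 (unlinked K.1 (m + 1))) :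
    ∃ X : Knot, Bands 2 K'.1 X.1 ∧ Bands m X.1 (unlinked K.1 m) := by
  obtain ⟨n, α, cs, hα, hcs, hm, h1, h2⟩ := h.symm
  obtain ⟨p, γ, ts0, hγ, hts, hl, h3, h4⟩ := trivial_band K m
  obtain ⟨d, δ, cs', ts', hδ, hcs', hts', l1, l2, i1, i2, i3⟩ := common_base hα hcs hts (h1.trans h3.symm)
  obtain ⟨t, rfl⟩ : ∃ t, ts' = [t] := List.length_eq_one_iff.1 (l2.trans hl)
  rw [List.prod_singleton] at i3
  have ht : IsBand d t := hts' t (by simp)
  have hc0 : comps d (perm δ) = m + 1 + 1 := by
    have := comps_isotopic (i1.symm.trans h1)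
    rw [comps_unlinked K.2] at this
    exact this
  have hc1 : comps d (perm (δ * t)) = m + 1 := by
    have := comps_isotopic (i3.symm.trans h4)
    rw [comps_unlinked K.2] at this
    exact this
  have hk' : comps d (perm (δ * cs'.prod)) = 1 := by
    have := comps_isotopic (i2.symm.trans h2)
    dsimp only at this
    rw [this]
    exact K'.2.2
  obtain ⟨x, y, hx, hy, hxy, htp⟩ := ht.perm
  have hnot : ¬ cyc (perm δ) x y := by
    intro h0
    have := comps_split (perm_below hδ) hx hy hxy h0
    rw [← htp, ← map_mul] at this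
    omega
  have hle : ∀ {u v : ℕ}, cyc (perm δ) u v → cyc (perm (δ * t)) u v := by
    intro u v h0
    rw [map_mul, htp]
    exact merge_le (perm_below hδ) hnot h0
  have hδt : δ * t ∈ B d := (B d).mul_mem hδ ht.mem
  obtain ⟨ts, cs'', a1, a2, a3, a4, a5, a6, a7, -⟩ := tree_first hδt cs' hcs'
  have hd : d ≠ 0 := by
    rintro rfl
    rw [comps_zero] at hk'
    omega
  have hstep : ∀ z, cyc (perm (δ * t * ts.prod)) z (perm (δ * cs'.prod) z) := by
    intro z
    have e : perm (δ * cs'.prod) z = perm δ (perm cs'.prod z) := by rw [map_mul, Perm.mul_apply]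
    rw [e]
    exact (cyc _).trans (step_prod (cyc _) a7 z) (a6 _ _ (hle (cyc_step (perm δ) _)))
  have hle1 : comps d (perm (δ * t * ts.prod)) ≤ 1 := comps_le_one (fun x y hx hy =>
    sameCycle_le (cyc (perm (δ * t * ts.prod))) hstep (sameCycle_of_comps hk' hx hy))
  have hge := comps_pos hd (perm (δ * t * ts.prod))
  have hX : comps d (perm (δ * t * ts.prod)) = 1 := by omega
  have hmem : δ * t * ts.prod ∈ B d := (B d).mul_mem hδt (prod_mem a1)
  have hcm : cs'.prod ∈ B d := prod_mem hcs'
  refine ⟨⟨(d, δ * t * ts.prod), hmem, hX⟩, ?_, ?_⟩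
  · have b1 : Bands 1 K'.1 (d, δ * t * cs'.prod) := by
      refine ⟨d, δ * cs'.prod, [cs'.prod⁻¹ * t * (cs'.prod⁻¹)⁻¹], (B d).mul_mem hδ hcm, ?_, rfl, i2.symm.trans h2, ?_⟩
      · intro b hb
        rw [List.mem_singleton] at hb
        subst hb
        exact ht.conj ((B d).inv_mem hcm)
      · rw [List.prod_singleton]
        have e : δ * cs'.prod * (cs'.prod⁻¹ * t * (cs'.prod⁻¹)⁻¹) = δ * t * cs'.prod := by group
        rw [e]
        exact Isotopic.refl _
    have b2 : Bands 1 (d, δ * t * ts.prod) (d, δ * t * cs'.prod) := by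
      refine ⟨d, δ * t * ts.prod, cs'', hmem, a2, by omega, Isotopic.refl _, ?_⟩
      rw [a3, ← mul_assoc]
      exact Isotopic.refl _
    exact b1.trans b2.symm
  · apply Bands.symm
    exact ⟨d, δ * t, ts, hδt, a1, by omega, i3.symm.trans h4, Isotopic.refl _⟩

/-- the ribbon genera between -/
theorem between (m : ℕ) : ∀ K K' : Knot, Bands m K'.1 (unlinked K.1 m) → ∀ i : ℕ, ribbonGenus K'.1 ≤ i →
    i ≤ ribbonGenus K.1 → ∃ X : Knot, RibbonConcordance X.1 K.1 ∧ ribbonGenus X.1 = i := by
  induction m with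
  | zero =>
    intro K K' h i h1 h2
    have h3 : ribbonGenus K.1 ≤ ribbonGenus K'.1 + 0 := ribbonGenus_le_of_bands (k := 0) h
    exact ⟨K', ribbonConcordance_iff.2 ⟨0, h⟩, by omega⟩
  | succ m ih =>
    intro K K' h i h1 h2
    by_cases h0 : i = ribbonGenus K'.1
    · exact ⟨K', ribbonConcordance_iff.2 ⟨m + 1, h⟩, h0.symm⟩
    · obtain ⟨X, h3, h4⟩ := exchange h
      have h5 : ribbonGenus X.1 ≤ ribbonGenus K'.1 + 1 := ribbonGenus_le_of_bands (k := 1) h3
      exact ih K X h4 i (by omega) h2

/-- ribbon concordances lower the ribbon genus at the top -/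
theorem genus_top {K K' : Knot} (h : RibbonConcordance K'.1 K.1) : ribbonGenus K'.1 ≤ ribbonGenus K.1 :=
  ribbonGenus_le (ribbon_mono K' K h _ (ribbon_spec K))

/-- every number between the slice genus and the ribbon genus is the ribbon genus of a knot from which there is a ribbon
concordance -/
theorem all_between (K : Knot) (i : ℕ) (h1 : sliceGenus K.1 ≤ i) (h2 : i ≤ ribbonGenus K.1) :
    ∃ X : Knot, RibbonConcordance X.1 K.1 ∧ ribbonGenus X.1 = i := by
  obtain ⟨K', h3, h4⟩ := (boundsSurface_iff K _).1 (slice_spec K)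
  obtain ⟨m, hm⟩ := ribbonConcordance_iff.1 h3
  exact between m K K' hm i ((ribbonGenus_le h4).trans h1) h2

/-- the ribbon genus of a knot from which there is a ribbon concordance -/
theorem slice_le_top {K K' : Knot} (h : RibbonConcordance K'.1 K.1) : sliceGenus K.1 ≤ ribbonGenus K'.1 :=
  (sliceGenus_le_of_ribbonConcordance h).trans (sliceGenus_le_ribbonGenus K')

/-- a chain of knots of the same ribbon genus -/
theorem chain {N : ℕ} (h : ∀ (s : ℕ) (J X K : Knot), sliceGenus K.1 = N → ribbonGenus J.1 = N → Bands 2 J.1 X.1 →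
      Bands s X.1 (unlinked K.1 s) → Bands (s + 1) J.1 (unlinked K.1 (s + 1)) → ribbonGenus X.1 = N)
    (K : Knot) (hK : sliceGenus K.1 = N) (m : ℕ) : ∀ J : Knot, ribbonGenus J.1 = N → Bands m J.1 (unlinked K.1 m) →
      ribbonGenus K.1 = N := by
  induction m with
  | zero =>
    intro J h1 h2
    have h3 : ribbonGenus K.1 ≤ ribbonGenus J.1 + 0 := ribbonGenus_le_of_bands (k := 0) h2
    have h4 := sliceGenus_le_ribbonGenus K
    omega
  | succ m ih =>
    intro J h1 h2
    obtain ⟨X, h3, h4⟩ := exchange h2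
    exact ih X (h m J X K hK h1 h3 h4 h2) h4

end Pool.Agent.Lib.MP_177a0e_gt
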