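import Pool.Agent.Lib.MP_177a0e_gt.TangleDefs

namespace Pool.Agent.Lib.MP_177a0e_gt.Tangle

open Gen

/-! ### Validity and contexts -/

lemma valid_append {c e : List Bool} {u v : Word} :
    Valid c (u ++ v) e ↔ ∃ m, Valid c u m ∧ Valid m v e := by
  induction u generalizing c with
  | nil => simp [Valid]
  | cons s u ih =>
    simp only [List.cons_append, Valid, ih]
    constructor
    · rintro ⟨h1, m, h2, h3⟩; exact ⟨m, ⟨h1, h2⟩, h3⟩
    · rintro ⟨m, ⟨h1, h2⟩, h3⟩; exact ⟨h1, m, h2, h3⟩

lemma Valid.append {c m e : List Bool} {u v : Word} (h1 : Valid c u m) (h2 : Valid m v e) :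
    Valid c (u ++ v) e := valid_append.mpr ⟨m, h1, h2⟩

lemma Local.ctx {R : Word → Word → Prop} {c e c₀ e₀ : List Bool} {w w' u v : Word}
    (h : Local R c e w w') (hu : Valid c₀ u c) (hv : Valid e v e₀) :
    Local R c₀ e₀ (u ++ w ++ v) (u ++ w' ++ v) := by
  cases h with
  | mk u' a b v' h h₁ h₂ =>
    have e1 : ∀ x : Word, u ++ (u' ++ x ++ v') ++ v = (u ++ u') ++ x ++ (v' ++ v) := by
      intro x; simp [List.append_assoc]
    rw [e1, e1]
    apply Local.mk _ _ _ _ h
    · rw [← e1]; exact (hu.append h₁).append hv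
    · rw [← e1]; exact (hu.append h₂).append hv

lemma Local.valid_left {R : Word → Word → Prop} {c e : List Bool} {w w' : Word}
    (h : Local R c e w w') : Valid c w e := by
  cases h with
  | mk u a b v h h₁ h₂ => exact h₁

lemma Local.valid_right {R : Word → Word → Prop} {c e : List Bool} {w w' : Word}
    (h : Local R c e w w') : Valid c w' e := by
  cases h with
  | mk u a b v h h₁ h₂ => exact h₂

/-- A replacement of a whole word. -/
lemma Local.whole {R : Word → Word → Prop} {c e : List Bool} {a b : Word} (h : R a b)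
    (h₁ : Valid c a e) (h₂ : Valid c b e) : Local R c e a b := by
  have := Local.mk (R := R) (c := c) (e := e) [] a b [] h (by simpa using h₁) (by simpa using h₂)
  simpa using this

lemma Cob.valid {c e : List Bool} {b s d : ℕ} {w w' : Word} (h : Cob c e b s d w w') :
    Valid c w e ∧ Valid c w' e := by
  induction h with
  | refl h => exact ⟨h, h⟩
  | iso _ h' ih =>
    refine ⟨ih.1, ?_⟩
    rcases h' with h' | h'
    · exact h'.valid_right
    · exact h'.valid_left
  | saddle _ h' ih =>
    refine ⟨ih.1, ?_⟩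
    rcases h' with h' | h'
    · exact h'.valid_right
    · exact h'.valid_left
  | birth _ h' ih => exact ⟨ih.1, h'.valid_right⟩
  | death _ h' ih => exact ⟨ih.1, h'.valid_left⟩

lemma Cob.ctx {c e c₀ e₀ : List Bool} {b s d : ℕ} {w w' u v : Word}
    (h : Cob c e b s d w w') (hu : Valid c₀ u c) (hv : Valid e v e₀) :
    Cob c₀ e₀ b s d (u ++ w ++ v) (u ++ w' ++ v) := by
  induction h with
  | refl h => exact Cob.refl ((hu.append h).append hv)
  | iso _ h' ih =>
    exact ih.iso (h'.imp (fun h => h.ctx hu hv) (fun h => h.ctx hu hv))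
  | saddle _ h' ih =>
    exact ih.saddle (h'.imp (fun h => h.ctx hu hv) (fun h => h.ctx hu hv))
  | birth _ h' ih => exact ih.birth (h'.ctx hu hv)
  | death _ h' ih => exact ih.death (h'.ctx hu hv)

lemma Cob.trans {c e : List Bool} {b s d b' s' d' : ℕ} {w w' w'' : Word}
    (h : Cob c e b s d w w') (h' : Cob c e b' s' d' w' w'') :
    Cob c e (b + b') (s + s') (d + d') w w'' := by
  induction h' with
  | refl _ => exact h
  | iso _ h'' ih => exact (ih h).iso h''
  | saddle _ h'' ih => exact (ih h).saddle h''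
  | birth _ h'' ih => exact (ih h).birth h''
  | death _ h'' ih => exact (ih h).death h''

lemma Cob.cast {c e : List Bool} {b s d b' s' d' : ℕ} {w w' : Word}
    (h : Cob c e b s d w w') (hb : b = b') (hs : s = s') (hd : d = d') :
    Cob c e b' s' d' w w' := by subst hb hs hd; exact h

lemma Cob.symm {c e : List Bool} {b s d : ℕ} {w w' : Word} (h : Cob c e b s d w w') :
    Cob c e d s b w' w := by
  induction h with
  | refl h => exact Cob.refl h
  | @iso b s d w w₁ w₂ h h' ih =>
    have hv : Valid c w₂ e := (h.iso h').valid.2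
    exact (((Cob.refl hv).iso h'.symm).trans ih).cast (by omega) (by omega) (by omega)
  | @saddle b s d w w₁ w₂ h h' ih =>
    have hv : Valid c w₂ e := (h.saddle h').valid.2
    exact (((Cob.refl hv).saddle h'.symm).trans ih).cast (by omega) (by omega) (by omega)
  | @birth b s d w w₁ w₂ h h' ih =>
    have hv : Valid c w₂ e := (h.birth h').valid.2
    exact (((Cob.refl hv).death h').trans ih).cast (by omega) (by omega) (by omega)
  | @death b s d w w₁ w₂ h h' ih =>
    have hv : Valid c w₂ e := (h.death h').valid.2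
    exact (((Cob.refl hv).birth h').trans ih).cast (by omega) (by omega) (by omega)

/-! ### The adjoint (mirror image with reversed direction) of a tangle -/

/-- The adjoint of an elementary piece. -/
def Gen.adj : Gen → Gen
  | cup x => cap x
  | cap x => cup x
  | cross s x y => cross (!s) y x

/-- The adjoint of a slice. -/
def Slice.adj (s : Slice) : Slice := ⟨s.left, s.gen.adj, s.right⟩

/-- The adjoint of a tangle diagram: reflection in a horizontal plane. -/
def adj (w : Word) : Word := (w.map Slice.adj).reverse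

lemma Gen.adj_src (g : Gen) : g.adj.src = g.tgt := by cases g <;> rfl
lemma Gen.adj_tgt (g : Gen) : g.adj.tgt = g.src := by cases g <;> rfl
lemma Slice.adj_src (s : Slice) : s.adj.src = s.tgt := by
  simp only [Slice.adj, Slice.src, Slice.tgt, Gen.adj_src]
lemma Slice.adj_tgt (s : Slice) : s.adj.tgt = s.src := by
  simp only [Slice.adj, Slice.src, Slice.tgt, Gen.adj_tgt]
lemma Gen.adj_adj (g : Gen) : g.adj.adj = g := by cases g <;> simp [Gen.adj]
lemma Slice.adj_adj (s : Slice) : s.adj.adj = s := by simp [Slice.adj, Gen.adj_adj]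

lemma adj_nil : adj [] = [] := rfl
lemma adj_cons (s : Slice) (w : Word) : adj (s :: w) = adj w ++ [s.adj] := by simp [adj]
lemma adj_append (u v : Word) : adj (u ++ v) = adj v ++ adj u := by simp [adj]
lemma adj_adj (w : Word) : adj (adj w) = w := by
  simp [adj, List.map_reverse, Function.comp_def, Slice.adj_adj]

lemma valid_single {s : Slice} {c e : List Bool} : Valid c [s] e ↔ s.src = c ∧ s.tgt = e := by
  simp [Valid]

lemma Valid.adj {c e : List Bool} {w : Word} (h : Valid c w e) : Valid e (adj w) c := by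
  induction w generalizing c with
  | nil => exact (show c = e from h).symm
  | cons s w ih =>
    obtain ⟨h1, h2⟩ := h
    rw [adj_cons]
    exact (ih h2).append (valid_single.mpr ⟨s.adj_src, by rw [s.adj_tgt]; exact h1⟩)

/-- The number of minima. -/
def cups : Word → ℕ
  | [] => 0
  | ⟨_, cup _, _⟩ :: w => cups w + 1
  | _ :: w => cups w

/-- The number of maxima. -/
def caps : Word → ℕ
  | [] => 0
  | ⟨_, cap _, _⟩ :: w => caps w + 1
  | _ :: w => caps w

lemma count {c e : List Bool} {w : Word} (h : Valid c w e) :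
    c.length + 2 * cups w = e.length + 2 * caps w := by
  induction w generalizing c with
  | nil => rw [show c = e from h]; rfl
  | cons s w ih =>
    obtain ⟨h1, h2⟩ := h
    have := ih h2
    obtain ⟨p, g, q⟩ := s
    subst h1
    cases g <;> simp only [Slice.src, Slice.tgt, Gen.src, Gen.tgt, List.length_append,
      List.length_cons, List.length_nil, cups, caps] at this ⊢ <;> omega

/-- A tangle followed by its adjoint can be transformed into the trivial one by a saddle for each
maximum and a death for each minimum. -/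
theorem cob_adj {c e : List Bool} {w : Word} (h : Valid c w e) :
    Cob c c 0 (caps w) (cups w) (w ++ adj w) [] := by
  induction w generalizing c with
  | nil => exact Cob.refl (show c = c from rfl)
  | cons s w ih =>
    obtain ⟨h1, h2⟩ := h
    have h3 := ih h2
    have hs : Valid c [s] s.tgt := valid_single.mpr ⟨h1, rfl⟩
    have hs' : Valid s.tgt [s.adj] c := valid_single.mpr ⟨s.adj_src, by rw [s.adj_tgt]; exact h1⟩
    have h4 := h3.ctx hs hs'
    have e1 : s :: w ++ adj (s :: w) = [s] ++ (w ++ adj w) ++ [s.adj] := by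
      rw [adj_cons]; simp
    rw [e1]
    have hv : Valid c ([s] ++ [s.adj]) c := hs.append hs'
    have hn : Valid c [] c := show c = c from rfl
    obtain ⟨p, g, q⟩ := s
    simp only [List.append_nil] at h4
    cases g with
    | cup x =>
      simp only [caps, cups]
      refine (h4.trans ((Cob.refl hv).death (w₂ := []) ?_)).cast (by omega) (by omega) (by omega)
      exact Local.whole (BirthRel.mk x p q) hn hv
    | cap x =>
      simp only [caps, cups]
      refine (h4.trans ((Cob.refl hv).saddle (w₂ := []) (Or.inr ?_))).cast (by omega) (by omega)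
        (by omega)
      exact Local.whole (SaddleRel.mk x p q) hn hv
    | cross t x y =>
      simp only [caps, cups]
      refine (h4.trans ((Cob.refl hv).iso (w₂ := []) (Or.inl ?_))).cast (by omega) (by omega)
        (by omega)
      exact Local.whole (Rel.r2 t x y p q) hv hn

lemma cob_adj' {w : Word} (h : Valid [true] w [true]) :
    Cob [true] [true] 0 (caps w) (caps w) (w ++ adj w) [] := by
  have h1 := count h
  exact (cob_adj h).cast rfl rfl (by omega)

lemma caps_adj (w : Word) : caps (adj w) = cups w := by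
  have happ : ∀ u v : Word, caps (u ++ v) = caps u + caps v := by
    intro u v
    induction u with
    | nil => simp [caps]
    | cons s u ih =>
      obtain ⟨p, g, q⟩ := s
      cases g <;> simp only [List.cons_append, caps, ih] <;> omega
  induction w with
  | nil => rfl
  | cons s w ih =>
    rw [adj_cons, happ, ih]
    obtain ⟨p, g, q⟩ := s
    cases g <;> rfl

lemma cob_adj'' {w : Word} (h : Valid [true] w [true]) :
    Cob [true] [true] 0 (caps w) (caps w) (adj w ++ w) [] := by
  have h1 := count h
  have h2 := cob_adj' h.adj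
  rw [adj_adj, caps_adj] at h2
  exact h2.cast rfl (by omega) (by omega)

/-! ### Knots -/

/-- The relation generated by isotopies and crossing changes. -/
def Homotopic : Word → Word → Prop :=
  Relation.EqvGen (fun a b => Local Rel [true] [true] a b ∨ Local ChangeRel [true] [true] a b)

lemma Homotopic.valid {w w' : Word} (h : Homotopic w w') :
    Valid [true] w [true] ↔ Valid [true] w' [true] := by
  induction h with
  | rel _ _ h =>
    rcases h with h | h
    · exact iff_of_true h.valid_left h.valid_right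
    · exact iff_of_true h.valid_left h.valid_right
  | refl _ => exact Iff.rfl
  | symm _ _ _ ih => exact ih.symm
  | trans _ _ _ _ _ ih1 ih2 => exact ih1.trans ih2

lemma IsKnot.valid {w : Word} (h : IsKnot w) : Valid [true] w [true] :=
  (Homotopic.valid h).mpr (show [true] = [true] from rfl)

lemma Homotopic.ctx {w w' u v : Word} (h : Homotopic w w') (hu : Valid [true] u [true])
    (hv : Valid [true] v [true]) : Homotopic (u ++ w ++ v) (u ++ w' ++ v) := by
  induction h with
  | rel _ _ h => exact Relation.EqvGen.rel _ _ (h.imp (fun h => h.ctx hu hv) (fun h => h.ctx hu hv))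
  | refl _ => exact Relation.EqvGen.refl _
  | symm _ _ _ ih => exact Relation.EqvGen.symm _ _ ih
  | trans _ _ _ _ _ ih1 ih2 => exact Relation.EqvGen.trans _ _ _ ih1 ih2

/-- The connected sum of two knots is a knot. -/
lemma IsKnot.append {K J : Word} (hK : IsKnot K) (hJ : IsKnot J) : IsKnot (K ++ J) := by
  have hn : Valid [true] [] [true] := show [true] = [true] from rfl
  have h1 := Homotopic.ctx (u := []) hK hn hJ.valid
  simp only [List.nil_append] at h1
  exact Relation.EqvGen.trans _ _ _ h1 hJ

lemma rel_adj {a b : Word} (h : Rel a b) : Rel (adj a) (adj b) ∨ Rel (adj b) (adj a) := by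
  cases h with
  | interchange g g' p q r =>
    right
    have := Rel.interchange g.adj g'.adj p q r
    simp only [Gen.adj_src, Gen.adj_tgt] at this
    exact this
  | zigzag₁ x p q => left; exact Rel.zigzag₂ x p q
  | zigzag₂ x p q => left; exact Rel.zigzag₁ x p q
  | r1_cup s x p q =>
    left
    have := Rel.r1_cap (!s) (!x) p q
    simp only [Bool.not_not] at this
    exact this
  | r1_cap s x p q =>
    left
    have := Rel.r1_cup (!s) (!x) p q
    simp only [Bool.not_not] at this
    exact this
  | r2 s x y p q =>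
    left
    have := Rel.r2 s x y p q
    simp only [adj, List.map, List.reverse_cons, List.reverse_nil, List.nil_append,
      List.cons_append, Slice.adj, Gen.adj, Bool.not_not]
    exact this
  | r3 s x y z p q => left; exact Rel.r3 (!s) z y x p q
  | slide_cup s e x p q => left; exact Rel.slide_cap (!s) e x p q
  | slide_cap s e x p q => left; exact Rel.slide_cup (!s) e x p q

lemma change_adj {a b : Word} (h : ChangeRel a b) : ChangeRel (adj a) (adj b) := by
  cases h with
  | mk s x y p q => exact ChangeRel.mk (!s) y x p q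

lemma Local.adj {R : Word → Word → Prop} {c e : List Bool} {w w' : Word}
    (hR : ∀ a b, R a b →
      R (Tangle.adj a) (Tangle.adj b) ∨ R (Tangle.adj b) (Tangle.adj a))
    (h : Local R c e w w') :
    Local R e c (Tangle.adj w) (Tangle.adj w') ∨ Local R e c (Tangle.adj w') (Tangle.adj w) := by
  cases h with
  | mk u a b v h h₁ h₂ =>
    have h₁' := h₁.adj
    have h₂' := h₂.adj
    simp only [adj_append, ← List.append_assoc] at h₁' h₂' ⊢
    rcases hR a b h with h' | h'
    · exact Or.inl (Local.mk _ _ _ _ h' h₁' h₂')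
    · exact Or.inr (Local.mk _ _ _ _ h' h₂' h₁')

lemma Homotopic.adj {K L : Word} (hK : Homotopic K L) :
    Homotopic (Tangle.adj K) (Tangle.adj L) := by
  induction hK with
  | rel a b h =>
    rcases h with h | h
    · rcases h.adj (fun a b => rel_adj) with h' | h'
      · exact Relation.EqvGen.rel _ _ (Or.inl h')
      · exact Relation.EqvGen.symm _ _ (Relation.EqvGen.rel _ _ (Or.inl h'))
    · rcases h.adj (fun a b h => Or.inl (change_adj h)) with h' | h'
      · exact Relation.EqvGen.rel _ _ (Or.inr h')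
      · exact Relation.EqvGen.symm _ _ (Relation.EqvGen.rel _ _ (Or.inr h'))
  | refl _ => exact Relation.EqvGen.refl _
  | symm _ _ _ ih => exact Relation.EqvGen.symm _ _ ih
  | trans _ _ _ _ _ ih1 ih2 => exact Relation.EqvGen.trans _ _ _ ih1 ih2

/-- The adjoint of a knot is a knot. -/
lemma IsKnot.adj {K : Word} (hK : IsKnot K) : IsKnot (Tangle.adj K) := Homotopic.adj hK

/-! ### Crossing changes and saddles -/

/-- A crossing change between strands of opposite directions consists of two saddles. -/
lemma change_anti (s x : Bool) (p q : List Bool) :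
    Cob (p ++ [x, !x] ++ q) (p ++ [!x, x] ++ q) 0 2 0 [⟨p, cross s x (!x), q⟩]
      [⟨p, cross (!s) x (!x), q⟩] := by
  have key : ∀ s : Bool, Cob (p ++ [x, !x] ++ q) (p ++ [!x, x] ++ q) 0 1 0
      [⟨p, cross s x (!x), q⟩] [⟨p, cap x, q⟩, ⟨p, cup (!x), q⟩] := by
    intro s
    have v0 : Valid (p ++ [x, !x] ++ q) [⟨p, cross s x (!x), q⟩] (p ++ [!x, x] ++ q) := by
      simp [Valid, Slice.src, Slice.tgt, Gen.src, Gen.tgt]
    have v1 : Valid (p ++ [x, !x] ++ q)
        [⟨p, cap x, q⟩, ⟨p, cup x, q⟩, ⟨p, cross s x (!x), q⟩] (p ++ [!x, x] ++ q) := by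
      simp [Valid, Slice.src, Slice.tgt, Gen.src, Gen.tgt]
    have v2 : Valid (p ++ [x, !x] ++ q)
        [⟨p, cap x, q⟩, ⟨p, cup (!x), q⟩] (p ++ [!x, x] ++ q) := by
      simp [Valid, Slice.src, Slice.tgt, Gen.src, Gen.tgt]
    refine ((Cob.refl v0).saddle (w₂ := [⟨p, cap x, q⟩, ⟨p, cup x, q⟩, ⟨p, cross s x (!x), q⟩])
      (Or.inl ?_)).iso (Or.inl ?_)
    · exact Local.mk [] [] [⟨p, cap x, q⟩, ⟨p, cup x, q⟩] [⟨p, cross s x (!x), q⟩]
        (SaddleRel.mk x p q) v0 v1
    · have := Local.mk [⟨p, cap x, q⟩] _ _ [] (Rel.r1_cup s x p q) v1 v2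
      exact this
  exact ((key s).trans (key (!s)).symm).cast rfl rfl rfl

/-- A crossing of two strands, one of which is turned around. -/
def turned (s x y : Bool) (p q : List Bool) : Word :=
  [⟨p, cup y, x :: y :: q⟩, ⟨p ++ [y], cross (!s) (!y) x, y :: q⟩, ⟨p ++ [y, x], cap (!y), q⟩]

lemma turn (s x y : Bool) (p q : List Bool) :
    Cob (p ++ [x, y] ++ q) (p ++ [y, x] ++ q) 0 0 0 [⟨p, cross s x y, q⟩] (turned s x y p q) := by
  have v0 : Valid (p ++ [x, y] ++ q) [⟨p, cross s x y, q⟩] (p ++ [y, x] ++ q) := by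
    simp [Valid, Slice.src, Slice.tgt, Gen.src, Gen.tgt]
  have v1 : Valid (p ++ [x, y] ++ q) [⟨p ++ [x], cup y, y :: q⟩, ⟨p ++ [x, y], cap (!y), q⟩,
      ⟨p, cross s x y, q⟩] (p ++ [y, x] ++ q) := by
    simp [Valid, Slice.src, Slice.tgt, Gen.src, Gen.tgt]
  have v2 : Valid (p ++ [x, y] ++ q) [⟨p ++ [x], cup y, y :: q⟩,
      ⟨p, cross s x y, (!y) :: y :: q⟩, ⟨p ++ [y, x], cap (!y), q⟩] (p ++ [y, x] ++ q) := by
    simp [Valid, Slice.src, Slice.tgt, Gen.src, Gen.tgt]
  have v3 : Valid (p ++ [x, y] ++ q) (turned s x y p q) (p ++ [y, x] ++ q) := by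
    simp [turned, Valid, Slice.src, Slice.tgt, Gen.src, Gen.tgt]
  refine (((Cob.refl v0).iso (w₂ := [⟨p ++ [x], cup y, y :: q⟩, ⟨p ++ [x, y], cap (!y), q⟩,
      ⟨p, cross s x y, q⟩]) (Or.inr ?_)).iso (w₂ := [⟨p ++ [x], cup y, y :: q⟩,
      ⟨p, cross s x y, (!y) :: y :: q⟩, ⟨p ++ [y, x], cap (!y), q⟩]) (Or.inr ?_)).iso (Or.inr ?_)
  · have h : Rel [⟨p ++ [x], cup y, y :: q⟩, ⟨p ++ [x, y], cap (!y), q⟩] [] := by
      have := Rel.zigzag₂ y (p ++ [x]) q
      simpa using this
    exact Local.mk [] _ _ [⟨p, cross s x y, q⟩] h v1 v0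
  · have h : Rel [⟨p, cross s x y, (!y) :: y :: q⟩, ⟨p ++ [y, x], cap (!y), q⟩]
        [⟨p ++ [x, y], cap (!y), q⟩, ⟨p, cross s x y, q⟩] := by
      have := Rel.interchange (cross s x y) (cap (!y)) p [] q
      simpa [Gen.src, Gen.tgt] using this
    exact Local.mk [⟨p ++ [x], cup y, y :: q⟩] _ _ [] h v2 v1
  · have h : Rel [⟨p, cup y, x :: y :: q⟩, ⟨p ++ [y], cross (!s) (!y) x, y :: q⟩]
        [⟨p ++ [x], cup y, y :: q⟩, ⟨p, cross s x y, (!y) :: y :: q⟩] := by
      have := Rel.slide_cup (!s) y x p (y :: q)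
      simpa using this
    exact Local.mk [] _ _ [⟨p ++ [y, x], cap (!y), q⟩] h v3 v2

/-- A crossing change between strands of the same direction consists of two saddles. -/
lemma change_par (s x : Bool) (p q : List Bool) :
    Cob (p ++ [x, x] ++ q) (p ++ [x, x] ++ q) 0 2 0 [⟨p, cross s x x, q⟩]
      [⟨p, cross (!s) x x, q⟩] := by
  have h1 := change_anti (!s) (!x) (p ++ [x]) (x :: q)
  simp only [Bool.not_not] at h1
  have hu : Valid (p ++ [x, x] ++ q) [⟨p, cup x, x :: x :: q⟩]
      (p ++ [x] ++ [!x, x] ++ (x :: q)) := by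
    simp [Valid, Slice.src, Slice.tgt, Gen.src, Gen.tgt]
  have hv : Valid (p ++ [x] ++ [x, !x] ++ (x :: q)) [⟨p ++ [x, x], cap (!x), q⟩]
      (p ++ [x, x] ++ q) := by
    simp [Valid, Slice.src, Slice.tgt, Gen.src, Gen.tgt]
  have h2 := h1.ctx hu hv
  have h3 := turn s x x p q
  have h4 := (turn (!s) x x p q).symm
  simp only [turned, Bool.not_not] at h3 h4
  exact ((h3.trans h2).trans h4).cast rfl rfl rfl

lemma change_cob {c e : List Bool} {w w' : Word} (h : Local ChangeRel c e w w') :
    Cob c e 0 2 0 w w' := by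
  cases h with
  | mk u a b v h h₁ h₂ =>
    cases h with
    | mk s x y p q =>
      rw [valid_append] at h₁
      obtain ⟨m', h₁, hv⟩ := h₁
      rw [valid_append] at h₁
      obtain ⟨m, hu, ha⟩ := h₁
      rw [valid_single] at ha
      obtain ⟨ha1, ha2⟩ := ha
      simp only [Slice.src, Slice.tgt, Gen.src, Gen.tgt] at ha1 ha2
      subst ha1 ha2
      have hc : Cob (p ++ [x, y] ++ q) (p ++ [y, x] ++ q) 0 2 0 [⟨p, cross s x y, q⟩]
          [⟨p, cross (!s) x y, q⟩] := by
        cases x <;> cases y
        · exact change_par s false p q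
        · exact change_anti s false p q
        · exact change_anti s true p q
        · exact change_par s true p q
      exact hc.ctx hu hv

/-- Every knot bounds a ribbon surface. -/
lemma exists_ribbon {K : Word} (hK : IsKnot K) : ∃ g, BoundsRibbon K g := by
  have key : ∀ w w' : Word, Homotopic w w' → w = w' ∨ ∃ k, Cob [true] [true] 0 (2 * k) 0 w w' := by
    intro w w' h
    induction h with
    | rel a b h =>
      right
      rcases h with h | h
      · exact ⟨0, (Cob.refl h.valid_left).iso (Or.inl h)⟩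
      · exact ⟨1, change_cob h⟩
    | refl _ => exact Or.inl rfl
    | symm _ _ _ ih =>
      rcases ih with rfl | ⟨k, h⟩
      · exact Or.inl rfl
      · exact Or.inr ⟨k, h.symm⟩
    | trans _ _ _ _ _ ih1 ih2 =>
      rcases ih1 with rfl | ⟨k, h⟩
      · exact ih2
      · rcases ih2 with rfl | ⟨k', h'⟩
        · exact Or.inr ⟨k, h⟩
        · exact Or.inr ⟨k + k', (h.trans h').cast rfl (by ring) rfl⟩
  rcases key K [] hK with rfl | ⟨k, h⟩
  · exact ⟨0, 0, Cob.refl (show [true] = [true] from rfl)⟩
  · exact ⟨k, 0, h.cast rfl (by ring) rfl⟩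

/-! ### The stable ribbon genus -/

lemma valid_nil : Valid [true] [] [true] := show [true] = [true] from rfl

/-- If `K` bounds a surface of genus `g` in normal form, then there is a ribbon knot `J` such that
the connected sum of `K` and `J` bounds a ribbon surface of genus `g`. -/
theorem exists_stabiliser {K : Word} (hK : IsKnot K) {g m : ℕ} (h : BoundsSurface K g m) :
    ∃ J : Word, IsKnot J ∧ Cob [true] [true] 0 (m + caps K) (m + caps K) J [] ∧
      BoundsRibbon (K ++ J) g := by
  obtain ⟨K', hK', h1, d, h2⟩ := h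
  refine ⟨adj K ++ K', hK.adj.append hK', ?_, d + caps K, ?_⟩
  · have h3 := h1.symm.ctx hK.valid.adj valid_nil
    simp only [List.append_nil] at h3
    exact (h3.trans (cob_adj'' hK.valid)).cast (by omega) (by omega) (by omega)
  · have h3 := (cob_adj' hK.valid).ctx valid_nil hK'.valid
    simp only [List.nil_append] at h3
    rw [List.append_assoc] at h3
    exact (h3.trans h2).cast (by omega) (by omega) (by omega)

/-- If the connected sum of `K` with a ribbon knot bounds a ribbon surface of genus `g` then `K`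
bounds a surface of genus `g`. -/
theorem of_stabiliser {K J : Word} (hK : IsKnot K) (hJ : IsKnot J) {g m : ℕ}
    (h1 : Cob [true] [true] 0 m m J []) (h2 : BoundsRibbon (K ++ J) g) : BoundsSurface K g m := by
  refine ⟨K ++ J, hK.append hJ, ?_, h2⟩
  have h3 := h1.symm.ctx hK.valid valid_nil
  simp only [List.append_nil] at h3
  exact h3

/-- The connected sum as an operation on knots. -/
def Knot.csum (K J : Knot) : Knot := ⟨K.1 ++ J.1, K.2.append J.2⟩

lemma boundsRibbon_ribbonGenus (K : Knot) : BoundsRibbon K.1 (ribbonGenus K.1) :=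
  Nat.sInf_mem (exists_ribbon K.2)

lemma boundsSurface_of_ribbon {K : Word} (hK : IsKnot K) {g : ℕ} (h : BoundsRibbon K g) :
    BoundsSurface K g 0 := ⟨K, hK, Cob.refl hK.valid, h⟩

lemma exists_sliceGenus (K : Knot) : ∃ m, BoundsSurface K.1 (sliceGenus K.1) m :=
  Nat.sInf_mem (s := {g | ∃ m, BoundsSurface K.1 g m})
    ⟨_, 0, boundsSurface_of_ribbon K.2 (boundsRibbon_ribbonGenus K)⟩

lemma sliceGenus_le_ribbonGenus (K : Knot) : sliceGenus K.1 ≤ ribbonGenus K.1 :=
  Nat.sInf_le ⟨0, boundsSurface_of_ribbon K.2 (boundsRibbon_ribbonGenus K)⟩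

lemma sliceGenus_le_of_concordance {K K' : Knot} (h : RibbonConcordance K'.1 K.1) :
    sliceGenus K.1 ≤ ribbonGenus K'.1 := by
  obtain ⟨m, h⟩ := h
  exact Nat.sInf_le ⟨m, K'.1, K'.2, h, boundsRibbon_ribbonGenus K'⟩

lemma ribbonGenus_le_of_concordance {K K' : Knot} (h : RibbonConcordance K'.1 K.1) :
    ribbonGenus K'.1 ≤ ribbonGenus K.1 := by
  obtain ⟨m, h⟩ := h
  obtain ⟨d, h1⟩ := boundsRibbon_ribbonGenus K
  exact Nat.sInf_le ⟨m + d, (h.symm.trans h1).cast (by omega) (by omega) (by omega)⟩

lemma csum_concordance (K J : Knot) (hJ : ribbonGenus J.1 = 0) :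
    RibbonConcordance (csum K.1 J.1) K.1 := by
  obtain ⟨d, h1⟩ := boundsRibbon_ribbonGenus J
  rw [hJ] at h1
  have h3 := h1.symm.ctx K.2.valid valid_nil
  simp only [List.append_nil] at h3
  exact ⟨d, h3.cast (by omega) (by omega) (by omega)⟩

/-- Some ribbon knot `J` makes the ribbon genus of the connected sum of `K` and `J` equal to the
slice genus of `K`. -/
lemma exists_stable (K : Knot) :
    ∃ J : Knot, ribbonGenus J.1 = 0 ∧ sliceGenus K.1 = ribbonGenus (csum K.1 J.1) := by
  obtain ⟨m, hm⟩ := exists_sliceGenus K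
  obtain ⟨J, hJ, h1, h2⟩ := exists_stabiliser K.2 hm
  have h0 : ribbonGenus J = 0 := by
    have : ribbonGenus J ≤ 0 := Nat.sInf_le ⟨m + caps K.1, h1.cast rfl (by omega) rfl⟩
    omega
  refine ⟨⟨J, hJ⟩, h0, le_antisymm ?_ (Nat.sInf_le h2)⟩
  exact sliceGenus_le_of_concordance (K := K) (K' := K.csum ⟨J, hJ⟩)
    (csum_concordance K ⟨J, hJ⟩ h0)

end Pool.Agent.Lib.MP_177a0e_gt.Tangle
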