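import Pool.Agent.Lib.MP_177a0e_gt.Bands

/-!
Band moves between knots, the ribbon genus and the slice genus.
-/

namespace Pool.Agent.Lib.MP_177a0e_gt

open Equiv

/-! ### Band moves and surfaces -/

/-- If a knot `J` bounds a ribbon surface of genus `g` and `m + 2 k` bands turn `J` into the split
union of the knot `L` with `m` circles then `L` bounds a surface of genus `g + k` with `m` maxima. -/
theorem bounds_of_bands {J L : Knot} {g k m : ℕ} (h : BoundsSurface J.1 g 0)
    (hb : Bands (m + 2 * k) J.1 (unlinked L.1 m)) : BoundsSurface L.1 (g + k) m := by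
  obtain ⟨n, bs, hbs, hc, hiso, hlen⟩ := h
  obtain ⟨p, α, cs, hα, hcs, hm, hi1, hi2⟩ := hb
  have h1 : Isotopic (n, bs.prod) (p, α) := hiso.trans hi1.symm
  obtain ⟨d, bs', cs', h21, h22, h23, h24, h25, h26⟩ := glue hbs hcs h1
  have hk : comps d (perm bs'.prod) = 1 := by
    have := comps_isotopic (h25.trans hi1)
    dsimp only at this
    rw [this]; exact J.2.2
  refine ⟨d, bs' ++ cs', ?_, (connected_of_knot hk).mono (by simp +contextual), ?_, ?_⟩
  · intro b hb
    rw [List.mem_append] at hb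
    rcases hb with hb | hb
    · exact h21 b hb
    · exact h22 b hb
  · rw [List.prod_append]; exact h26.trans hi2
  · rw [List.length_append]; omega

/-- `2 k` bands raise the genus of ribbon surfaces by at most `k`. -/
theorem ribbon_of_bands {J L : Knot} {g k : ℕ} (h : BoundsSurface J.1 g 0)
    (hb : Bands (2 * k) J.1 L.1) : BoundsSurface L.1 (g + k) 0 :=
  bounds_of_bands (m := 0) h (by rw [zero_add]; exact hb)

/-- `2 k` bands raise the genus of surfaces by at most `k`. -/
theorem surface_of_bands {J L : Knot} {g k : ℕ} (h : ∃ m, BoundsSurface J.1 g m)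
    (hb : Bands (2 * k) J.1 L.1) : ∃ m, BoundsSurface L.1 (g + k) m := by
  obtain ⟨J', hJ', h1⟩ := (boundsSurface_iff J g).mp h
  obtain ⟨m, hm⟩ := ribbonConcordance_iff.mp hJ'
  exact ⟨m, bounds_of_bands h1 (hm.trans (hb.unlinked m))⟩

/-- A ribbon surface of genus `g` is made of a ribbon disk and `2 g` bands. -/
theorem split_ribbon {K : Knot} {g : ℕ} (h : BoundsSurface K.1 g 0) :
    ∃ J : Knot, BoundsSurface J.1 0 0 ∧ Bands (2 * g) K.1 J.1 := by
  obtain ⟨n, bs, hbs, hc, hiso, hlen⟩ := h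
  have hK : comps n (perm (1 * bs.prod)) = 1 := by
    have := comps_isotopic hiso
    dsimp only [unlinked] at this
    rw [one_mul, this]
    exact K.2.2
  obtain ⟨ts, cs, h1, h2, h3, h4, h5, h6⟩ := tree_knot (B n).one_mem hbs hK
  rw [one_mul] at h5
  rw [map_one, comps_one] at h6
  refine ⟨⟨(n, ts.prod), prod_mem h1, h5⟩, ⟨n, ts, h1, connected_of_knot h5, Isotopic.refl _, by omega⟩, ?_⟩
  apply Bands.symm
  refine ⟨n, ts.prod, cs, prod_mem h1, h2, by omega, Isotopic.refl _, ?_⟩
  rw [← h3]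
  exact hiso

/-- Band moves between knots can be interpolated by knots. -/
theorem interpolate {K J : Knot} {g : ℕ} (h : Bands (2 * (g + 1)) K.1 J.1) :
    ∃ L : Knot, Bands 2 K.1 L.1 ∧ Bands (2 * g) L.1 J.1 := by
  obtain ⟨n, α, cs, hα, hcs, hk, h1, h2⟩ := h
  have hK : comps n (perm α) = 1 := by
    have := comps_isotopic h1
    dsimp only at this
    rw [this]; exact K.2.2
  have hJ : comps n (perm (α * cs.prod)) = 1 := by
    have := comps_isotopic h2
    dsimp only at this
    rw [this]; exact J.2.2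
  obtain ⟨c, l, rfl⟩ : ∃ c l, cs = c :: l := by
    cases cs with
    | nil => simp at hk
    | cons c l => exact ⟨c, l, rfl⟩
  have hc : IsBand n c := hcs c (by simp)
  have hl : ∀ b ∈ l, IsBand n b := fun b hb => hcs b (by simp [hb])
  obtain ⟨x, y, hx, hy, hxy, hcp⟩ := hc.perm
  have hsplit := comps_split (perm_below hα) hx hy hxy (sameCycle_of_comps hK hx hy)
  have hβ : α * c ∈ B n := (B n).mul_mem hα hc.mem
  have hcomp : comps n (perm (α * c)) = 2 := by
    rw [map_mul, hcp, hsplit, hK]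
  rw [List.prod_cons, ← mul_assoc] at hJ h2
  obtain ⟨ts, cs', g1, g2, g3, g4, g5, g6⟩ := tree_knot hβ hl hJ
  have hts : ts.length = 1 := by omega
  have hmem : α * c * ts.prod ∈ B n := (B n).mul_mem hβ (prod_mem g1)
  simp only [List.length_cons] at hk
  refine ⟨⟨(n, α * c * ts.prod), hmem, g5⟩, ?_, ?_⟩
  · refine ⟨n, α, c :: ts, hα, ?_, by simp [hts], h1, ?_⟩
    · intro b hb
      rw [List.mem_cons] at hb
      rcases hb with rfl | hb
      · exact hc
      · exact g1 b hb
    · rw [List.prod_cons, ← mul_assoc]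
      exact Isotopic.refl _
  · refine ⟨n, α * c * ts.prod, cs', hmem, g2, by omega, Isotopic.refl _, ?_⟩
    rw [mul_assoc (α * c), ← g3]
    exact h2

/-! ### The genera -/

lemma ribbon_spec (K : Knot) : BoundsSurface K.1 (ribbonGenus K.1) 0 := Nat.sInf_mem (exists_ribbon K)

lemma ribbonGenus_le {K : Knot} {g : ℕ} (h : BoundsSurface K.1 g 0) : ribbonGenus K.1 ≤ g :=
  Nat.sInf_le h

lemma slice_spec (K : Knot) : ∃ m, BoundsSurface K.1 (sliceGenus K.1) m := by
  have hne : {g | ∃ m, BoundsSurface K.1 g m}.Nonempty := ⟨_, 0, ribbon_spec K⟩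
  exact Nat.sInf_mem hne

lemma sliceGenus_le {K : Knot} {g : ℕ} (h : ∃ m, BoundsSurface K.1 g m) : sliceGenus K.1 ≤ g :=
  Nat.sInf_le h

lemma sliceGenus_le_ribbonGenus (K : Knot) : sliceGenus K.1 ≤ ribbonGenus K.1 :=
  sliceGenus_le ⟨0, ribbon_spec K⟩

lemma bandGenus_nonempty (K : Knot) :
    {g | ∃ J : Knot, sliceGenus J.1 = 0 ∧ Bands (2 * g) K.1 J.1}.Nonempty := by
  obtain ⟨J, h1, h2⟩ := split_ribbon (ribbon_spec K)
  exact ⟨_, J, Nat.le_zero.mp (sliceGenus_le ⟨0, h1⟩), h2⟩

lemma bandGenus_spec (K : Knot) :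
    ∃ J : Knot, sliceGenus J.1 = 0 ∧ Bands (2 * bandGenus K.1) K.1 J.1 :=
  Nat.sInf_mem (bandGenus_nonempty K)

lemma bandGenus_le {K J : Knot} {g : ℕ} (hJ : sliceGenus J.1 = 0) (h : Bands (2 * g) K.1 J.1) :
    bandGenus K.1 ≤ g := Nat.sInf_le ⟨J, hJ, h⟩

lemma bandGenus_le_ribbonGenus (K : Knot) : bandGenus K.1 ≤ ribbonGenus K.1 := by
  obtain ⟨J, h1, h2⟩ := split_ribbon (ribbon_spec K)
  exact bandGenus_le (Nat.le_zero.mp (sliceGenus_le ⟨0, h1⟩)) h2

lemma sliceGenus_le_of_bands {K J : Knot} {k : ℕ} (h : Bands (2 * k) J.1 K.1) :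
    sliceGenus K.1 ≤ sliceGenus J.1 + k := sliceGenus_le (surface_of_bands (slice_spec J) h)

lemma ribbonGenus_le_of_bands {K J : Knot} {k : ℕ} (h : Bands (2 * k) J.1 K.1) :
    ribbonGenus K.1 ≤ ribbonGenus J.1 + k := ribbonGenus_le (ribbon_of_bands (ribbon_spec J) h)

lemma sliceGenus_le_bandGenus (K : Knot) : sliceGenus K.1 ≤ bandGenus K.1 := by
  obtain ⟨J, h1, h2⟩ := bandGenus_spec K
  have := sliceGenus_le_of_bands h2.symm
  omega

/-- The slice genus of a knot is at most the slice genus of a knot from which there is a ribbon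
concordance to it. -/
lemma sliceGenus_le_of_ribbonConcordance {K K' : Knot} (h : RibbonConcordance K'.1 K.1) :
    sliceGenus K.1 ≤ sliceGenus K'.1 := by
  obtain ⟨K'', h1, h2⟩ := (boundsSurface_iff K' _).mp (slice_spec K')
  obtain ⟨m, hm⟩ := ribbonConcordance_iff.mp h1
  obtain ⟨p, hp⟩ := ribbonConcordance_iff.mp h
  have h3 : Bands (m + p) K''.1 (unlinked K.1 (m + p)) := by
    have h4 := hm.trans (hp.unlinked m)
    have e : unlinked (unlinked K.1 p) m = unlinked K.1 (m + p) := by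
      unfold unlinked
      dsimp only
      rw [add_assoc, add_comm p m]
    rwa [e] at h4
  exact sliceGenus_le ((boundsSurface_iff K _).mpr ⟨K'', ribbonConcordance_iff.mpr ⟨_, h3⟩, h2⟩)

end Pool.Agent.Lib.MP_177a0e_gt
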