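import Pool.Agent.Lib.MP_177a0e_gt.TangleRev

/-!
Stabilisation with mirror pairs: one sequence of mirror pairs for all knots, and the number of maxima
of a surface compared with the fusion number of a stabilising ribbon knot, in the movie model.
-/

namespace Pool.Agent.Lib.MP_177a0e_gt.Tangle

open Gen

/-! ### Knots are countable -/

/-- An injective code of an elementary piece. -/
def Gen.code : Gen → ℕ × Bool × Bool × Bool
  | cup x => (0, x, false, false)
  | cap x => (1, x, false, false)
  | cross s x y => (2, s, x, y)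

lemma Gen.code_injective : Function.Injective Gen.code := by
  intro a b h
  cases a <;> cases b <;> simp_all [Gen.code]

instance : Countable Gen := Gen.code_injective.countable

instance : Countable Slice := by
  have h : Function.Injective (fun s : Slice => (s.left, s.gen, s.right)) := by
    intro a b h
    cases a
    cases b
    simp_all
  exact h.countable

/-- The trivial knot. -/
def trivialKnot : Knot := ⟨[], Relation.EqvGen.refl _⟩

/-! ### Handles -/

/-- A handle can be added to a ribbon surface. -/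
lemma boundsRibbon_succ {K : Word} {g : ℕ} (h : BoundsRibbon K g) : BoundsRibbon K (g + 1) := by
  obtain ⟨d, h⟩ := h
  have h1 := circle_saddle true [true] [] (by simp)
  have h2 := h1.trans h1.symm
  exact ⟨d, (h.trans h2).cast rfl (by ring) rfl⟩

lemma boundsRibbon_mono {K : Word} {g g' : ℕ} (h : BoundsRibbon K g) (hg : g ≤ g') :
    BoundsRibbon K g' := by
  induction g', hg using Nat.le_induction with
  | base => exact h
  | succ k _ ih => exact boundsRibbon_succ ih

lemma boundsRibbon_of_le (K : Knot) {g : ℕ} (h : ribbonGenus K.1 ≤ g) : BoundsRibbon K.1 g :=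
  boundsRibbon_mono (boundsRibbon_ribbonGenus K) h

/-! ### One sequence of mirror pairs for all knots -/

/-- If `K'` is as in the normal form of a surface of genus `g` bounded by `K` and `A` is any knot then
with `B = A # (-A # -K')` the connected sum `K # B # -B` bounds a ribbon surface of genus `g`. -/
lemma boundsRibbon_absorb {K A K' : Word} (hK : IsKnot K) (hA : IsKnot A) (hK' : IsKnot K') {m g : ℕ}
    (h1 : Cob [true] [true] m m 0 K K') (h2 : BoundsRibbon K' g) :
    BoundsRibbon (K ++ ((A ++ (adj A ++ adj K')) ++ adj (A ++ (adj A ++ adj K')))) g := by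
  obtain ⟨d, h2⟩ := h2
  obtain ⟨k, h3⟩ := boundsRibbon_mirror_top hK h1
  have ha := cob_adj' hA.valid
  -- remove the first pair `A # -A`
  have e1 := ha.ctx hK.valid ((hK'.adj.append ((hK'.append hA).append hA.adj)).valid)
  -- remove the last pair `A # -A`
  have e2 := ha.ctx (hK.append (hK'.adj.append hK')).valid valid_nil
  -- remove `K # -K'`
  have e3 := h3.ctx (u := []) valid_nil hK'.valid
  simp only [List.append_nil, List.nil_append, adj_append, adj_adj, List.append_assoc] at e1 e2 e3 ⊢
  exact ⟨caps A + caps A + k + d, (((e1.trans e2).trans e3).trans h2).cast rfl (by omega) (by omega)⟩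

/-- Enlarging `A` does not increase the ribbon genus of `K # A # -A`. -/
lemma boundsRibbon_enlarge {K A J : Word} (hK : IsKnot K) (hA : IsKnot A) (hJ : IsKnot J) {g : ℕ}
    (h : BoundsRibbon (K ++ (A ++ adj A)) g) :
    BoundsRibbon (K ++ ((A ++ J) ++ adj (A ++ J))) g := by
  obtain ⟨d, h⟩ := h
  have e1 := (cob_adj' hJ.valid).ctx (hK.append hA).valid hA.adj.valid
  simp only [List.append_nil, adj_append, List.append_assoc] at e1 h ⊢
  exact ⟨caps J + d, (e1.trans h).cast rfl (by omega) (by omega)⟩

/-- The knot `K # A # -A`. -/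
def pairSum (K A : Knot) : Knot := K.csum (A.csum A.mirror)

lemma ribbonGenus_enlarge (K A J : Knot) :
    ribbonGenus (pairSum K (A.csum J)).1 ≤ ribbonGenus (pairSum K A).1 :=
  Nat.sInf_le (boundsRibbon_enlarge K.2 A.2 J.2 (boundsRibbon_ribbonGenus (pairSum K A)))

/-- One sequence of mirror pairs for all knots. -/
theorem exists_universal : ∃ A : ℕ → Knot, (∀ n, ∃ J : Knot, A (n + 1) = (A n).csum J) ∧
    ∀ K : Knot, ∃ N : ℕ, ∀ n, N ≤ n → ribbonGenus (pairSum K (A n)).1 = sliceGenus K.1 := by
  have : Nonempty Knot := ⟨trivialKnot⟩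
  obtain ⟨e, he⟩ := exists_surjective_nat Knot
  have htop : ∀ K : Knot, ∃ K' : Knot, ∃ m : ℕ, Cob [true] [true] m m 0 K.1 K'.1 ∧
      BoundsRibbon K'.1 (sliceGenus K.1) := by
    intro K
    obtain ⟨m, K', hK', h1, h2⟩ := exists_sliceGenus K
    exact ⟨⟨K', hK'⟩, m, h1, h2⟩
  choose top m h1 h2 using htop
  let A : ℕ → Knot := fun n => Nat.rec trivialKnot
    (fun n B => B.csum (B.mirror.csum (top (e n)).mirror)) n
  have hA : ∀ n, A (n + 1) = (A n).csum ((A n).mirror.csum (top (e n)).mirror) := fun n => rfl
  refine ⟨A, fun n => ⟨_, hA n⟩, ?_⟩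
  intro K
  obtain ⟨i, rfl⟩ := he K
  have hmono : ∀ n, i + 1 ≤ n → ribbonGenus (pairSum (e i) (A n)).1 ≤ sliceGenus (e i).1 := by
    intro n hn
    induction n, hn using Nat.le_induction with
    | base =>
      rw [hA i]
      exact Nat.sInf_le (boundsRibbon_absorb (e i).2 (A i).2 (top (e i)).2 (h1 (e i)) (h2 (e i)))
    | succ k _ ih =>
      rw [hA k]
      exact (ribbonGenus_enlarge (e i) (A k) _).trans ih
  exact ⟨i + 1, fun n hn => le_antisymm (hmono n hn) (sliceGenus_le_mirrorPair (e i) (A n))⟩

/-! ### The number of maxima and the fusion number of a stabilising ribbon knot -/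

/-- The fusion number of a ribbon knot: the least `f` such that going inwards from `R` there is a movie
without births, with `f` saddles and `f` deaths, to the trivial knot (a ribbon disk with `f + 1`
minima). -/
noncomputable def fusion (R : Word) : ℕ := sInf {f | Cob [true] [true] 0 f f R []}

lemma fusion_mem {R : Word} (h : BoundsRibbon R 0) : Cob [true] [true] 0 (fusion R) (fusion R) R [] := by
  obtain ⟨d, h⟩ := h
  exact Nat.sInf_mem (s := {f | Cob [true] [true] 0 f f R []}) ⟨d, h⟩

/-- A diagram of a knot which realises the bridge number. -/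
lemma exists_bridge (K : Knot) : ∃ L : Word, Cob [true] [true] 0 0 0 K.1 L ∧ bridge K.1 = caps L + 1 := by
  have hne : {k | ∃ J' : Word, Cob [true] [true] 0 0 0 K.1 J' ∧ k = caps J' + 1}.Nonempty :=
    ⟨_, K.1, Cob.refl K.2.valid, rfl⟩
  obtain ⟨L, hL, hb⟩ := Nat.sInf_mem hne
  exact ⟨L, hL, hb⟩

/-- If `K` bounds a surface of genus `g` with `n` minima and `m` maxima then, with `b` one less than
the bridge number of `K`, there is a ribbon knot `R` of fusion number at most `m + b` such that
`K # R` bounds a ribbon surface of genus `g` with `n + b` minima. -/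
theorem stabiliser {K : Knot} {g n m : ℕ} (h : BoundsSurfaceExt K.1 g n m) :
    ∃ R : Knot, ribbonGenus R.1 = 0 ∧ fusion R.1 + 1 ≤ m + bridge K.1 ∧
      BoundsSurfaceExt (csum K.1 R.1) g (n + (bridge K.1 - 1)) 0 := by
  obtain ⟨K', hK', h1, d, rfl, h2⟩ := h
  obtain ⟨L, hL, hb⟩ := exists_bridge K
  have hLv : Valid [true] L [true] := hL.valid.2
  have hR : Cob [true] [true] 0 (m + caps L) (m + caps L) (adj K.1 ++ K') [] := by
    have e1 := (h1.symm.trans hL).ctx K.2.adj.valid valid_nil
    have e2 := hL.adj.ctx (u := []) valid_nil hLv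
    simp only [List.append_nil, List.nil_append] at e1 e2
    exact ((e1.trans e2).trans (cob_adj'' hLv)).cast (by omega) (by omega) (by omega)
  refine ⟨⟨adj K.1 ++ K', K.2.adj.append hK'⟩, ?_, ?_, ?_⟩
  · have : ribbonGenus (adj K.1 ++ K') ≤ 0 := Nat.sInf_le ⟨m + caps L, hR⟩
    exact Nat.le_zero.1 this
  · have : fusion (adj K.1 ++ K') ≤ m + caps L := Nat.sInf_le hR
    rw [hb]
    change fusion (adj K.1 ++ K') + 1 ≤ _
    omega
  · refine ⟨K.1 ++ (adj K.1 ++ K'), K.2.append (K.2.adj.append hK'),
      Cob.refl (K.2.append (K.2.adj.append hK')).valid, d + caps L, ?_, ?_⟩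
    · rw [hb]; omega
    · have e1 := hL.ctx (u := []) valid_nil (K.2.adj.append hK').valid
      have e2 := hL.adj.ctx hLv hK'.valid
      have e3 := (cob_adj' hLv).ctx (u := []) valid_nil hK'.valid
      simp only [List.append_nil, List.nil_append, List.append_assoc] at e1 e2 e3
      exact (((e1.trans e2).trans e3).trans h2).cast (by omega) (by omega) (by omega)

/-- If `R` is a ribbon knot of fusion number `f` and `K # R` bounds a ribbon surface of genus `g` with
`n` minima then `K` bounds a surface of genus `g` with `n` minima and `f` maxima. -/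
theorem of_stabiliser_ext {K R : Knot} {g n : ℕ} (hR : ribbonGenus R.1 = 0)
    (h : BoundsSurfaceExt (csum K.1 R.1) g n 0) : BoundsSurfaceExt K.1 g n (fusion R.1) := by
  have h0 : BoundsRibbon R.1 0 := by
    have := boundsRibbon_ribbonGenus R
    rwa [hR] at this
  obtain ⟨K', hK', h1, d, rfl, h2⟩ := h
  refine ⟨K', hK', ?_, d, rfl, h2⟩
  have h3 := (fusion_mem h0).symm.ctx K.2.valid valid_nil
  simp only [List.append_nil] at h3
  exact (h3.trans h1).cast (by omega) (by omega) (by omega)

/-- Mirror pairs do not lower the slice genus. -/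
lemma sliceGenus_le_pair (K J : Knot) : sliceGenus K.1 ≤ sliceGenus (K.csum (J.csum J.mirror)).1 := by
  obtain ⟨m, K', hK', h1, h2⟩ := exists_sliceGenus (K.csum (J.csum J.mirror))
  refine Nat.sInf_le ⟨caps J.1 + m, K', hK', ?_, h2⟩
  have h3 := (cob_adj' J.2.valid).symm.ctx K.2.valid valid_nil
  simp only [List.append_nil] at h3
  exact (h3.trans h1).cast rfl rfl rfl

/-- The slice genus is the greatest lower bound of the ribbon genus which mirror pairs do not lower. -/
theorem isGreatest_sliceGenus :
    IsGreatest {f : Knot → ℝ | (∀ K : Knot, f K ≤ ribbonGenus K.1) ∧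
      ∀ K J : Knot, f K ≤ f (K.csum (J.csum J.mirror))} (fun K => (sliceGenus K.1 : ℝ)) := by
  refine ⟨⟨fun K => Nat.cast_le.2 (sliceGenus_le_ribbonGenus K),
    fun K J => Nat.cast_le.2 (sliceGenus_le_pair K J)⟩, ?_⟩
  rintro f ⟨h1, h2⟩ K
  obtain ⟨J, hJ⟩ := exists_mirrorPair K
  refine ((h2 K J).trans (h1 _)).trans ?_
  change _ ≤ (sliceGenus K.1 : ℝ)
  rw [hJ]
  exact le_refl _

end Pool.Agent.Lib.MP_177a0e_gt.Tangle
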