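import Pool.Agent.Lib.MP_177a0e_gt.Braids

namespace Pool.Agent.Lib.MP_177a0e_gt

open Equiv

/-! ### Transport of bands along stabilisations -/

lemma prod_map_conj (γ : Braid) (bs : List Braid) :
    (bs.map (fun b => γ * b * γ⁻¹)).prod = γ * bs.prod * γ⁻¹ := by
  induction bs with
  | nil => simp
  | cons b bs ih => rw [List.map_cons, List.prod_cons, List.prod_cons, ih]; group

lemma bands_map_conj {n : ℕ} {γ : Braid} (hγ : γ ∈ B n) {bs : List Braid}
    (h : ∀ b ∈ bs, IsBand n b) : ∀ b ∈ bs.map (fun b => γ * b * γ⁻¹), IsBand n b := by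
  intro b hb
  rw [List.mem_map] at hb
  obtain ⟨c, hc, rfl⟩ := hb
  exact (h c hc).conj hγ

lemma bands_mono {n m : ℕ} (hnm : n ≤ m) {bs : List Braid}
    (h : ∀ b ∈ bs, IsBand n b) : ∀ b ∈ bs, IsBand m b := fun b hb => (h b hb).mono hnm

/-- Bands added to a closed braid can be carried along a stabilisation. -/
lemma transport_add_up {K L : Rep} (h : Up K L) {cs : List Braid} (hcs : ∀ c ∈ cs, IsBand K.1 c) :
    ∃ cs' : List Braid, (∀ c ∈ cs', IsBand L.1 c) ∧ cs'.length = cs.length ∧
      Up (K.1, K.2 * cs.prod) (L.1, L.2 * cs'.prod) := by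
  cases h with
  | @conj n β γ hβ hγ =>
    refine ⟨cs.map (fun b => γ * b * γ⁻¹), bands_map_conj hγ hcs, by simp, ?_⟩
    have := Up.conj ((B n).mul_mem hβ (prod_mem hcs)) hγ
    convert this using 2
    show γ * β * γ⁻¹ * (cs.map (fun b => γ * b * γ⁻¹)).prod = _
    rw [prod_map_conj]; group
  | @stab n β γ δ ε hβ hγ hδ =>
    have hs : sgn ε (σ n) ∈ B (n+2) := sgn_mem (σ_mem (by omega))
    have hη : δ * (sgn ε (σ n))⁻¹ * γ ∈ B (n+2) :=
      (B _).mul_mem ((B _).mul_mem hδ ((B _).inv_mem hs)) (B_mono (by omega) hγ)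
    refine ⟨cs.map (fun b => (δ * (sgn ε (σ n))⁻¹ * γ) * b * (δ * (sgn ε (σ n))⁻¹ * γ)⁻¹),
      bands_map_conj hη (bands_mono (by simp) hcs), by simp, ?_⟩
    have := Up.stab ε ((B _).mul_mem hβ (prod_mem hcs)) hγ hδ
    convert this using 2
    show δ * (γ * β * γ⁻¹ * sgn ε (σ n)) * δ⁻¹ *
      (cs.map (fun b => (δ * (sgn ε (σ n))⁻¹ * γ) * b * (δ * (sgn ε (σ n))⁻¹ * γ)⁻¹)).prod = _
    rw [prod_map_conj]; group

lemma transport_add {K L : Rep} (h : Relation.ReflTransGen Up K L) {cs : List Braid}
    (hcs : ∀ c ∈ cs, IsBand K.1 c) :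
    ∃ cs' : List Braid, (∀ c ∈ cs', IsBand L.1 c) ∧ cs'.length = cs.length ∧
      Relation.ReflTransGen Up (K.1, K.2 * cs.prod) (L.1, L.2 * cs'.prod) := by
  induction h with
  | refl => exact ⟨cs, hcs, rfl, Relation.ReflTransGen.refl⟩
  | tail _ h2 ih =>
    obtain ⟨cs1, h11, h12, h13⟩ := ih
    obtain ⟨cs2, h21, h22, h23⟩ := transport_add_up h2 h11
    exact ⟨cs2, h21, h22.trans h12, h13.tail h23⟩

/-- A product of bands remains one under a stabilisation. -/
lemma transport_prod_up {K L : Rep} (h : Up K L) {bs : List Braid} (hbs : ∀ b ∈ bs, IsBand K.1 b)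
    (hK : K.2 = bs.prod) :
    ∃ bs' : List Braid, (∀ b ∈ bs', IsBand L.1 b) ∧ L.2 = bs'.prod ∧
      bs'.length + K.1 = bs.length + L.1 := by
  cases h with
  | @conj n β γ hβ hγ =>
    refine ⟨bs.map (fun b => γ * b * γ⁻¹), bands_map_conj hγ hbs, ?_, by simp⟩
    rw [prod_map_conj, ← hK]
  | @stab n β γ δ ε hβ hγ hδ =>
    have hη : δ * γ ∈ B (n+2) := (B _).mul_mem hδ (B_mono (by omega) hγ)
    refine ⟨bs.map (fun b => (δ * γ) * b * (δ * γ)⁻¹) ++ [δ * sgn ε (σ n) * δ⁻¹], ?_, ?_, ?_⟩
    · intro b hb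
      rw [List.mem_append, List.mem_singleton] at hb
      rcases hb with hb | rfl
      · exact bands_map_conj hη (bands_mono (by simp) hbs) b hb
      · exact (sgn_band (by omega)).conj hδ
    · rw [List.prod_append, prod_map_conj, ← hK]
      show δ * (γ * β * γ⁻¹ * sgn ε (σ n)) * δ⁻¹ = _
      simp only [List.prod_cons, List.prod_nil]
      group
    · simp only [List.length_append, List.length_map, List.length_singleton]
      ring

lemma transport_prod {K L : Rep} (h : Relation.ReflTransGen Up K L) {bs : List Braid}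
    (hbs : ∀ b ∈ bs, IsBand K.1 b) (hK : K.2 = bs.prod) :
    ∃ bs' : List Braid, (∀ b ∈ bs', IsBand L.1 b) ∧ L.2 = bs'.prod ∧
      bs'.length + K.1 = bs.length + L.1 := by
  induction h with
  | refl => exact ⟨bs, hbs, hK, rfl⟩
  | @tail M L _ h2 ih =>
    obtain ⟨bs1, h11, h12, h13⟩ := ih
    obtain ⟨bs2, h21, h22, h23⟩ := transport_prod_up h2 h11 h12
    exact ⟨bs2, h21, h22, by omega⟩

lemma iso_of_ups {K L : Rep} (h : Relation.ReflTransGen Up K L) : Isotopic K L := by
  induction h with
  | refl => exact Isotopic.refl _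
  | tail _ h2 ih => exact ih.trans (iso_of_up h2)

/-- If a ribbon surface is bounded by `L` and bands added to `K ≃ L` give `M`, then the ribbon
surface with the bands added is bounded by `M`. -/
theorem glue {n p : ℕ} {bs cs : List Braid} {α : Braid} (hbs : ∀ b ∈ bs, IsBand n b)
    (hcs : ∀ c ∈ cs, IsBand p c) (h : Isotopic (n, bs.prod) (p, α)) :
    ∃ (d : ℕ) (bs' cs' : List Braid), (∀ b ∈ bs', IsBand d b) ∧ (∀ c ∈ cs', IsBand d c) ∧
      bs'.length + n = bs.length + d ∧ cs'.length = cs.length ∧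
      Isotopic (d, bs'.prod) (p, α) ∧ Isotopic (d, bs'.prod * cs'.prod) (p, α * cs.prod) := by
  obtain ⟨⟨d, δ⟩, h1, h2⟩ := common_stab h
  obtain ⟨bs', hb1, hb2, hb3⟩ := transport_prod h1 hbs rfl
  obtain ⟨cs', hc1, hc2, hc3⟩ := transport_add h2 hcs
  dsimp only at hb1 hb2 hb3 hc1 hc2 hc3
  refine ⟨d, bs', cs', hb1, hc1, hb3, hc2, ?_, ?_⟩
  · rw [← hb2]; exact (iso_of_ups h2).symm
  · rw [← hb2]; exact (iso_of_ups hc3).symm

/-! ### Connected surfaces and the permutation of the boundary -/

/-- The relation between disks generated by the bands. -/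
def Joined (bs : List Braid) : Setoid ℕ :=
  Relation.EqvGen.setoid (fun u v => ∃ b ∈ bs, perm b u = v)

lemma joined_step {bs : List Braid} {b : Braid} (hb : b ∈ bs) (x : ℕ) :
    Joined bs x (perm b x) := Relation.EqvGen.rel _ _ ⟨b, hb, rfl⟩

lemma joined_le {bs : List Braid} (T : Setoid ℕ) (h : ∀ b ∈ bs, ∀ x, T x (perm b x)) {x y : ℕ}
    (hxy : Joined bs x y) : T x y := by
  have h1 : Relation.EqvGen (fun u v => ∃ b ∈ bs, perm b u = v) x y := hxy
  induction h1 with
  | rel x y h' => obtain ⟨b, hb, rfl⟩ := h'; exact h b hb x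
  | refl x => exact T.refl x
  | symm x y _ ih => exact T.symm (ih ‹_›)
  | trans x y z _ _ ih1 ih2 => exact T.trans (ih1 ‹_›) (ih2 ‹_›)

lemma joined_mono {bs cs : List Braid} (h : ∀ b ∈ bs, b ∈ cs) {x y : ℕ} (hxy : Joined bs x y) :
    Joined cs x y := joined_le (Joined cs) (fun b hb x => joined_step (h b hb) x) hxy

lemma joined_prod (bs : List Braid) (x : ℕ) : Joined bs x (perm bs.prod x) := by
  induction bs with
  | nil => simp only [List.prod_nil, map_one]; exact (Joined []).refl x
  | cons b bs ih =>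
    rw [List.prod_cons, map_mul, Perm.mul_apply]
    exact (Joined (b :: bs)).trans (joined_mono (fun c hc => List.mem_cons_of_mem b hc) ih)
      (joined_step List.mem_cons_self _)

lemma joined_prod_inv (bs : List Braid) (x : ℕ) : Joined bs x ((perm bs.prod)⁻¹ x) := by
  have := joined_prod bs ((perm bs.prod)⁻¹ x)
  rw [← Perm.mul_apply, mul_inv_cancel, Perm.one_apply] at this
  exact (Joined bs).symm this

lemma joined_of_cyc {bs : List Braid} {x y : ℕ} (h : cyc (perm bs.prod) x y) : Joined bs x y :=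
  sameCycle_le _ (joined_prod bs) h

lemma connected_iff {n : ℕ} {bs : List Braid} :
    ConnectedSurface n bs ↔ ∀ x y : ℕ, x < n → y < n → Joined bs x y := Iff.rfl

lemma connected_of_knot {n : ℕ} {bs : List Braid} (h : comps n (perm bs.prod) = 1) :
    ConnectedSurface n bs := fun _ _ hx hy => joined_of_cyc (sameCycle_of_comps h hx hy)

lemma ConnectedSurface.mono {n : ℕ} {bs cs : List Braid} (h : ConnectedSurface n bs)
    (hsub : ∀ b ∈ bs, b ∈ cs) : ConnectedSurface n cs :=
  fun x y hx hy => joined_mono hsub (h x y hx hy)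

/-- Deleting a suitable band from a connected surface with at least two boundary components keeps
it connected and merges two boundary components. -/
theorem deletion {n : ℕ} {bs : List Braid} (hbs : ∀ b ∈ bs, IsBand n b)
    (hc : ConnectedSurface n bs) (h2 : 2 ≤ comps n (perm bs.prod)) :
    ∃ (bs' : List Braid) (c : Braid), (∀ b ∈ bs', IsBand n b) ∧ IsBand n c ∧
      ConnectedSurface n bs' ∧ bs'.length + 1 = bs.length ∧ bs.prod = bs'.prod * c ∧
      comps n (perm bs.prod) = comps n (perm bs'.prod) + 1 := by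
  set π := perm bs.prod with hπ
  have hπB : Below n π := perm_below (prod_mem hbs)
  -- there is a band whose deletion merges two cycles
  have key : ∃ (u : List Braid) (b : Braid) (v : List Braid), bs = u ++ b :: v ∧
      ∃ x y : ℕ, x < n ∧ y < n ∧ x ≠ y ∧ perm b = Equiv.swap x y ∧
        ¬ π.SameCycle ((perm v.prod)⁻¹ x) ((perm v.prod)⁻¹ y) := by
    by_contra hcon
    push Not at hcon
    have h1 : ∀ v u : List Braid, bs = u ++ v → ∀ z, cyc π z ((perm v.prod)⁻¹ z) := by
      intro v
      induction v with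
      | nil => intro u _ z; simp only [List.prod_nil, map_one, inv_one]; exact (cyc π).refl z
      | cons b v ih =>
        intro u hu z
        obtain ⟨x, y, hx, hy, hxy, hb⟩ := (hbs b (by rw [hu]; simp)).perm
        have h3 : cyc π ((perm v.prod)⁻¹ x) ((perm v.prod)⁻¹ y) := hcon u b v hu x y hx hy hxy hb
        have h4 := ih (u ++ [b]) (by rw [hu]; simp)
        rw [List.prod_cons, map_mul, mul_inv_rev, Perm.mul_apply, hb, Equiv.swap_inv]
        by_cases hzx : z = x
        · rw [hzx, Equiv.swap_apply_left]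
          exact (cyc π).trans (h4 x) h3
        · by_cases hzy : z = y
          · rw [hzy, Equiv.swap_apply_right]
            exact (cyc π).trans (h4 y) ((cyc π).symm h3)
          · rw [Equiv.swap_apply_of_ne_of_ne hzx hzy]
            exact h4 z
    have h5 : ∀ b ∈ bs, ∀ z, cyc π z (perm b z) := by
      intro b hb z
      obtain ⟨u, v, huv⟩ := List.append_of_mem hb
      obtain ⟨x, y, hx, hy, hxy, hb'⟩ := (hbs b hb).perm
      have h3 : cyc π ((perm v.prod)⁻¹ x) ((perm v.prod)⁻¹ y) := hcon u b v huv x y hx hy hxy hb'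
      have h4 := h1 v (u ++ [b]) (by rw [huv]; simp)
      have h6 : cyc π x y := (cyc π).trans ((cyc π).trans (h4 x) h3) ((cyc π).symm (h4 y))
      rw [hb']
      by_cases hzx : z = x
      · rw [hzx, Equiv.swap_apply_left]; exact h6
      · by_cases hzy : z = y
        · rw [hzy, Equiv.swap_apply_right]; exact (cyc π).symm h6
        · rw [Equiv.swap_apply_of_ne_of_ne hzx hzy]
    have h6 : comps n π ≤ 1 := comps_le_one (fun x y hx hy => joined_le _ h5 (hc x y hx hy))
    omega
  obtain ⟨u, b, v, huv, x, y, hx, hy, hxy, hb, hnot⟩ := key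
  have hbB : IsBand n b := hbs b (by rw [huv]; simp)
  have hub : ∀ c ∈ u, IsBand n c := fun c hc => hbs c (by rw [huv]; simp [hc])
  have hvb : ∀ c ∈ v, IsBand n c := fun c hc => hbs c (by rw [huv]; simp [hc])
  have hV : v.prod ∈ B n := prod_mem hvb
  have hVB : Below n (perm v.prod) := perm_below hV
  set p := (perm v.prod)⁻¹ x with hp
  set q := (perm v.prod)⁻¹ y with hq
  have hpn : p < n := hVB.inv.lt hx
  have hqn : q < n := hVB.inv.lt hy
  have hprod : bs.prod = (u ++ v).prod * ((v.prod)⁻¹ * b * v.prod) := by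
    rw [huv, List.prod_append, List.prod_append, List.prod_cons]; group
  have hprod' : (u ++ v).prod = bs.prod * ((v.prod)⁻¹ * b⁻¹ * v.prod) := by
    rw [hprod]; group
  have hsw : perm ((v.prod)⁻¹ * b⁻¹ * v.prod) = Equiv.swap p q := by
    rw [map_mul, map_mul, map_inv, map_inv, hb, Equiv.swap_inv]
    have := Equiv.swap_apply_apply (perm v.prod)⁻¹ x y
    rw [inv_inv] at this
    exact this.symm
  have hπ' : perm (u ++ v).prod = π * Equiv.swap p q := by
    rw [hprod', map_mul, hsw]
  have hmerge := comps_merge hπB hpn hqn hnot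
  refine ⟨u ++ v, (v.prod)⁻¹ * b * v.prod, ?_, ?_, ?_, ?_, hprod, ?_⟩
  · intro c hc
    rw [List.mem_append] at hc
    rcases hc with hc | hc
    · exact hub c hc
    · exact hvb c hc
  · have := hbB.conj ((B n).inv_mem hV)
    rwa [inv_inv] at this
  · -- connectivity
    have hle : ∀ {a c : ℕ}, cyc (perm (u ++ v).prod) a c → Joined (u ++ v) a c := joined_of_cyc
    have hpq : Joined (u ++ v) p q := by
      apply hle; rw [hπ']; exact iterate_merge hπB hnot
    have hvz : ∀ z, Joined (u ++ v) z ((perm v.prod)⁻¹ z) := fun z =>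
      joined_mono (fun c hc => List.mem_append_right u hc) (joined_prod_inv v z)
    have hxy' : Joined (u ++ v) x y :=
      (Joined _).trans ((Joined _).trans (hvz x) hpq) ((Joined _).symm (hvz y))
    intro a c ha hc'
    apply joined_le (Joined (u ++ v)) _ (hc a c ha hc')
    intro d hd z
    rw [huv, List.mem_append, List.mem_cons] at hd
    rcases hd with hd | rfl | hd
    · exact joined_step (List.mem_append_left v hd) z
    · rw [hb]
      by_cases hzx : z = x
      · rw [hzx, Equiv.swap_apply_left]; exact hxy'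
      · by_cases hzy : z = y
        · rw [hzy, Equiv.swap_apply_right]; exact (Joined _).symm hxy'
        · rw [Equiv.swap_apply_of_ne_of_ne hzx hzy]
    · exact joined_step (List.mem_append_right u hd) z
  · rw [huv]; simp only [List.length_append, List.length_cons]; ring
  · rw [hπ']; exact hmerge

/-- Deleting `m` bands from a connected surface with `m + 1` boundary components. -/
theorem deletions {n : ℕ} (m : ℕ) {bs : List Braid} (hbs : ∀ b ∈ bs, IsBand n b)
    (hc : ConnectedSurface n bs) (h2 : comps n (perm bs.prod) = m + 1) :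
    ∃ (bs' cs : List Braid), (∀ b ∈ bs', IsBand n b) ∧ (∀ c ∈ cs, IsBand n c) ∧
      cs.length = m ∧ bs'.length + m = bs.length ∧ bs.prod = bs'.prod * cs.prod ∧
      comps n (perm bs'.prod) = 1 := by
  induction m generalizing bs with
  | zero => exact ⟨bs, [], hbs, by simp, rfl, rfl, by simp, h2⟩
  | succ m ih =>
    obtain ⟨bs1, c, h11, h12, h13, h14, h15, h16⟩ := deletion hbs hc (by omega)
    obtain ⟨bs2, cs, h21, h22, h23, h24, h25, h26⟩ := ih h11 h13 (by omega)
    refine ⟨bs2, cs ++ [c], h21, ?_, by simp [h23], by omega, ?_, h26⟩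
    · intro d hd
      rw [List.mem_append, List.mem_singleton] at hd
      rcases hd with hd | rfl
      · exact h22 d hd
      · exact h12
    · rw [h15, h25, List.prod_append, mul_assoc]; simp

/-! ### Every knot bounds a ribbon surface -/

lemma exists_bands {n : ℕ} {β : Braid} (h : β ∈ B n) :
    ∃ bs : List Braid, (∀ b ∈ bs, IsBand n b) ∧ β = bs.prod := by
  induction h using Subgroup.closure_induction with
  | mem x hx =>
    obtain ⟨i, hi, rfl⟩ := hx
    exact ⟨[σ i], by simpa using isBand_σ hi, by simp⟩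
  | one => exact ⟨[], by simp, by simp⟩
  | mul x y _ _ hx hy =>
    obtain ⟨bs, h1, rfl⟩ := hx
    obtain ⟨cs, h2, rfl⟩ := hy
    refine ⟨bs ++ cs, ?_, by simp⟩
    intro b hb
    rw [List.mem_append] at hb
    rcases hb with hb | hb
    · exact h1 b hb
    · exact h2 b hb
  | inv x _ hx =>
    obtain ⟨bs, h1, rfl⟩ := hx
    refine ⟨(bs.map (fun b => b⁻¹)).reverse, ?_, ?_⟩
    · intro b hb
      rw [List.mem_reverse, List.mem_map] at hb
      obtain ⟨c, hc, rfl⟩ := hb
      exact (h1 c hc).inv
    · rw [List.prod_inv_reverse]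

lemma euler_parity {n : ℕ} (bs : List Braid) (hbs : ∀ b ∈ bs, IsBand n b) :
    ∃ k, comps n (perm bs.prod) + bs.length = n + 2 * k := by
  induction bs using List.reverseRecOn with
  | nil => exact ⟨0, by simp [comps_one]⟩
  | append_singleton l b ih =>
    have hl : ∀ c ∈ l, IsBand n c := fun c hc => hbs c (by simp [hc])
    obtain ⟨k, hk⟩ := ih hl
    obtain ⟨x, y, hx, hy, hxy, hb⟩ := (hbs b (by simp)).perm
    have hB : Below n (perm l.prod) := perm_below (prod_mem hl)
    have e : perm (l ++ [b]).prod = perm l.prod * Equiv.swap x y := by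
      rw [List.prod_append, List.prod_singleton, map_mul, hb]
    rw [e, List.length_append, List.length_singleton]
    by_cases hs : (perm l.prod).SameCycle x y
    · have := comps_split hB hx hy hxy hs
      exact ⟨k+1, by omega⟩
    · have := comps_merge hB hx hy hs
      exact ⟨k, by omega⟩

theorem exists_ribbon (K : Knot) : ∃ g, BoundsSurface K.1 g 0 := by
  obtain ⟨⟨n, β⟩, hβ, hc⟩ := K
  dsimp only at hβ hc ⊢
  obtain ⟨bs, hbs, rfl⟩ := exists_bands hβ
  obtain ⟨k, hk⟩ := euler_parity bs hbs
  refine ⟨k, n, bs, hbs, connected_of_knot hc, Isotopic.refl _, by omega⟩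

/-! ### Split unions -/

lemma up_succ_stab {n : ℕ} {β : Braid} (hβ : β ∈ B (n+1)) (ε : Bool) :
    Up (n+2, β) (n+3, β * sgn ε (σ n)) := by
  have eβ : Commute (σ (n+1)) β := σ_comm_B (by omega) hβ
  have hσ : σ n ∈ B (n+2) := σ_mem (by omega)
  have ht : σ (n+1) ∈ B (n+3) := σ_mem (by omega)
  have := Up.stab (n := n+1) (γ := (σ n)⁻¹) (δ := σ (n+1) * σ n) ε (B_mono (by omega) hβ)
    ((B _).inv_mem hσ) ((B _).mul_mem ht (B_mono (by omega) hσ))
  convert this using 2
  have h1 := conj_rel2 n ε
  have h2 : σ n * sgn ε (σ (n+1)) * (σ n)⁻¹ = (σ (n+1))⁻¹ * sgn ε (σ n) * σ (n+1) := h1.symm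
  have h3 : σ (n+1) * β * (σ (n+1))⁻¹ = β := by rw [eβ.eq, mul_inv_cancel_right]
  calc β * sgn ε (σ n) = (σ (n+1) * β * (σ (n+1))⁻¹) * sgn ε (σ n) := by rw [h3]
    _ = σ (n+1) * β * ((σ (n+1))⁻¹ * sgn ε (σ n) * σ (n+1)) * (σ (n+1))⁻¹ := by group
    _ = σ (n+1) * β * (σ n * sgn ε (σ (n+1)) * (σ n)⁻¹) * (σ (n+1))⁻¹ := by rw [h2]
    _ = _ := by
      generalize sgn ε (σ (n+1)) = z
      group

/-- Split unions with the unlink are well defined. -/
lemma iso_succ {K L : Rep} (h : Isotopic K L) : Isotopic (K.1 + 1, K.2) (L.1 + 1, L.2) := by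
  induction h with
  | rel K L h =>
    cases h with
    | @conj n β γ hβ hγ =>
      exact iso_conj (B_mono (by omega) hβ) (B_mono (by omega) hγ)
    | @stab_pos n β hβ => exact iso_of_up (up_succ_stab hβ true)
    | @stab_neg n β hβ => exact iso_of_up (up_succ_stab hβ false)
  | refl _ => exact Isotopic.refl _
  | symm _ _ _ ih => exact ih.symm
  | trans _ _ _ _ _ ih1 ih2 => exact ih1.trans ih2

lemma iso_unlinked {K L : Rep} (h : Isotopic K L) (m : ℕ) :
    Isotopic (unlinked K m) (unlinked L m) := by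
  induction m with
  | zero => exact h
  | succ m ih => exact iso_succ ih

/-! ### Slice genus and ribbon genus -/

lemma comps_unlinked {K : Rep} (hK : IsKnot K) (m : ℕ) :
    comps (unlinked K m).1 (perm (unlinked K m).2) = m + 1 := by
  show comps (K.1 + m) (perm K.2) = m + 1
  rw [comps_add (perm_below hK.1), hK.2]; ring

/-- A surface of genus `g` with `m` local maxima is obtained from a ribbon surface of genus `g`
by a ribbon concordance. -/
theorem boundsSurface_iff (K : Knot) (g : ℕ) :
    (∃ m, BoundsSurface K.1 g m) ↔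
      ∃ K' : Knot, RibbonConcordance K'.1 K.1 ∧ BoundsSurface K'.1 g 0 := by
  constructor
  · rintro ⟨m, n, bs, hbs, hc, hiso, hlen⟩
    have h1 := comps_isotopic hiso
    rw [comps_unlinked K.2] at h1
    obtain ⟨bs', cs, h21, h22, h23, h24, h25, h26⟩ := deletions m hbs hc h1
    refine ⟨⟨(n, bs'.prod), prod_mem h21, h26⟩, ⟨m, n, bs'.prod, cs, prod_mem h21, h22, h23,
      Isotopic.refl _, ?_⟩, n, bs', h21, connected_of_knot h26, Isotopic.refl _, ?_⟩
    · rw [← h25]; exact hiso
    · omega
  · rintro ⟨K', ⟨m, p, α, cs, hα, hcs, hm, hi1, hi2⟩, n, bs, hbs, hc, hiso, hlen⟩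
    have h1 : Isotopic (n, bs.prod) (p, α) := hiso.trans hi1.symm
    obtain ⟨d, bs', cs', h21, h22, h23, h24, h25, h26⟩ := glue hbs hcs h1
    have hk : comps d (perm bs'.prod) = 1 := by
      have := comps_isotopic (h25.trans hi1)
      dsimp only at this
      rw [this]; exact K'.2.2
    refine ⟨m, d, bs' ++ cs', ?_, (connected_of_knot hk).mono (by simp +contextual), ?_, ?_⟩
    · intro b hb
      rw [List.mem_append] at hb
      rcases hb with hb | hb
      · exact h21 b hb
      · exact h22 b hb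
    · rw [List.prod_append]; exact h26.trans hi2
    · rw [List.length_append]; omega

/-- If there is a ribbon concordance from `K'` to `K` then `K'` bounds every ribbon surface that
`K` bounds. -/
theorem ribbon_mono (K' K : Knot) (h : RibbonConcordance K'.1 K.1) (g : ℕ)
    (hb : BoundsSurface K.1 g 0) : BoundsSurface K'.1 g 0 := by
  obtain ⟨m, p, α, cs, hα, hcs, hm, hi1, hi2⟩ := h
  obtain ⟨n, bs, hbs, hc, hiso, hlen⟩ := hb
  have h1 : Isotopic (n + m, bs.prod) (p, α * cs.prod) :=
    (iso_unlinked (K := (n, bs.prod)) hiso m).trans hi2.symm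
  have hcs' : ∀ c ∈ (cs.map (fun b => b⁻¹)).reverse, IsBand p c := by
    intro b hb
    rw [List.mem_reverse, List.mem_map] at hb
    obtain ⟨c, hc, rfl⟩ := hb
    exact (hcs c hc).inv
  obtain ⟨d, bs', cs', h21, h22, h23, h24, h25, h26⟩ := glue (bands_mono (by omega) hbs) hcs' h1
  have h27 : Isotopic (d, (bs' ++ cs').prod) K'.1 := by
    rw [List.prod_append]
    refine h26.trans ?_
    rw [← List.prod_inv_reverse, mul_inv_cancel_right]
    exact hi1
  refine ⟨d, bs' ++ cs', ?_, connected_of_knot ?_, h27, ?_⟩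
  · intro b hb
    rw [List.mem_append] at hb
    rcases hb with hb | hb
    · exact h21 b hb
    · exact h22 b hb
  · have := comps_isotopic h27
    dsimp only at this
    rw [this]; exact K'.2.2
  · simp only [List.length_append, h24, List.length_reverse, List.length_map]
    omega

/-- Local maxima can be traded for handles. -/
theorem trade (K : Knot) (g m : ℕ) (h : BoundsSurface K.1 g m) : BoundsSurface K.1 (g + m) 0 := by
  obtain ⟨n, bs, hbs, hc, hiso, hlen⟩ := h
  obtain ⟨⟨p, β⟩, hβ, hk⟩ := K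
  dsimp only [unlinked] at hiso hβ hk ⊢
  have hp : p ≠ 0 := by
    rintro rfl
    have h0 : comps 0 (perm β) = 0 := by
      unfold comps
      rw [Nat.card_eq_zero]
      left
      constructor
      intro x
      induction x using Quotient.inductionOn with
      | h x => exact x.elim0
    omega
  obtain ⟨q, rfl⟩ : ∃ q, p = q + 1 := ⟨p - 1, by omega⟩
  -- the bands merging the trivial components
  let cs : List Braid := (List.range m).map (fun i => σ (q + i))
  have hcs : ∀ c ∈ cs, IsBand (q + 1 + m) c := by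
    intro c hc
    simp only [cs, List.mem_map, List.mem_range] at hc
    obtain ⟨i, hi, rfl⟩ := hc
    exact isBand_σ (by omega)
  have hstab : ∀ k, Isotopic (q + 1 + k, β * ((List.range k).map (fun i => σ (q + i))).prod)
      (q + 1, β) ∧ β * ((List.range k).map (fun i => σ (q + i))).prod ∈ B (q + 1 + k) := by
    intro k
    induction k with
    | zero => simpa using ⟨Isotopic.refl _, hβ⟩
    | succ k ih =>
      rw [List.range_succ, List.map_append, List.prod_append, List.map_singleton,
        List.prod_singleton, ← mul_assoc]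
      have e : q + 1 + k = q + k + 1 := by ring
      have e' : q + 1 + (k + 1) = q + k + 2 := by ring
      rw [e]  at ih
      rw [e']
      refine ⟨Isotopic.trans ?_ ih.1, (B _).mul_mem (B_mono (by omega) ih.2) (σ_mem (by omega))⟩
      exact (Relation.EqvGen.rel _ _ (Markov.stab_pos ih.2)).symm
  obtain ⟨d, bs', cs', h21, h22, h23, h24, h25, h26⟩ := glue hbs hcs hiso
  have h27 : Isotopic (d, (bs' ++ cs').prod) (q + 1, β) := by
    rw [List.prod_append]
    exact h26.trans (hstab m).1
  refine ⟨d, bs' ++ cs', ?_, connected_of_knot ?_, h27, ?_⟩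
  · intro b hb
    rw [List.mem_append] at hb
    rcases hb with hb | hb
    · exact h21 b hb
    · exact h22 b hb
  · have := comps_isotopic h27
    dsimp only at this
    rw [this]; exact hk
  · simp only [List.length_append, h24, cs, List.length_map, List.length_range]
    omega

end Pool.Agent.Lib.MP_177a0e_gt
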