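import Mathlib

/-!
Oriented tangles as words in elementary pieces, up to isotopy (Turaev, Freyd–Yetter), and
cobordisms between them as movies.

* A horizontal line meets a tangle in finitely many points; the level is the list of the directions
  (`true` = upwards, `false` = downwards) of the strands at these points, from left to right.
* A tangle diagram in general position with respect to the height is a word of slices, read from
  the bottom to the top, each of which contains one minimum (cup), one maximum (cap) or one
  crossing and otherwise vertical strands.
* A long knot is a tangle with one strand at the bottom and one at the top and no closed component;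
  long knots up to isotopy are the same as knots up to isotopy, and the connected sum of knots is
  the composition of long knots.
-/

namespace Pool.Agent.Lib.MP_177a0e_gt.Tangle

/-- The elementary pieces: a minimum whose left strand has direction `x`, a maximum whose left
strand has direction `x`, and a crossing of strands with directions `x` (starting at the left) and
`y` (starting at the right), where the strand from the lower left to the upper right passes over
the other one if `s = true` and under it if `s = false`. -/
inductive Gen : Type
  | cup (x : Bool) : Gen
  | cap (x : Bool) : Gen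
  | cross (s x y : Bool) : Gen

open Gen

/-- The level below an elementary piece. -/
def Gen.src : Gen → List Bool
  | cup _ => []
  | cap x => [x, !x]
  | cross _ x y => [x, y]

/-- The level above an elementary piece. -/
def Gen.tgt : Gen → List Bool
  | cup x => [x, !x]
  | cap _ => []
  | cross _ x y => [y, x]

/-- A slice: an elementary piece with vertical strands to the left and to the right of it. -/
structure Slice : Type where
  /-- the directions of the strands on the left -/
  left : List Bool
  /-- the elementary piece -/
  gen : Gen
  /-- the directions of the strands on the right -/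
  right : List Bool

/-- The level below a slice. -/
def Slice.src (s : Slice) : List Bool := s.left ++ s.gen.src ++ s.right

/-- The level above a slice. -/
def Slice.tgt (s : Slice) : List Bool := s.left ++ s.gen.tgt ++ s.right

/-- Tangle diagrams: words of slices, from the bottom to the top. -/
abbrev Word : Type := List Slice

/-- The word `w` is a tangle diagram from the level `c` at the bottom to the level `e` at the top:
consecutive slices fit together. -/
def Valid : List Bool → Word → List Bool → Prop
  | c, [], e => c = e
  | c, s :: w, e => s.src = c ∧ Valid s.tgt w e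

/-- The elementary isotopies of tangle diagrams. -/
inductive Rel : Word → Word → Prop
  /-- changing the heights of two distant pieces -/
  | interchange (g g' : Gen) (p q r : List Bool) :
      Rel [⟨p, g, q ++ g'.src ++ r⟩, ⟨p ++ g.tgt ++ q, g', r⟩]
        [⟨p ++ g.src ++ q, g', r⟩, ⟨p, g, q ++ g'.tgt ++ r⟩]
  /-- straightening a strand -/
  | zigzag₁ (x : Bool) (p q : List Bool) :
      Rel [⟨p ++ [x], cup (!x), q⟩, ⟨p, cap x, [x] ++ q⟩] []
  /-- straightening a strand -/
  | zigzag₂ (x : Bool) (p q : List Bool) :
      Rel [⟨p, cup x, [x] ++ q⟩, ⟨p ++ [x], cap (!x), q⟩] []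
  /-- first Reidemeister move at a minimum -/
  | r1_cup (s x : Bool) (p q : List Bool) :
      Rel [⟨p, cup x, q⟩, ⟨p, cross s x (!x), q⟩] [⟨p, cup (!x), q⟩]
  /-- first Reidemeister move at a maximum -/
  | r1_cap (s x : Bool) (p q : List Bool) :
      Rel [⟨p, cross s x (!x), q⟩, ⟨p, cap (!x), q⟩] [⟨p, cap x, q⟩]
  /-- second Reidemeister move -/
  | r2 (s x y : Bool) (p q : List Bool) :
      Rel [⟨p, cross s x y, q⟩, ⟨p, cross (!s) y x, q⟩] []
  /-- third Reidemeister move -/
  | r3 (s x y z : Bool) (p q : List Bool) :
      Rel [⟨p, cross s x y, [z] ++ q⟩, ⟨p ++ [y], cross s x z, q⟩, ⟨p, cross s y z, [x] ++ q⟩]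
        [⟨p ++ [x], cross s y z, q⟩, ⟨p, cross s x z, [y] ++ q⟩, ⟨p ++ [z], cross s x y, q⟩]
  /-- a strand passes in front of or behind a minimum -/
  | slide_cup (s e x : Bool) (p q : List Bool) :
      Rel [⟨p, cup e, [x] ++ q⟩, ⟨p ++ [e], cross s (!e) x, q⟩]
        [⟨p ++ [x], cup e, q⟩, ⟨p, cross (!s) x e, [!e] ++ q⟩]
  /-- a strand passes in front of or behind a maximum -/
  | slide_cap (s e x : Bool) (p q : List Bool) :
      Rel [⟨p ++ [e], cross s x (!e), q⟩, ⟨p, cap e, [x] ++ q⟩]
        [⟨p, cross (!s) e x, [!e] ++ q⟩, ⟨p ++ [x], cap e, q⟩]

/-- A saddle: two neighbouring strands of opposite directions are replaced by a maximum followed by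
a minimum. -/
inductive SaddleRel : Word → Word → Prop
  | mk (x : Bool) (p q : List Bool) : SaddleRel [] [⟨p, cap x, q⟩, ⟨p, cup x, q⟩]

/-- A birth: a small circle is inserted. -/
inductive BirthRel : Word → Word → Prop
  | mk (x : Bool) (p q : List Bool) : BirthRel [] [⟨p, cup x, q⟩, ⟨p, cap x, q⟩]

/-- A crossing change. -/
inductive ChangeRel : Word → Word → Prop
  | mk (s x y : Bool) (p q : List Bool) :
      ChangeRel [⟨p, cross s x y, q⟩] [⟨p, cross (!s) x y, q⟩]

/-- The tangle diagrams `w` and `w'` from the level `c` to the level `e` differ by the replacement
of some consecutive slices `a` by `b`, where `R a b`. -/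
inductive Local (R : Word → Word → Prop) (c e : List Bool) : Word → Word → Prop
  | mk (u a b v : Word) (h : R a b) (h₁ : Valid c (u ++ a ++ v) e) (h₂ : Valid c (u ++ b ++ v) e) :
      Local R c e (u ++ a ++ v) (u ++ b ++ v)

/-- `Cob c e b s d w w'`: there is a movie from the tangle `w` to the tangle `w'`, both from the
level `c` to the level `e`, with `b` births, `s` saddles and `d` deaths. -/
inductive Cob (c e : List Bool) : ℕ → ℕ → ℕ → Word → Word → Prop
  | refl {w : Word} (h : Valid c w e) : Cob c e 0 0 0 w w
  | iso {b s d : ℕ} {w w₁ w₂ : Word} (h : Cob c e b s d w w₁)
      (h' : Local Rel c e w₁ w₂ ∨ Local Rel c e w₂ w₁) : Cob c e b s d w w₂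
  | saddle {b s d : ℕ} {w w₁ w₂ : Word} (h : Cob c e b s d w w₁)
      (h' : Local SaddleRel c e w₁ w₂ ∨ Local SaddleRel c e w₂ w₁) : Cob c e b (s+1) d w w₂
  | birth {b s d : ℕ} {w w₁ w₂ : Word} (h : Cob c e b s d w w₁)
      (h' : Local BirthRel c e w₁ w₂) : Cob c e (b+1) s d w w₂
  | death {b s d : ℕ} {w w₁ w₂ : Word} (h : Cob c e b s d w w₁)
      (h' : Local BirthRel c e w₂ w₁) : Cob c e b s (d+1) w w₂

/-- Long knots: the tangles with one upwards strand at the bottom and at the top and without closed
components, that is, those which isotopies and crossing changes transform into the trivial one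
(isotopies and crossing changes do not change the number of components, and every knot can be
unknotted by crossing changes). -/
def IsKnot (w : Word) : Prop :=
  Relation.EqvGen (fun a b => Local Rel [true] [true] a b ∨ Local ChangeRel [true] [true] a b) w []

/-- Knots, represented by long knots. -/
abbrev Knot : Type := {w : Word // IsKnot w}

/-- `K` bounds a ribbon surface of genus `g` in the 4-ball: going inwards from `K` there is a movie
without births (no local maxima of the radial function), with `d` deaths and `d + 2 g` saddles, to
the trivial knot, which is capped off by a disk. -/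
def BoundsRibbon (K : Word) (g : ℕ) : Prop := ∃ d : ℕ, Cob [true] [true] 0 (d + 2 * g) d K []

/-- The ribbon genus of a knot. -/
noncomputable def ribbonGenus (K : Word) : ℕ := sInf {g | BoundsRibbon K g}

/-- `K` bounds a surface of genus `g` in the 4-ball with `m` local maxima of the radial function, in
normal form: going inwards from `K`, first `m` circles are born and joined by `m` saddles to `K`,
which gives a knot `K'`, and the rest of the surface has no births. -/
def BoundsSurface (K : Word) (g m : ℕ) : Prop :=
  ∃ K' : Word, IsKnot K' ∧ Cob [true] [true] m m 0 K K' ∧ BoundsRibbon K' g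

/-- The slice genus of a knot. -/
noncomputable def sliceGenus (K : Word) : ℕ := sInf {g | ∃ m, BoundsSurface K g m}

/-- There is a ribbon concordance from the knot `K'` to the knot `K`: a movie from `K` to `K'` with
equally many births and saddles and without deaths. -/
def RibbonConcordance (K' K : Word) : Prop := ∃ m : ℕ, Cob [true] [true] m m 0 K K'

/-- Concordance of knots: the equivalence relation generated by ribbon concordance. -/
def Concordant : Knot → Knot → Prop :=
  Relation.EqvGen (fun K' K : Knot => RibbonConcordance K'.1 K.1)

/-- The connected sum of knots. -/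
def csum (K J : Word) : Word := K ++ J

end Pool.Agent.Lib.MP_177a0e_gt.Tangle
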