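import Pool.Agent.Lib.MP_177a0e_gt.OneMin

/-!
Cobordisms between two knots `K` and `K'`: the numbers of their local maxima and local minima against
the ribbon genus of `K # -K'` and of `K`, in the movie model.
-/

namespace Pool.Agent.Lib.MP_177a0e_gt.Tangle

open Gen

/-- `K` and `K'` are joined by a cobordism of genus `g` (Euler characteristic `-2 g`) with `m` local
maxima and `n` local minima (of the height, which increases from `K'` to `K`): a movie from `K` to
`K'` with `m` births, `n` deaths and `m + n + 2 g` saddles, in any order. -/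
def Joined (K K' : Word) (g m n : ℕ) : Prop := Cob [true] [true] m (m + n + 2 * g) n K K'

lemma Joined.symm {K K' : Word} {g m n : ℕ} (h : Joined K K' g m n) : Joined K' K g n m :=
  (Cob.symm h).cast rfl (by omega) rfl

lemma Joined.trans {K K' K'' : Word} {g m n g' m' n' : ℕ} (h : Joined K K' g m n)
    (h' : Joined K' K'' g' m' n') : Joined K K'' (g + g') (m + m') (n + n') :=
  (Cob.trans h h').cast rfl (by omega) rfl

/-- A surface of genus `g` with `n` minima and `m` maxima is a cobordism to the trivial knot with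
`n - 1` minima and `m` maxima, and a disk. -/
lemma joined_of_ext {K : Word} {g n m : ℕ} (h : BoundsSurfaceExt K g n m) :
    Joined K [] g m (n - 1) := by
  obtain ⟨K', _, h1, d, rfl, h2⟩ := h
  exact (h1.trans h2).cast (by omega) (by omega) (by omega)

/-- Births replaced by saddles: `K # -K'` bounds a ribbon surface of genus `g + m`. -/
lemma Joined.mirror_maxima {K K' : Knot} {g m n : ℕ} (h : Joined K.1 K'.1 g m n) :
    BoundsRibbon (csum K.1 (adj K'.1)) (g + m) := by
  have h1 := Cob.ctx (u := []) (v := adj K'.1) h valid_nil K'.2.adj.valid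
  simp only [List.nil_append] at h1
  exact ⟨n + caps K'.1, (h1.trans (cob_adj' K'.2.valid)).trade.cast rfl (by omega) rfl⟩

lemma ribbonGenus_csum_adj_comm (K K' : Knot) :
    ribbonGenus (csum K.1 (adj K'.1)) = ribbonGenus (csum K'.1 (adj K.1)) := by
  rw [← ribbonGenus_adj (csum K'.1 (adj K.1))]
  unfold csum
  rw [adj_append, adj_adj]

/-- Two knots joined by a cobordism of genus `g` with `m` maxima and `n` minima. -/
theorem Joined.mirror {K K' : Knot} {g m n : ℕ} (h : Joined K.1 K'.1 g m n) :
    ribbonGenus (csum K.1 (adj K'.1)) ≤ g + min m n := by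
  rcases le_total m n with hmn | hmn
  · rw [min_eq_left hmn]
    exact Nat.sInf_le h.mirror_maxima
  · rw [min_eq_right hmn, ribbonGenus_csum_adj_comm]
    exact Nat.sInf_le (Joined.mirror_maxima (K := K') (K' := K) h.symm)

lemma one_le_bridge (J : Knot) : 1 ≤ bridge J.1 := by
  have hne : {k | ∃ J' : Word, Cob [true] [true] 0 0 0 J.1 J' ∧ k = caps J' + 1}.Nonempty :=
    ⟨_, J.1, Cob.refl J.2.valid, rfl⟩
  obtain ⟨J', _, hb⟩ := Nat.sInf_mem hne
  have : bridge J.1 = caps J' + 1 := hb
  omega

/-- The trivial knot. -/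
def Knot.triv : Knot := ⟨[], Relation.EqvGen.refl _⟩

lemma csum_triv (K : Word) : csum K (adj Knot.triv.1) = K := by
  show K ++ adj [] = K
  rw [adj_nil, List.append_nil]

/-- The ribbon genera of two knots joined by a cobordism of genus `g` with `m` maxima and `n`
minima. -/
theorem Joined.ribbon {K K' : Knot} {g m n : ℕ} (h : Joined K.1 K'.1 g m n) :
    ribbonGenus K.1 ≤ ribbonGenus K'.1 + g + min m (n + (bridge K'.1 - 1)) := by
  have hb := one_le_bridge K'
  have h1 : ribbonGenus K.1 ≤ ribbonGenus K'.1 + g + m := by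
    obtain ⟨d, h2⟩ := boundsRibbon_ribbonGenus K'
    exact Nat.sInf_le ⟨n + d, (Cob.trans h h2).trade.cast rfl (by omega) rfl⟩
  have h2 : ribbonGenus K.1 ≤ ribbonGenus K'.1 + g + (n + (bridge K'.1 - 1)) := by
    have h3 := triangle_bridge K K' Knot.triv
    rw [csum_triv, csum_triv] at h3
    have h4 := h.mirror
    have h5 : min m n ≤ n := min_le_right _ _
    omega
  rcases le_total m (n + (bridge K'.1 - 1)) with hmn | hmn
  · rw [min_eq_left hmn]; exact h1
  · rw [min_eq_right hmn]; exact h2

/-- The ribbon genus of `K` against the one-minimum genus of `K'`. -/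
theorem Joined.oneMin {K K' : Knot} {g m n : ℕ} (h : Joined K.1 K'.1 g m n) :
    ribbonGenus K.1 ≤ oneMinGenus K'.1 + g + min m n := by
  have h2 := ribbonGenus_le_oneMin K K'
  have h3 := h.mirror
  omega

/-- A ribbon surface of genus `r` bounded by `K # -K'` gives a cobordism of genus `r` between `K` and
`K'` whose number of maxima is one less than the bridge number of `K'`. -/
theorem joined_of_mirror (K K' : Knot) :
    ∃ n : ℕ, Joined K.1 K'.1 (ribbonGenus (csum K.1 (adj K'.1))) (bridge K'.1 - 1) n := by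
  have hne : {k | ∃ J' : Word, Cob [true] [true] 0 0 0 K'.1 J' ∧ k = caps J' + 1}.Nonempty :=
    ⟨_, K'.1, Cob.refl K'.2.valid, rfl⟩
  obtain ⟨J', hJ', hb⟩ := Nat.sInf_mem hne
  have hb' : bridge K'.1 = caps J' + 1 := hb
  have hv : Valid [true] J' [true] := hJ'.valid.2
  obtain ⟨k, h1⟩ := boundsRibbon_ribbonGenus (K.csum K'.mirror)
  have e5 : ribbonGenus (csum K.1 (adj K'.1)) = ribbonGenus (K.1 ++ adj K'.1) := rfl
  -- `K`, then `K # -J' # J'`, then `K # -K' # K'`, then `K'`
  have g2 := (cob_adj'' hv).symm.ctx K.2.valid valid_nil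
  simp only [List.append_nil] at g2
  have e1 := hJ'.symm.adj.ctx K.2.valid hv
  have e2 := hJ'.symm.ctx (K.csum K'.mirror).2.valid valid_nil
  have g3 := h1.ctx (u := []) (v := K'.1) valid_nil K'.2.valid
  simp only [List.append_nil, List.nil_append] at e1 e2 g3
  have e6 : (K.csum K'.mirror).1 = K.1 ++ adj K'.1 := rfl
  rw [e6] at e2 g3
  rw [← List.append_assoc] at g2
  refine ⟨k, ?_⟩
  unfold Joined
  rw [hb', e5]
  exact (((g2.trans e1).trans e2).trans g3).cast (by omega) (by omega) (by omega)

end Pool.Agent.Lib.MP_177a0e_gt.Tangle
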