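import Pool.Agent.Lib.MP_177a0e_gt.TangleMain

/-!
Surfaces with few minima: the reversal argument, and births replaced by saddles, in the movie model.
-/

namespace Pool.Agent.Lib.MP_177a0e_gt.Tangle

open Gen

/-- `K` bounds a connected surface of genus `g` in the 4-ball on which the radial function has `n`
local minima and `m` local maxima, in normal form: going inwards from `K`, first `m` circles are
born (the maxima) and joined by `m` saddles to `K`, which gives a knot `K'`; then a movie without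
births, with `n - 1` deaths (minima) and `n - 1 + 2 g` saddles, leads to the trivial knot, which is
capped off by a disk (the last minimum). -/
def BoundsSurfaceExt (K : Word) (g n m : ℕ) : Prop :=
  ∃ K' : Word, IsKnot K' ∧ Cob [true] [true] m m 0 K K' ∧
    ∃ d : ℕ, n = d + 1 ∧ Cob [true] [true] 0 (d + 2 * g) d K' []

lemma boundsSurface_iff_ext {K : Word} {g m : ℕ} :
    BoundsSurface K g m ↔ ∃ n, BoundsSurfaceExt K g n m := by
  constructor
  · rintro ⟨K', h1, h2, d, h3⟩
    exact ⟨d + 1, K', h1, h2, d, rfl, h3⟩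
  · rintro ⟨n, K', h1, h2, d, _, h3⟩
    exact ⟨K', h1, h2, d, h3⟩

/-! ### Adjoints of movies -/

lemma Local.adjL {R : Word → Word → Prop} {c e : List Bool} {w w' : Word}
    (hR : ∀ a b, R a b → R (Tangle.adj a) (Tangle.adj b)) (h : Local R c e w w') :
    Local R e c (Tangle.adj w) (Tangle.adj w') := by
  cases h with
  | mk u a b v h h₁ h₂ =>
    have h₁' := h₁.adj
    have h₂' := h₂.adj
    simp only [adj_append, ← List.append_assoc] at h₁' h₂' ⊢
    exact Local.mk _ _ _ _ (hR a b h) h₁' h₂'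

lemma saddle_adj {a b : Word} (h : SaddleRel a b) : SaddleRel (adj a) (adj b) := by
  cases h with
  | mk x p q => exact SaddleRel.mk x p q

lemma birth_adj {a b : Word} (h : BirthRel a b) : BirthRel (adj a) (adj b) := by
  cases h with
  | mk x p q => exact BirthRel.mk x p q

/-- The adjoint of a movie. -/
lemma Cob.adj {c e : List Bool} {b s d : ℕ} {w w' : Word} (h : Cob c e b s d w w') :
    Cob e c b s d (Tangle.adj w) (Tangle.adj w') := by
  induction h with
  | refl h => exact Cob.refl h.adj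
  | iso _ h' ih =>
    refine ih.iso ?_
    rcases h' with h' | h'
    · exact h'.adj (fun a b => rel_adj)
    · exact (h'.adj (fun a b => rel_adj)).symm
  | saddle _ h' ih =>
    refine ih.saddle ?_
    rcases h' with h' | h'
    · exact Or.inl (h'.adjL (fun a b => saddle_adj))
    · exact Or.inr (h'.adjL (fun a b => saddle_adj))
  | birth _ h' ih => exact ih.birth (h'.adjL (fun a b => birth_adj))
  | death _ h' ih => exact ih.death (h'.adjL (fun a b => birth_adj))

/-! ### Births replaced by saddles -/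

/-- A small circle can be turned around. -/
lemma circle_turn (x : Bool) (p q : List Bool) :
    Cob (p ++ q) (p ++ q) 0 0 0 [⟨p, cup x, q⟩, ⟨p, cap x, q⟩]
      [⟨p, cup (!x), q⟩, ⟨p, cap (!x), q⟩] := by
  have v0 : Valid (p ++ q) [⟨p, cup x, q⟩, ⟨p, cap x, q⟩] (p ++ q) := by
    simp [Valid, Slice.src, Slice.tgt, Gen.src, Gen.tgt]
  have v1 : Valid (p ++ q) [⟨p, cup x, q⟩, ⟨p, cross true x (!x), q⟩, ⟨p, cap (!x), q⟩]
      (p ++ q) := by
    simp [Valid, Slice.src, Slice.tgt, Gen.src, Gen.tgt]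
  have v2 : Valid (p ++ q) [⟨p, cup (!x), q⟩, ⟨p, cap (!x), q⟩] (p ++ q) := by
    simp [Valid, Slice.src, Slice.tgt, Gen.src, Gen.tgt]
  refine ((Cob.refl v0).iso (w₂ := [⟨p, cup x, q⟩, ⟨p, cross true x (!x), q⟩,
    ⟨p, cap (!x), q⟩]) (Or.inr ?_)).iso (Or.inl ?_)
  · exact Local.mk [⟨p, cup x, q⟩] _ _ [] (Rel.r1_cap true x p q) v1 v0
  · exact Local.mk [] _ _ [⟨p, cap (!x), q⟩] (Rel.r1_cup true x p q) v1 v2

/-- Next to a strand, a small circle can be split off by a saddle. -/
lemma circle_saddle (x : Bool) (p q : List Bool) (h : p ++ q ≠ []) :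
    Cob (p ++ q) (p ++ q) 0 1 0 [] [⟨p, cup x, q⟩, ⟨p, cap x, q⟩] := by
  have key : ∃ y : Bool, Cob (p ++ q) (p ++ q) 0 1 0 [] [⟨p, cup y, q⟩, ⟨p, cap y, q⟩] := by
    cases q with
    | cons y q =>
      refine ⟨y, ?_⟩
      have z : Rel [⟨p, cup y, y :: q⟩, ⟨p ++ [y], cap (!y), q⟩] [] := Rel.zigzag₂ y p q
      have v0 : Valid (p ++ y :: q) [] (p ++ y :: q) := rfl
      have v1 : Valid (p ++ y :: q) [⟨p, cup y, y :: q⟩, ⟨p ++ [y], cap (!y), q⟩]
          (p ++ y :: q) := by
        simp [Valid, Slice.src, Slice.tgt, Gen.src, Gen.tgt]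
      have v2 : Valid (p ++ y :: q) [⟨p, cup y, y :: q⟩, ⟨p, cap y, y :: q⟩, ⟨p, cup y, y :: q⟩,
          ⟨p ++ [y], cap (!y), q⟩] (p ++ y :: q) := by
        simp [Valid, Slice.src, Slice.tgt, Gen.src, Gen.tgt]
      have v3 : Valid (p ++ y :: q) [⟨p, cup y, y :: q⟩, ⟨p, cap y, y :: q⟩] (p ++ y :: q) := by
        simp [Valid, Slice.src, Slice.tgt, Gen.src, Gen.tgt]
      refine (((Cob.refl v0).iso (w₂ := [⟨p, cup y, y :: q⟩, ⟨p ++ [y], cap (!y), q⟩])
        (Or.inr ?_)).saddle (w₂ := [⟨p, cup y, y :: q⟩, ⟨p, cap y, y :: q⟩, ⟨p, cup y, y :: q⟩,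
          ⟨p ++ [y], cap (!y), q⟩]) (Or.inl ?_)).iso (Or.inl ?_)
      · exact Local.whole z v1 v0
      · exact Local.mk [⟨p, cup y, y :: q⟩] [] _ [⟨p ++ [y], cap (!y), q⟩]
          (SaddleRel.mk y p (y :: q)) v1 v2
      · exact Local.mk [⟨p, cup y, y :: q⟩, ⟨p, cap y, y :: q⟩] _ [] [] z v2 v3
    | nil =>
      have hp : p ≠ [] := by simpa using h
      obtain ⟨p', y, rfl⟩ : ∃ p' y, p = p' ++ [y] :=
        ⟨p.dropLast, p.getLast hp, (List.dropLast_append_getLast hp).symm⟩
      refine ⟨!y, ?_⟩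
      have z : Rel [⟨p' ++ [y], cup (!y), []⟩, ⟨p', cap y, [y]⟩] [] := Rel.zigzag₁ y p' []
      have v0 : Valid (p' ++ [y] ++ []) [] (p' ++ [y] ++ []) := rfl
      have v1 : Valid (p' ++ [y] ++ []) [⟨p' ++ [y], cup (!y), []⟩, ⟨p', cap y, [y]⟩]
          (p' ++ [y] ++ []) := by
        simp [Valid, Slice.src, Slice.tgt, Gen.src, Gen.tgt]
      have v2 : Valid (p' ++ [y] ++ []) [⟨p' ++ [y], cup (!y), []⟩, ⟨p' ++ [y], cap (!y), []⟩,
          ⟨p' ++ [y], cup (!y), []⟩, ⟨p', cap y, [y]⟩] (p' ++ [y] ++ []) := by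
        simp [Valid, Slice.src, Slice.tgt, Gen.src, Gen.tgt]
      have v3 : Valid (p' ++ [y] ++ []) [⟨p' ++ [y], cup (!y), []⟩, ⟨p' ++ [y], cap (!y), []⟩]
          (p' ++ [y] ++ []) := by
        simp [Valid, Slice.src, Slice.tgt, Gen.src, Gen.tgt]
      refine (((Cob.refl v0).iso (w₂ := [⟨p' ++ [y], cup (!y), []⟩, ⟨p', cap y, [y]⟩])
        (Or.inr ?_)).saddle (w₂ := [⟨p' ++ [y], cup (!y), []⟩, ⟨p' ++ [y], cap (!y), []⟩,
          ⟨p' ++ [y], cup (!y), []⟩, ⟨p', cap y, [y]⟩]) (Or.inl ?_)).iso (Or.inl ?_)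
      · exact Local.whole z v1 v0
      · exact Local.mk [⟨p' ++ [y], cup (!y), []⟩] [] _ [⟨p', cap y, [y]⟩]
          (SaddleRel.mk (!y) (p' ++ [y]) []) v1 v2
      · exact Local.mk [⟨p' ++ [y], cup (!y), []⟩, ⟨p' ++ [y], cap (!y), []⟩] _ [] [] z v2 v3
  obtain ⟨y, hy⟩ := key
  by_cases hxy : x = y
  · subst hxy; exact hy
  · have h1 := hy.trans (circle_turn y p q)
    have h2 : (!y) = x := by cases x <;> cases y <;> simp_all
    rw [h2] at h1
    exact h1.cast rfl rfl rfl

/-- In a long tangle a birth can be replaced by a saddle. -/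
lemma birth_saddle {w w' : Word} (h : Local BirthRel [true] [true] w w') :
    Cob [true] [true] 0 1 0 w w' := by
  cases h with
  | mk u a b v h h₁ h₂ =>
    cases h with
    | mk x p q =>
      rw [valid_append] at h₂
      obtain ⟨m', h₂, hv⟩ := h₂
      rw [valid_append] at h₂
      obtain ⟨m, hu, ha⟩ := h₂
      have hm : p ++ q = m := by
        have := ha.1
        simpa [Slice.src, Gen.src] using this
      have hm' : p ++ q = m' := by
        have := ha.2.2
        simpa [Valid, Slice.tgt, Gen.tgt] using this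
      subst hm
      subst hm'
      have hne : p ++ q ≠ [] := by
        intro h0
        have h1 := count hu
        rw [h0] at h1
        simp only [List.length_cons, List.length_nil] at h1
        omega
      exact (circle_saddle x p q hne).ctx hu hv

/-- The births of a movie can be replaced by saddles. -/
lemma Cob.trade {b s d : ℕ} {w w' : Word} (h : Cob [true] [true] b s d w w') :
    Cob [true] [true] 0 (s + b) d w w' := by
  induction h with
  | refl h => exact Cob.refl h
  | iso _ h' ih => exact ih.iso h'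
  | saddle _ h' ih => exact (ih.saddle h').cast rfl (by omega) rfl
  | birth _ h' ih => exact (ih.trans (birth_saddle h')).cast rfl (by omega) (by omega)
  | death _ h' ih => exact ih.death h'

/-! ### The reversal theorem -/

/-- If `A` bounds a surface of genus `g` with `d + 1` minima (and any number of maxima) and the
connected sum of `K` and the mirror image of `A` bounds a ribbon surface of genus `r` then `K` bounds
a ribbon surface of genus `g + d + r`. -/
theorem reversal {K A A' : Word} (hK : IsKnot K) {m d g r : ℕ}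
    (h1 : Cob [true] [true] m m 0 A A') (h2 : Cob [true] [true] 0 (d + 2 * g) d A' [])
    (h3 : BoundsRibbon (K ++ adj A) r) : BoundsRibbon K (g + d + r) := by
  obtain ⟨k, h3⟩ := h3
  have e1 := h2.symm.adj.ctx hK.valid valid_nil
  simp only [adj_nil, List.append_nil] at e1
  have e2 := h1.symm.adj.ctx hK.valid valid_nil
  simp only [List.append_nil] at e2
  exact ⟨m + k, ((e1.trans e2).trans h3).trade.cast rfl (by omega) (by omega)⟩

/-- The mirror image of a ribbon surface. -/
lemma boundsRibbon_adj {K : Word} {g : ℕ} (h : BoundsRibbon K g) : BoundsRibbon (adj K) g := by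
  obtain ⟨d, h⟩ := h
  exact ⟨d, h.adj⟩

lemma ribbonGenus_adj (K : Word) : ribbonGenus (adj K) = ribbonGenus K := by
  have h : {g | BoundsRibbon (adj K) g} = {g | BoundsRibbon K g} := by
    ext g
    constructor
    · intro h
      have := boundsRibbon_adj h
      rwa [adj_adj] at this
    · exact boundsRibbon_adj
  unfold ribbonGenus
  rw [h]

/-- The mirror image of a knot, with reversed orientation. -/
def Knot.mirror (K : Knot) : Knot := ⟨adj K.1, K.2.adj⟩

/-- The connected sum of a knot and its mirror image is a ribbon knot. -/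
lemma ribbonGenus_mirror (J : Knot) : ribbonGenus (csum J.1 (adj J.1)) = 0 := by
  have h : BoundsRibbon (csum J.1 (adj J.1)) 0 := ⟨caps J.1, cob_adj' J.2.valid⟩
  have : ribbonGenus (csum J.1 (adj J.1)) ≤ 0 := Nat.sInf_le h
  omega

lemma boundsRibbon_csum {K J : Word} (hJ : IsKnot J) {g r : ℕ}
    (h1 : BoundsRibbon K g) (h2 : BoundsRibbon J r) : BoundsRibbon (K ++ J) (g + r) := by
  obtain ⟨d, h1⟩ := h1
  obtain ⟨d', h2⟩ := h2
  have h3 := h1.ctx (u := []) (v := J) valid_nil hJ.valid
  simp only [List.nil_append] at h3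
  exact ⟨d + d', (h3.trans h2).cast rfl (by omega) (by omega)⟩

lemma ribbonGenus_csum_le (K J : Knot) :
    ribbonGenus (csum K.1 J.1) ≤ ribbonGenus K.1 + ribbonGenus J.1 :=
  Nat.sInf_le (boundsRibbon_csum J.2 (boundsRibbon_ribbonGenus K) (boundsRibbon_ribbonGenus J))

/-- The ribbon genus is at most the genus plus the number of maxima. -/
lemma ribbon_of_maxima {K : Word} {g n m : ℕ} (h : BoundsSurfaceExt K g n m) :
    BoundsRibbon K (g + m) := by
  obtain ⟨K', _, h1, d, _, h2⟩ := h
  exact ⟨d, (h1.trans h2).trade.cast rfl (by omega) (by omega)⟩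

/-- The ribbon genus is at most the genus plus the number of minima minus one. -/
lemma ribbon_of_minima {K : Word} (hK : IsKnot K) {g n m : ℕ} (h : BoundsSurfaceExt K g n m) :
    BoundsRibbon K (g + (n - 1)) := by
  obtain ⟨K', _, h1, d, rfl, h2⟩ := h
  have h3 : BoundsRibbon (K ++ adj K) 0 := ⟨caps K, cob_adj' hK.valid⟩
  have := reversal hK h1 h2 h3
  simpa using this

/-- If `K # -A` is a ribbon knot then the slice genus of `K` is at most that of `A`. -/
lemma sliceGenus_le_of_mirror (K A : Knot) (h : ribbonGenus (csum K.1 (adj A.1)) = 0) :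
    sliceGenus K.1 ≤ sliceGenus A.1 := by
  obtain ⟨m, A', hA', h1, h2⟩ := exists_sliceGenus A
  have h3 : BoundsRibbon (csum K.1 (adj A.1)) 0 := by
    have := boundsRibbon_ribbonGenus (K.csum A.mirror)
    have e : ribbonGenus (K.csum A.mirror).1 = 0 := h
    rw [e] at this
    exact this
  refine Nat.sInf_le ⟨caps A.1 + m, K.1 ++ adj A.1 ++ A', (K.2.append A.2.adj).append hA', ?_, ?_⟩
  · have e1 := (cob_adj'' A.2.valid).symm.ctx K.2.valid valid_nil
    simp only [List.append_nil] at e1
    have e2 := h1.ctx (K.2.append A.2.adj).valid valid_nil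
    simp only [List.append_nil] at e2
    rw [← List.append_assoc] at e1
    exact (e1.trans e2).cast rfl rfl rfl
  · have := boundsRibbon_csum hA' h3 h2
    rw [Nat.zero_add] at this
    exact this

/-- The slice genus is at most the ribbon genus of `K # J # -J`. -/
lemma sliceGenus_le_mirrorPair (K J : Knot) :
    sliceGenus K.1 ≤ ribbonGenus (csum K.1 (csum J.1 (adj J.1))) :=
  sliceGenus_le_of_concordance (K := K) (K' := K.csum (J.csum J.mirror))
    (csum_concordance K (J.csum J.mirror) (ribbonGenus_mirror J))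

/-- If there is a ribbon concordance from `K'` to `K` then `K # -K'` is a ribbon knot. -/
lemma boundsRibbon_mirror_top {K K' : Word} (hK : IsKnot K) {m : ℕ}
    (h1 : Cob [true] [true] m m 0 K K') : BoundsRibbon (K ++ adj K') 0 := by
  have e1 := h1.symm.adj.ctx hK.valid valid_nil
  simp only [List.append_nil] at e1
  exact ⟨m + caps K, (e1.trans (cob_adj' hK.valid)).cast rfl (by omega) rfl⟩

/-- For some knot `J` the slice genus of `K` is the ribbon genus of `K # J # -J`. -/
lemma exists_mirrorPair (K : Knot) :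
    ∃ J : Knot, sliceGenus K.1 = ribbonGenus (csum K.1 (csum J.1 (adj J.1))) := by
  obtain ⟨m, K', hK', h1, h2⟩ := exists_sliceGenus K
  refine ⟨⟨adj K', hK'.adj⟩, le_antisymm (sliceGenus_le_mirrorPair K _) (Nat.sInf_le ?_)⟩
  have h4 := boundsRibbon_csum hK' (boundsRibbon_mirror_top K.2 h1) h2
  unfold csum
  rw [adj_adj, ← List.append_assoc]
  rw [Nat.zero_add] at h4
  exact h4

/-- The bridge number of a knot: one more than the least number of maxima in a diagram of the long
knot (the closure of a long knot has one more maximum). -/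
noncomputable def bridge (J : Word) : ℕ :=
  sInf {k | ∃ J' : Word, Cob [true] [true] 0 0 0 J J' ∧ k = caps J' + 1}

/-- Passing through `J`: the connected sum `K # -L` is changed into `(K # -J) # (J # -L)` by saddles. -/
lemma boundsRibbon_through {K J L : Word} (hK : IsKnot K) (hJ : IsKnot J) (hL : IsKnot L) {r s : ℕ}
    (h1 : BoundsRibbon (K ++ adj J) r) (h2 : BoundsRibbon (J ++ adj L) s) :
    BoundsRibbon (K ++ adj L) (r + s + caps J) := by
  have e1 := (cob_adj'' hJ.valid).symm.ctx hK.valid hL.adj.valid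
  simp only [List.append_nil] at e1
  obtain ⟨k, h3⟩ := boundsRibbon_csum (hJ.append hL.adj) h1 h2
  have e2 : K ++ (adj J ++ J) ++ adj L = K ++ adj J ++ (J ++ adj L) := by
    simp [List.append_assoc]
  rw [e2] at e1
  exact ⟨k, (e1.trans h3).trade.cast rfl (by omega) (by omega)⟩

/-- The triangle inequality with an error term. -/
theorem triangle_bridge (K J L : Knot) :
    ribbonGenus (csum K.1 (adj L.1)) + 1 ≤
      ribbonGenus (csum K.1 (adj J.1)) + ribbonGenus (csum J.1 (adj L.1)) + bridge J.1 := by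
  have hne : {k | ∃ J' : Word, Cob [true] [true] 0 0 0 J.1 J' ∧ k = caps J' + 1}.Nonempty :=
    ⟨_, J.1, Cob.refl J.2.valid, rfl⟩
  obtain ⟨J', hJ', hb⟩ := Nat.sInf_mem hne
  obtain ⟨k, h1⟩ := boundsRibbon_ribbonGenus (K.csum J.mirror)
  obtain ⟨l, h2⟩ := boundsRibbon_ribbonGenus (J.csum L.mirror)
  have hv : Valid [true] J' [true] := hJ'.valid.2
  -- `J'` in place of `J`
  have e1 := hJ'.symm.adj.ctx K.2.valid valid_nil
  simp only [List.append_nil] at e1
  have e2 := hJ'.symm.ctx (u := []) (v := adj L.1) valid_nil L.2.adj.valid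
  simp only [List.nil_append] at e2
  have f1 : Cob [true] [true] 0 (k + 2 * ribbonGenus (K.csum J.mirror).1) k (K.1 ++ adj J') [] :=
    (e1.trans h1).cast rfl (by omega) (by omega)
  have f2 : Cob [true] [true] 0 (l + 2 * ribbonGenus (J.csum L.mirror).1) l (J' ++ adj L.1) [] :=
    (e2.trans h2).cast rfl (by omega) (by omega)
  have g1 := f1.ctx (u := []) (v := J' ++ adj L.1) valid_nil (hv.append L.2.adj.valid)
  simp only [List.nil_append] at g1
  have g2 := (cob_adj'' hv).symm.ctx K.2.valid L.2.adj.valid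
  simp only [List.append_nil] at g2
  have e3 : K.1 ++ (adj J' ++ J') ++ adj L.1 = K.1 ++ adj J' ++ (J' ++ adj L.1) := by
    simp [List.append_assoc]
  rw [e3] at g2
  have g3 : BoundsRibbon (csum K.1 (adj L.1)) (ribbonGenus (K.csum J.mirror).1 +
      ribbonGenus (J.csum L.mirror).1 + caps J') :=
    ⟨k + l, ((g2.trans g1).trans f2).trade.cast rfl (by omega) (by omega)⟩
  have g4 : ribbonGenus (csum K.1 (adj L.1)) ≤ _ := Nat.sInf_le g3
  have hb' : bridge J.1 = caps J' + 1 := hb
  have e4 : ribbonGenus (csum K.1 (adj J.1)) = ribbonGenus (K.csum J.mirror).1 := rfl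
  have e5 : ribbonGenus (csum J.1 (adj L.1)) = ribbonGenus (J.csum L.mirror).1 := rfl
  rw [hb', e4, e5]
  omega

end Pool.Agent.Lib.MP_177a0e_gt.Tangle
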