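import Pool.Agent.Lib.MP_177a0e_gt.Colour

/-!
# Ribbon concordances to one knot

If there are ribbon concordances from the knots `K₁` and `K₂` to `K` then there is a knot from which there are ribbon
concordances to `K₁` and to `K₂` (`common_top`). So the slice genera at the two ends of a ribbon concordance agree.
-/

namespace Pool.Agent.Lib.MP_177a0e_gt

open Equiv

/-- the colouring of a split union with circles -/
lemma colour_lt {X : Col} (l : List ℕ) {x : ℕ} (hx : x < X.1.1) : (ext X l).2 x = X.2 x := by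
  induction l with
  | nil => rfl
  | cons a l ih =>
    show Function.update (ext X l).2 (ext X l).1.1 a x = _
    have h1 : (ext X l).1.1 = X.1.1 + l.length := by rw [ext_fst]; rfl
    rw [Function.update_of_ne (by omega), ih]

lemma colour_ge {X : Col} {a : ℕ} (m : ℕ) {x : ℕ} (hx : X.1.1 ≤ x) (hx' : x < X.1.1 + m) :
    (ext X (List.replicate m a)).2 x = a := by
  induction m with
  | zero => omega
  | succ m ih =>
    show Function.update (ext X (List.replicate m a)).2 (ext X (List.replicate m a)).1.1 a x = _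
    have h1 : (ext X (List.replicate m a)).1.1 = X.1.1 + m := by
      rw [ext_fst]
      show X.1.1 + (List.replicate m a).length = _
      rw [List.length_replicate]
    by_cases h2 : x = X.1.1 + m
    · rw [h2, h1, Function.update_self]
    · rw [Function.update_of_ne (by omega), ih (by omega)]

/-- the strings below are joined by bands which lead to a knot -/
lemma conn_ext {X : Col} {a m : ℕ} {cs : List Braid} (hk : comps X.1.1 (perm (X.1.2 * cs.prod)) = 1) {S : Set ℕ}
    (ha : a ∉ S) : Conn (ext X (List.replicate m a)) cs S := by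
  have h1 : (ext X (List.replicate m a)).1 = (X.1.1 + m, X.1.2) := by
    rw [ext_fst]
    show (X.1.1 + (List.replicate m a).length, X.1.2) = _
    rw [List.length_replicate]
  have key : ∀ x, x < (ext X (List.replicate m a)).1.1 → (ext X (List.replicate m a)).2 x ∈ S → x < X.1.1 := by
    intro x hx hS
    by_contra h2
    rw [h1] at hx
    rw [colour_ge m (by omega) hx] at hS
    exact ha hS
  intro x y hx hy hx' hy'
  have h2 := key x hx hx'
  have h3 := key y hy hy'
  rw [h1]
  apply joined_of_cyc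
  rw [List.prod_cons]
  exact sameCycle_of_comps hk h2 h3

lemma cups_mem {X Y : Col} (h : Relation.ReflTransGen CUp X Y) (hX : X.1.2 ∈ B X.1.1) : Y.1.2 ∈ B Y.1.1 := by
  induction h with
  | refl => exact hX
  | tail _ h _ =>
    obtain ⟨-, -, τ, h3, -⟩ := h
    exact (tup_mem h3).2

/-- the last step: bands which join everything -/
lemma common_finish {K1 K2 : Knot} {m1 m2 d : ℕ} {δ : Braid} {h : ℕ → ℕ} {C T : List Braid} {z0 : ℕ}
    (hδ : δ ∈ B d) (v1 : ∀ c ∈ C, IsBand d c) (w1 : ∀ c ∈ T, IsBand d c) (v2 : C.length = m1) (w2 : T.length = m2)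
    (v3 : Isotopic (d, δ * C.prod) (unlinked K1.1 m2)) (w3 : Isotopic (d, δ * T.prod) (unlinked K2.1 m1))
    (v4 : ∀ x y, x < d → y < d → h x ≠ 2 → h y ≠ 2 → Joined (δ :: C) x y)
    (w4 : ∀ x y, x < d → y < d → h x ≠ 1 → h y ≠ 1 → Joined (δ :: T) x y)
    (hz0 : z0 < d) (hz1 : h z0 = 0) (hcomp : comps d (perm δ) = m1 + m2 + 1) :
    ∃ J : Knot, Bands m2 J.1 (unlinked K1.1 m2) ∧ Bands m1 J.1 (unlinked K2.1 m1) := by
  -- everything is joined
  have hall : ∀ z, z < d → Joined (δ :: (C ++ T)) z z0 := by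
    intro z hz
    by_cases h2 : h z = 2
    · have h3 : Joined (δ :: T) z z0 := by
        exact w4 z z0 hz hz0 (by omega) (by omega)
      refine joined_mono ?_ h3
      intro b hb
      rw [List.mem_cons] at hb ⊢
      rcases hb with hb | hb
      · exact Or.inl hb
      · exact Or.inr (List.mem_append_right _ hb)
    · have h3 : Joined (δ :: C) z z0 := by
        exact v4 z z0 hz hz0 h2 (by omega)
      refine joined_mono ?_ h3
      intro b hb
      rw [List.mem_cons] at hb ⊢
      rcases hb with hb | hb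
      · exact Or.inl hb
      · exact Or.inr (List.mem_append_left _ hb)
  have hl : ∀ b ∈ C ++ T, IsBand d b := by
    intro b hb
    rw [List.mem_append] at hb
    rcases hb with hb | hb
    · exact v1 b hb
    · exact w1 b hb
  obtain ⟨ts, cs, a1, a2, a3, a4, a5, a6, a7, -⟩ := tree_first hδ (C ++ T) hl
  have hone : comps d (perm (δ * ts.prod)) ≤ 1 := by
    refine comps_le_one (fun x y hx hy => ?_)
    have h1 : ∀ {u v : ℕ}, Joined (δ :: (C ++ T)) u v → cyc (perm (δ * ts.prod)) u v := by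
      intro u v huv
      refine joined_le _ ?_ huv
      intro b hb x
      rw [List.mem_cons] at hb
      rcases hb with rfl | hb
      · exact a6 _ _ (cyc_step _ _)
      · exact a7 b hb x
    exact (cyc _).trans (h1 (hall x hx)) ((cyc _).symm (h1 (hall y hy)))
  have hlen : (C ++ T).length = m1 + m2 := by
    rw [List.length_append, v2, w2]
  have hcs0 : cs = [] := by
    have : cs.length = 0 := by omega
    exact List.length_eq_zero_iff.1 this
  have hd : d ≠ 0 := by omega
  have hge := comps_pos hd (perm (δ * ts.prod))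
  have hJ : comps d (perm (δ * C.prod * T.prod)) = 1 := by
    rw [mul_assoc, ← List.prod_append, a3, hcs0, List.prod_nil, mul_one]
    omega
  have hC : C.prod ∈ B d := prod_mem v1
  have hT : T.prod ∈ B d := prod_mem w1
  refine ⟨⟨(d, δ * C.prod * T.prod), (B d).mul_mem ((B d).mul_mem hδ hC) hT, hJ⟩, ?_, ?_⟩
  · apply Bands.symm
    refine ⟨d, δ * C.prod, T, (B d).mul_mem hδ hC, w1, by omega, ?_, Isotopic.refl _⟩
    exact v3
  · apply Bands.symm
    refine ⟨d, δ * T.prod, C.map (fun b => (T.prod)⁻¹ * b * ((T.prod)⁻¹)⁻¹), (B d).mul_mem hδ hT,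
      bands_map_conj ((B d).inv_mem hT) v1, by rw [List.length_map]; omega, ?_, ?_⟩
    · exact w3
    · rw [prod_map_conj]
      have e : δ * T.prod * ((T.prod)⁻¹ * C.prod * ((T.prod)⁻¹)⁻¹) = δ * C.prod * T.prod := by group
      rw [e]
      exact Isotopic.refl _

/-- the middle step: two lists of bands on isotopic coloured closed braids -/
lemma common_mid {K1 K2 : Knot} {m1 m2 : ℕ} {cs1 cs2 : List Braid} {Z1 Z2 Z : Col}
    (u1 : Relation.ReflTransGen CUp Z1 Z) (u2 : Relation.ReflTransGen CUp Z2 Z) (c1 : Conn Z1 cs1 {c | c ≠ 2})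
    (c2 : Conn Z2 cs2 {c | c ≠ 1}) (hc0 : ∃ x < Z1.1.1, Z1.2 x = 0) (hcs1 : ∀ c ∈ cs1, IsBand Z1.1.1 c)
    (hcs2 : ∀ c ∈ cs2, IsBand Z2.1.1 c) (hl1 : cs1.length = m1) (hl2 : cs2.length = m2) (hα1 : Z1.1.2 ∈ B Z1.1.1)
    (j1 : Isotopic (Z1.1.1, Z1.1.2 * cs1.prod) (unlinked K1.1 m2))
    (j2 : Isotopic (Z2.1.1, Z2.1.2 * cs2.prod) (unlinked K2.1 m1))
    (hcomp : comps Z1.1.1 (perm Z1.1.2) = m1 + m2 + 1) :
    ∃ J : Knot, Bands m2 J.1 (unlinked K1.1 m2) ∧ Bands m1 J.1 (unlinked K2.1 m1) := by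
  obtain ⟨C, v1, v2, v3, v4⟩ := cups_transport u1 hcs1 c1
  obtain ⟨T, w1, w2, w3, w4⟩ := cups_transport u2 hcs2 c2
  obtain ⟨z0, hz0, hz1⟩ := (cups_colour u1 0).1 hc0
  have hδ : Z.1.2 ∈ B Z.1.1 := cups_mem u1 hα1
  have hcomp' : comps Z.1.1 (perm Z.1.2) = m1 + m2 + 1 := by
    rw [← comps_isotopic (cups_iso u1), hcomp]
  exact common_finish hδ v1 w1 (v2.trans hl1) (w2.trans hl2) ((iso_of_ups v3).symm.trans j1)
    ((iso_of_ups w3).symm.trans j2) v4 w4 hz0 hz1 hcomp'

/-- Two knots with ribbon concordances to a third one. -/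
theorem common_top {K K1 K2 : Knot} {m1 m2 : ℕ} (hb1 : Bands m1 K1.1 (unlinked K.1 m1))
    (hb2 : Bands m2 K2.1 (unlinked K.1 m2)) :
    ∃ J : Knot, Bands m2 J.1 (unlinked K1.1 m2) ∧ Bands m1 J.1 (unlinked K2.1 m1) := by
  obtain ⟨n1, α1, cs1, hα1, hcs1, hl1, i1, j1⟩ := hb1.symm
  obtain ⟨n2, α2, cs2, hα2, hcs2, hl2, i2, j2⟩ := hb2.symm
  have hm0 : K.1.2 ∈ B K.1.1 := K.2.1
  have hK0 : K.1.1 ≠ 0 := by
    intro h
    have := K.2.2
    rw [h, comps_zero] at this
    omega
  have hcomp : comps (n1 + m2) (perm α1) = m1 + m2 + 1 := by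
    rw [comps_add (perm_below hα1)]
    have h2 := comps_isotopic i1
    rw [comps_unlinked K.2] at h2
    dsimp only at h2
    omega
  obtain ⟨X0, hX1, hX0, hX2⟩ : ∃ X0 : Col, X0.1 = K.1 ∧ Ok X0 ∧ ∀ x, X0.2 x = 0 :=
    ⟨(K.1, fun _ => 0), rfl, fun _ => rfl, fun _ => rfl⟩
  have hm1 : X0.1.2 ∈ B X0.1.1 := by rw [hX1]; exact hm0
  have e1 : (ext X0 (List.replicate m1 1)).1 = unlinked K.1 m1 := by rw [ext_fst, List.length_replicate, hX1]
  have e2 : (ext X0 (List.replicate m2 2)).1 = unlinked K.1 m2 := by rw [ext_fst, List.length_replicate, hX1]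
  obtain ⟨o1, -⟩ := ext_ok hX0 hm1 (List.replicate m1 1)
  obtain ⟨o2, -⟩ := ext_ok hX0 hm1 (List.replicate m2 2)
  have s3 : CIso (ext (ext X0 (List.replicate m1 1)) (List.replicate m2 2))
      (ext (ext X0 (List.replicate m2 2)) (List.replicate m1 1)) := by
    rw [← ext_append, ← ext_append]
    exact ext_perm hX0 hm1 List.perm_append_comm
  have hc0 : ∃ x < (ext (ext X0 (List.replicate m1 1)) (List.replicate m2 2)).1.1,
      (ext (ext X0 (List.replicate m1 1)) (List.replicate m2 2)).2 x = 0 := by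
    have h1 : (ext X0 (List.replicate m1 1)).1.1 = K.1.1 + m1 := by rw [e1]; rfl
    have h2 : (ext (ext X0 (List.replicate m1 1)) (List.replicate m2 2)).1.1 = K.1.1 + m1 + m2 := by
      rw [ext_fst, List.length_replicate]
      show (ext X0 (List.replicate m1 1)).1.1 + m2 = _
      rw [h1]
    refine ⟨0, by omega, ?_⟩
    rw [colour_lt _ (by omega), colour_lt _ (by rw [hX1]; omega), hX2]
  generalize ext X0 (List.replicate m1 1) = Y1 at e1 o1 s3 hc0
  generalize ext X0 (List.replicate m2 2) = Y2 at e2 o2 s3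
  obtain ⟨Y1a, y1⟩ := Y1
  obtain ⟨Y2a, y2⟩ := Y2
  dsimp only at e1 e2
  subst e1 e2
  obtain ⟨f1, q1, r1⟩ := (ciso_of_iso i1).2 _ o1
  obtain ⟨f2, q2, r2⟩ := (ciso_of_iso i2).2 _ o2
  have s1 := ciso_ext r1 (List.replicate m2 2)
  have s2 := ciso_ext r2 (List.replicate m1 1)
  have s4 := (s1.trans s3).trans s2.symm
  have k1 : comps n1 (perm (α1 * cs1.prod)) = 1 := by
    have := comps_isotopic j1
    dsimp only at this
    rw [this]
    exact K1.2.2
  have k2 : comps n2 (perm (α2 * cs2.prod)) = 1 := by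
    have := comps_isotopic j2
    dsimp only at this
    rw [this]
    exact K2.2.2
  have c1 : Conn (ext ((n1, α1), f1) (List.replicate m2 2)) cs1 {c | c ≠ 2} :=
    conn_ext (X := ((n1, α1), f1)) k1 (fun h => h rfl)
  have c2 : Conn (ext ((n2, α2), f2) (List.replicate m1 1)) cs2 {c | c ≠ 1} :=
    conn_ext (X := ((n2, α2), f2)) k2 (fun h => h rfl)
  have hc1 := (ciso_colour s1 0).2 hc0
  have g1 : (ext ((n1, α1), f1) (List.replicate m2 2)).1 = (n1 + m2, α1) := by
    rw [ext_fst, List.length_replicate]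
    rfl
  have g2 : (ext ((n2, α2), f2) (List.replicate m1 1)).1 = (n2 + m1, α2) := by
    rw [ext_fst, List.length_replicate]
    rfl
  obtain ⟨Z, u1, u2⟩ := s4
  refine common_mid u1 u2 c1 c2 hc1 ?_ ?_ hl1 hl2 ?_ ?_ ?_ ?_
  · rw [g1]
    exact bands_mono (Nat.le_add_right n1 m2) hcs1
  · rw [g2]
    exact bands_mono (Nat.le_add_right n2 m1) hcs2
  · rw [g1]
    exact B_mono (Nat.le_add_right n1 m2) hα1
  · rw [g1]
    exact iso_unlinked (K := (n1, α1 * cs1.prod)) j1 m2
  · rw [g2]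
    exact iso_unlinked (K := (n2, α2 * cs2.prod)) j2 m1
  · rw [g1]
    exact hcomp

/-- the slice genus at the top of a ribbon concordance -/
theorem sliceGenus_top {K K' : Knot} (h : RibbonConcordance K'.1 K.1) : sliceGenus K'.1 = sliceGenus K.1 := by
  apply le_antisymm _ (sliceGenus_le_of_ribbonConcordance h)
  obtain ⟨J0, h1, h2⟩ := (boundsSurface_iff K _).1 (slice_spec K)
  obtain ⟨m1, hm1⟩ := ribbonConcordance_iff.1 h
  obtain ⟨m2, hm2⟩ := ribbonConcordance_iff.1 h1
  obtain ⟨J, h3, h4⟩ := common_top hm1 hm2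
  exact sliceGenus_le ((boundsSurface_iff K' _).2 ⟨J, ribbonConcordance_iff.2 ⟨m2, h3⟩,
    ribbon_mono J J0 (ribbonConcordance_iff.2 ⟨m1, h4⟩) _ h2⟩)

end Pool.Agent.Lib.MP_177a0e_gt
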