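import Pool.Agent.Lib.MP_177a0e_gt.Exchange

/-!
# Isotopies with the components tracked

Closed braids with colours on the components: `f : ℕ → ℕ` is a colouring of the strings of `β` if it is constant on the
cycles of the permutation of `β`. The moves `Up` carry colourings along, with the same diamond property.
-/

namespace Pool.Agent.Lib.MP_177a0e_gt

open Equiv

lemma inv_self (π : Perm ℕ) (x : ℕ) : π⁻¹ (π x) = x := by
  rw [← Perm.mul_apply, inv_mul_cancel, Perm.one_apply]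

lemma self_inv (π : Perm ℕ) (x : ℕ) : π (π⁻¹ x) = x := by
  rw [← Perm.mul_apply, mul_inv_cancel, Perm.one_apply]

/-- `Up` with the map of the strings -/
inductive TUp : Rep → Rep → Perm ℕ → Prop
  | conj {n : ℕ} {β γ : Braid} (hβ : β ∈ B n) (hγ : γ ∈ B n) : TUp (n, β) (n, γ * β * γ⁻¹) (perm γ)
  | stab {n : ℕ} {β γ δ : Braid} (ε : Bool) (hβ : β ∈ B (n+1)) (hγ : γ ∈ B (n+1))
      (hδ : δ ∈ B (n+2)) :
      TUp (n+1, β) (n+2, δ * (γ * β * γ⁻¹ * sgn ε (σ n)) * δ⁻¹) (perm (δ * γ))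

lemma tup_of_up {K L : Rep} (h : Up K L) : ∃ τ, TUp K L τ := by
  cases h with
  | conj hβ hγ => exact ⟨_, TUp.conj hβ hγ⟩
  | stab ε hβ hγ hδ => exact ⟨_, TUp.stab ε hβ hγ hδ⟩

lemma perm_sgn (ε : Bool) (n : ℕ) : perm (sgn ε (σ n)) = Equiv.swap n (n+1) := by
  unfold sgn
  split_ifs
  · exact perm_σ n
  · rw [map_inv, perm_σ, Equiv.swap_inv]

lemma inv_cyc {f : ℕ → ℕ} {π : Perm ℕ} (h : ∀ x, f (π x) = f x) {x y : ℕ} (hxy : cyc π x y) : f x = f y :=
  sameCycle_le (Setoid.ker f) (fun z => (h z).symm) hxy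

/-- the permutation of a stabilisation -/
lemma stab_perm {n : ℕ} {β γ δ : Braid} (ε : Bool) (hβ : β ∈ B (n+1)) (hγ : γ ∈ B (n+1)) (w : ℕ) :
    perm (δ * (γ * β * γ⁻¹ * sgn ε (σ n)) * δ⁻¹) (perm δ w) =
      if w = n then perm δ (n+1) else if w = n + 1 then perm δ (perm (γ * β * γ⁻¹) n)
        else perm δ (perm (γ * β * γ⁻¹) w) := by
  have h1 : γ * β * γ⁻¹ ∈ B (n+1) := (B _).mul_mem ((B _).mul_mem hγ hβ) ((B _).inv_mem hγ)
  have h2 := perm_below h1
  have e : perm (δ * (γ * β * γ⁻¹ * sgn ε (σ n)) * δ⁻¹) (perm δ w) =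
      perm δ (perm (γ * β * γ⁻¹) (Equiv.swap n (n+1) w)) := by
    rw [map_mul, map_mul, map_mul (perm) (γ * β * γ⁻¹), perm_sgn, map_inv]
    simp only [Perm.mul_apply, inv_self]
  rw [e]
  split_ifs with h3 h4
  · rw [h3, Equiv.swap_apply_left, h2 (n+1) (le_refl _)]
  · rw [h4, Equiv.swap_apply_right]
  · rw [Equiv.swap_apply_of_ne_of_ne h3 h4]

lemma tup_mem {K L : Rep} {τ : Perm ℕ} (h : TUp K L τ) : K.2 ∈ B K.1 ∧ L.2 ∈ B L.1 := by
  cases h with
  | @conj n β γ hβ hγ => exact ⟨hβ, mem_of_up (Up.conj hβ hγ)⟩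
  | @stab n β γ δ ε hβ hγ hδ => exact ⟨hβ, mem_of_up (Up.stab ε hβ hγ hδ)⟩

lemma tup_lt {K L : Rep} {τ : Perm ℕ} (h : TUp K L τ) {x : ℕ} (hx : x < K.1) : τ x < L.1 := by
  cases h with
  | @conj n β γ hβ hγ => exact (perm_below hγ).lt hx
  | @stab n β γ δ ε hβ hγ hδ =>
    exact (perm_below ((B _).mul_mem hδ (B_mono (by omega) hγ))).lt (lt_trans hx (by simp))

lemma tup_step {K L : Rep} {τ : Perm ℕ} (h : TUp K L τ) (x : ℕ) :
    cyc (perm L.2) (τ x) (τ (perm K.2 x)) := by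
  cases h with
  | @conj n β γ hβ hγ =>
    have e : perm γ (perm β x) = perm (γ * β * γ⁻¹) (perm γ x) := by
      rw [map_mul, map_mul, map_inv]
      simp only [Perm.mul_apply, inv_self]
    dsimp only
    rw [e]
    exact cyc_step _ _
  | @stab n β γ δ ε hβ hγ hδ =>
    dsimp only
    have h1 := perm_below hβ
    by_cases hx : x < n + 1
    · have h2 := stab_perm (δ := δ) ε hβ hγ (perm γ x)
      have h3 : perm γ x < n + 1 := (perm_below hγ).lt hx
      have e1 : perm (δ * γ) x = perm δ (perm γ x) := by rw [map_mul, Perm.mul_apply]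
      have e2 : perm (δ * γ) (perm β x) = perm δ (perm (γ * β * γ⁻¹) (perm γ x)) := by
        rw [map_mul, map_mul, map_mul, map_inv]
        simp only [Perm.mul_apply, inv_self]
      rw [e1, e2]
      by_cases h4 : perm γ x = n
      · rw [if_pos h4] at h2
        have h5 := stab_perm (δ := δ) ε hβ hγ (n+1)
        rw [if_neg (by omega), if_pos rfl] at h5
        rw [h4, ← h5, ← h2, h4]
        exact (cyc _).trans (cyc_step _ _) (cyc_step _ _)
      · rw [if_neg h4, if_neg (by omega)] at h2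
        rw [← h2]
        exact cyc_step _ _
    · rw [h1 x (by omega)]

lemma tup_cyc {K L : Rep} {τ : Perm ℕ} (h : TUp K L τ) {x y : ℕ} (hxy : cyc (perm K.2) x y) :
    cyc (perm L.2) (τ x) (τ y) :=
  sameCycle_le ((cyc (perm L.2)).comap τ) (tup_step h) hxy

lemma tup_cover {K L : Rep} {τ : Perm ℕ} (h : TUp K L τ) {z : ℕ} (hz : z < L.1) :
    ∃ x < K.1, cyc (perm L.2) (τ x) z := by
  cases h with
  | @conj n β γ hβ hγ =>
    refine ⟨(perm γ)⁻¹ z, (perm_below hγ).inv.lt hz, ?_⟩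
    rw [self_inv]
  | @stab n β γ δ ε hβ hγ hδ =>
    dsimp only at hz ⊢
    have h1 : (perm δ)⁻¹ z < n + 2 := (perm_below hδ).inv.lt hz
    by_cases h2 : (perm δ)⁻¹ z = n + 1
    · refine ⟨(perm γ)⁻¹ n, (perm_below hγ).inv.lt (by omega), ?_⟩
      have h5 := stab_perm (δ := δ) ε hβ hγ n
      rw [if_pos rfl] at h5
      have e : z = perm δ (n+1) := by rw [← h2, self_inv]
      have e2 : perm (δ * γ) ((perm γ)⁻¹ n) = perm δ n := by rw [map_mul, Perm.mul_apply, self_inv]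
      rw [e2, e, ← h5]
      exact cyc_step _ _
    · refine ⟨(perm γ)⁻¹ ((perm δ)⁻¹ z), (perm_below hγ).inv.lt (by omega), ?_⟩
      have e2 : perm (δ * γ) ((perm γ)⁻¹ ((perm δ)⁻¹ z)) = z := by
        rw [map_mul, Perm.mul_apply, self_inv, self_inv]
      rw [e2]

/-- colourings are carried along -/
lemma tup_push {K L : Rep} {τ : Perm ℕ} (h : TUp K L τ) {f : ℕ → ℕ} (hf : ∀ x, f (perm K.2 x) = f x) :
    ∃ g : ℕ → ℕ, (∀ x, g (perm L.2 x) = g x) ∧ ∀ x < K.1, g (τ x) = f x := by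
  cases h with
  | @conj n β γ hβ hγ =>
    dsimp only at hf ⊢
    refine ⟨fun z => f ((perm γ)⁻¹ z), fun z => ?_, fun x _ => ?_⟩
    · rw [map_mul, map_mul, map_inv]
      simp only [Perm.mul_apply, inv_self]
      exact hf _
    · dsimp only
      rw [inv_self]
  | @stab n β γ δ ε hβ hγ hδ =>
    dsimp only at hf ⊢
    have h1 : γ * β * γ⁻¹ ∈ B (n+1) := (B _).mul_mem ((B _).mul_mem hγ hβ) ((B _).inv_mem hγ)
    have h2 := perm_below h1
    have hρ : ∀ w, f ((perm γ)⁻¹ (perm (γ * β * γ⁻¹) w)) = f ((perm γ)⁻¹ w) := by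
      intro w
      rw [map_mul, map_mul, map_inv]
      simp only [Perm.mul_apply, inv_self]
      exact hf _
    refine ⟨fun z => if (perm δ)⁻¹ z = n + 1 then f ((perm γ)⁻¹ n) else f ((perm γ)⁻¹ ((perm δ)⁻¹ z)),
      fun z => ?_, fun x hx => ?_⟩
    · obtain ⟨w, rfl⟩ : ∃ w, z = perm δ w := ⟨(perm δ)⁻¹ z, by rw [self_inv]⟩
      rw [stab_perm ε hβ hγ w]
      dsimp only
      rw [inv_self]
      by_cases h3 : w = n
      · rw [if_pos h3, inv_self, if_pos rfl, if_neg (by omega), h3]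
      · rw [if_neg h3]
        by_cases h4 : w = n + 1
        · rw [if_pos h4, inv_self, if_pos h4]
          have h5 := h2.lt (i := n) (by omega)
          rw [if_neg (by omega), hρ]
        · rw [if_neg h4, inv_self, if_neg h4, if_neg, hρ]
          intro h5
          have h6 := h2 (n+1) (le_refl _)
          exact h4 ((perm (γ * β * γ⁻¹)).injective (h5.trans h6.symm))
    · dsimp only
      have h3 : perm γ x < n + 1 := (perm_below hγ).lt hx
      rw [map_mul, Perm.mul_apply, inv_self, if_neg (by omega), inv_self]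

/-- colourings are carried back -/
lemma tup_pull {K L : Rep} {τ : Perm ℕ} (h : TUp K L τ) {g : ℕ → ℕ} (hg : ∀ x, g (perm L.2 x) = g x) (x : ℕ) :
    g (τ (perm K.2 x)) = g (τ x) := (inv_cyc hg (tup_step h x)).symm

/-- A convenient form of `TUp.stab`. -/
lemma TUp.stab' {n : ℕ} {β η ζ : Braid} {X : Braid} (ε : Bool) (hβ : β ∈ B (n+1))
    (hη : η ∈ B (n+1)) (hζ : ζ ∈ B (n+2)) (hX : X = ζ * (β * (η⁻¹ * sgn ε (σ n) * η)) * ζ⁻¹) :
    TUp (n+1, β) (n+2, X) (perm ζ) := by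
  have := TUp.stab (δ := ζ * η⁻¹) ε hβ hη ((B _).mul_mem hζ ((B _).inv_mem (B_mono (by omega) hη)))
  rw [hX]
  convert this using 2
  · group
  · group

lemma TUp.refl {K : Rep} (h : K.2 ∈ B K.1) : TUp K K 1 := by
  have := TUp.conj h (B K.1).one_mem
  simpa using this

/-- `TUp` has the diamond property. -/
theorem tdiamond {A X Y : Rep} {τ τ' : Perm ℕ} (h1 : TUp A X τ) (h2 : TUp A Y τ') :
    ∃ (Z : Rep) (υ υ' : Perm ℕ), TUp X Z υ ∧ TUp Y Z υ' ∧ ∀ x < A.1, υ (τ x) = υ' (τ' x) := by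
  cases h1 with
  | @conj n β γ hβ hγ =>
    have h3 : γ * β * γ⁻¹ ∈ B n := (B _).mul_mem ((B _).mul_mem hγ hβ) ((B _).inv_mem hγ)
    cases h2 with
    | @conj _ _ γ' _ hγ' =>
      refine ⟨(n, γ' * β * γ'⁻¹), perm (γ' * γ⁻¹), 1, ?_, TUp.refl (mem_of_up (Up.conj hβ hγ')), ?_⟩
      · have := TUp.conj h3 ((B _).mul_mem hγ' ((B _).inv_mem hγ))
        convert this using 2
        group
      · intro x _
        rw [← Perm.mul_apply, ← map_mul, inv_mul_cancel_right]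
        rfl
    | @stab m _ γ' δ' ε _ hγ' hδ' =>
      refine ⟨(m+2, δ' * (γ' * β * γ'⁻¹ * sgn ε (σ m)) * δ'⁻¹), perm (δ' * (γ' * γ⁻¹)), 1, ?_,
        TUp.refl (mem_of_up (Up.stab ε hβ hγ' hδ')), ?_⟩
      · have := TUp.stab ε h3 ((B _).mul_mem hγ' ((B _).inv_mem hγ)) hδ'
        convert this using 2
        group
      · intro x _
        rw [← Perm.mul_apply, ← map_mul, ← mul_assoc, inv_mul_cancel_right]
        rfl
  | @stab n β γ δ ε hβ hγ hδ =>
    cases h2 with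
    | @conj _ _ γ' _ hγ' =>
      have h3 : γ' * β * γ'⁻¹ ∈ B (n+1) := (B _).mul_mem ((B _).mul_mem hγ' hβ) ((B _).inv_mem hγ')
      refine ⟨(n+2, δ * (γ * β * γ⁻¹ * sgn ε (σ n)) * δ⁻¹), 1, perm (δ * (γ * γ'⁻¹)),
        TUp.refl (mem_of_up (Up.stab ε hβ hγ hδ)), ?_, ?_⟩
      · have := TUp.stab ε h3 ((B _).mul_mem hγ ((B _).inv_mem hγ')) hδ
        convert this using 2
        group
      · intro x _
        rw [← Perm.mul_apply (perm (δ * (γ * γ'⁻¹))), ← map_mul, ← mul_assoc, inv_mul_cancel_right]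
        rfl
    | @stab _ _ γ' δ' ε' _ hγ' hδ' =>
      have eβ : Commute (σ (n+1)) β := σ_comm_B (by omega) hβ
      have eγ : Commute (σ (n+1)) γ := σ_comm_B (by omega) hγ
      have eγ' : Commute (σ (n+1)) γ' := σ_comm_B (by omega) hγ'
      set t := σ (n+1) with ht
      set s := sgn ε (σ n) with hs
      set s' := sgn ε' (σ n) with hs'
      have hn2 : ∀ {x : Braid}, x ∈ B (n+1) → x ∈ B (n+2) := fun h => B_mono (by omega) h
      have hn3 : ∀ {x : Braid}, x ∈ B (n+2) → x ∈ B (n+3) := fun h => B_mono (by omega) h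
      have hσ : σ n ∈ B (n+2) := σ_mem (by omega)
      have hsm : s ∈ B (n+2) := sgn_mem hσ
      have hsm' : s' ∈ B (n+2) := sgn_mem hσ
      have htm : t ∈ B (n+3) := σ_mem (by omega)
      have hXm : δ * (γ * β * γ⁻¹ * s) * δ⁻¹ ∈ B (n+2) :=
        (B _).mul_mem ((B _).mul_mem hδ ((B _).mul_mem ((B _).mul_mem ((B _).mul_mem (hn2 hγ)
          (hn2 hβ)) ((B _).inv_mem (hn2 hγ))) hsm)) ((B _).inv_mem hδ)
      have hYm : δ' * (γ' * β * γ'⁻¹ * s') * δ'⁻¹ ∈ B (n+2) :=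
        (B _).mul_mem ((B _).mul_mem hδ' ((B _).mul_mem ((B _).mul_mem ((B _).mul_mem (hn2 hγ')
          (hn2 hβ)) ((B _).inv_mem (hn2 hγ'))) hsm')) ((B _).inv_mem hδ')
      let D : Braid := β * (γ⁻¹ * s * γ) * (γ'⁻¹ * (t * s' * t⁻¹) * γ')
      have hD1 : D = β * (γ⁻¹ * s * γ) * ((σ n * γ')⁻¹ * sgn ε' t * (σ n * γ')) := by
        simp only [D]
        rw [ht, hs', conj_rel1]
        group
      have hD2 : t⁻¹ * D * t = β * (γ⁻¹ * (σ n * sgn ε t * (σ n)⁻¹) * γ) * (γ'⁻¹ * s' * γ') := by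
        have e1 : t⁻¹ * D * t = (t⁻¹ * β * t) * ((t⁻¹ * γ * t)⁻¹ * (t⁻¹ * s * t) * (t⁻¹ * γ * t)) *
            ((t⁻¹ * γ' * t)⁻¹ * s' * (t⁻¹ * γ' * t)) := by
          simp only [D]; group
        have c : ∀ {x : Braid}, Commute t x → t⁻¹ * x * t = x := by
          intro x hx
          rw [mul_assoc, ← hx.eq, inv_mul_cancel_left]
        rw [e1, c eβ, c eγ, c eγ', ht, hs, conj_rel2]
      refine ⟨(n+3, D), perm (γ⁻¹ * δ⁻¹), perm (t * γ'⁻¹ * δ'⁻¹), ?_, ?_, ?_⟩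
      · refine TUp.stab' (n := n+1) (η := σ n * γ' * γ⁻¹ * δ⁻¹) (ζ := γ⁻¹ * δ⁻¹) ε' hXm ?_ ?_ ?_
        · exact (B _).mul_mem ((B _).mul_mem ((B _).mul_mem hσ (hn2 hγ')) ((B _).inv_mem (hn2 hγ)))
            ((B _).inv_mem hδ)
        · exact (B _).mul_mem ((B _).inv_mem (hn3 (hn2 hγ))) ((B _).inv_mem (hn3 hδ))
        · rw [← ht, hD1]; group
      · have hD3 : D = t * (β * (γ⁻¹ * (σ n * sgn ε t * (σ n)⁻¹) * γ) * (γ'⁻¹ * s' * γ')) * t⁻¹ := by
          rw [← hD2]; group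
        refine TUp.stab' (n := n+1) (η := (σ n)⁻¹ * γ * (γ'⁻¹ * s' * γ') * γ'⁻¹ * δ'⁻¹)
          (ζ := t * γ'⁻¹ * δ'⁻¹) ε hYm ?_ ?_ ?_
        · exact (B _).mul_mem ((B _).mul_mem ((B _).mul_mem ((B _).mul_mem ((B _).inv_mem hσ)
            (hn2 hγ)) ((B _).mul_mem ((B _).mul_mem ((B _).inv_mem (hn2 hγ')) hsm') (hn2 hγ')))
            ((B _).inv_mem (hn2 hγ'))) ((B _).inv_mem hδ')
        · exact (B _).mul_mem ((B _).mul_mem htm ((B _).inv_mem (hn3 (hn2 hγ'))))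
            ((B _).inv_mem (hn3 hδ'))
        · rw [← ht, hD3]; group
      · intro x hx
        dsimp only at hx
        have e1 : γ⁻¹ * δ⁻¹ * (δ * γ) = 1 := by group
        have e2 : t * γ'⁻¹ * δ'⁻¹ * (δ' * γ') = t := by group
        rw [← Perm.mul_apply, ← map_mul, e1, ← Perm.mul_apply, ← map_mul, e2, map_one, Perm.one_apply, ht,
          perm_σ, Equiv.swap_apply_of_ne_of_ne (by omega) (by omega)]

end Pool.Agent.Lib.MP_177a0e_gt
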